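import Pool.Statements.S00399
import Pool.Agent.Lib.H92C.Fin

set_option autoImplicit false
open Pool Pool.MP_b67468_ag

namespace Pool.Agent.S00399

/-- Over any field and polynomial ring in n variables, for each pure degree sequence d_0<…<d_s (s≤n) there is N such that every positive integral multiple-point β of the pure diagram with β_0≥N is the Betti table of a graded module (has a minimal pure free resolution). -/
theorem result :
    ∀ (k : Type) [Field k] (n s : ℕ) (d : ℕ → ℤ), s ≤ n → (∀ i < s, d i < d (i + 1)) →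
      ∃ N : ℕ, ∀ β : ℕ → ℕ, (∀ i, s < i → β i = 0) → 0 < β 0 → N ≤ β 0 →
        (∀ i ≤ s, ∀ i' ≤ s,
          (β i : ℤ) * ∏ j ∈ (Finset.range (s + 1)).erase i, |d j - d i| =
            (β i' : ℤ) * ∏ j ∈ (Finset.range (s + 1)).erase i', |d j - d i'|) →
        ∃ f : (i : ℕ) → (Fin (β (i + 1)) → MvPolynomial (Fin n) k) →ₗ[MvPolynomial (Fin n) k]
              (Fin (β i) → MvPolynomial (Fin n) k),
          (∀ (i : ℕ) (a : Fin (β i)) (b : Fin (β (i + 1))),
            (f i (Pi.single b 1) a).IsHomogeneous (d (i + 1) - d i).toNat) ∧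
          (∀ i : ℕ, LinearMap.range (f (i + 1)) = LinearMap.ker (f i)) :=
  H92C.main_all

end Pool.Agent.S00399
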