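import Pool.Statements.S01898

set_option autoImplicit false
open Pool Pool.MP_72b122_al

namespace Pool.Agent.S01898

noncomputable section

/-- The underlying additive group: pairs of finitely supported integer sequences. -/
abbrev P : Type := (ℕ →₀ ℤ) × (ℕ →₀ ℤ)

/-- The group `G = c₀₀(ℤ) × c₀₀(ℤ)`, written multiplicatively. -/
def GG : Type := Multiplicative P

instance : CommGroup GG := inferInstanceAs (CommGroup (Multiplicative P))

/-- The forgetful map to pairs of sequences. -/
def un (g : GG) : P := Multiplicative.toAdd (g : Multiplicative P)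

/-- The inverse of the forgetful map. -/
def mk (p : P) : GG := (Multiplicative.ofAdd p : Multiplicative P)

@[simp] theorem un_mk (p : P) : un (mk p) = p := rfl
@[simp] theorem mk_un (g : GG) : mk (un g) = g := rfl
theorem un_injective : Function.Injective un := fun _ _ h => h

instance : Lattice GG := inferInstanceAs (Lattice P)

@[simp] theorem un_mul (g h : GG) : un (g * h) = un g + un h := rfl
@[simp] theorem un_one : un 1 = 0 := rfl
@[simp] theorem un_inv (g : GG) : un g⁻¹ = - un g := rfl
@[simp] theorem un_sup (g h : GG) : un (g ⊔ h) = un g ⊔ un h := rfl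
@[simp] theorem un_inf (g h : GG) : un (g ⊓ h) = un g ⊓ un h := rfl
theorem le_iff (g h : GG) : g ≤ h ↔ un g ≤ un h := Iff.rfl

instance : MulLeftMono GG := ⟨fun g h k hk => by
  rw [le_iff] at hk ⊢
  simpa using hk⟩

instance : MulRightMono GG := ⟨fun g h k hk => by
  rw [le_iff] at hk ⊢
  simpa [Function.swap] using hk⟩

/-- A copy of the finitely supported sequences with the discrete topology. -/
def D : Type := ℕ →₀ ℤ

instance : TopologicalSpace D := ⊥
instance : DiscreteTopology D := ⟨rfl⟩

/-- Forget the topology. -/
def dun (d : D) : ℕ →₀ ℤ := d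

/-- The inverse of `dun`. -/
def dmk (d : ℕ →₀ ℤ) : D := d

/-- The difference of the two coordinates. -/
def diff (g : GG) : D := dmk ((un g).1 - (un g).2)

/-- The topology: pointwise convergence of the first coordinate, and the difference of the
two coordinates is discrete. -/
instance : TopologicalSpace GG :=
  TopologicalSpace.induced (fun g : GG => ((fun n => (un g).1 n, diff g) : (ℕ → ℤ) × D))
    inferInstance

theorem continuous_iff {X : Type*} [TopologicalSpace X] (f : X → GG) :
    Continuous f ↔ (∀ n, Continuous fun x => (un (f x)).1 n) ∧ Continuous fun x => diff (f x) := by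
  rw [continuous_induced_rng]
  constructor
  · intro h
    refine ⟨fun n => ?_, ?_⟩
    · exact (continuous_apply n).comp (continuous_fst.comp h)
    · exact continuous_snd.comp h
  · rintro ⟨h1, h2⟩
    exact (continuous_pi h1).prodMk h2

theorem continuous_coord (n : ℕ) : Continuous fun g : GG => (un g).1 n :=
  ((continuous_iff (fun g : GG => g)).1 continuous_id).1 n

theorem continuous_diff : Continuous diff :=
  ((continuous_iff (fun g : GG => g)).1 continuous_id).2

theorem continuous_coord2 (n : ℕ) : Continuous fun g : GG => (un g).2 n := by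
  have h : (fun g : GG => (un g).2 n) = fun g => (un g).1 n - (fun d : D => dun d n) (diff g) := by
    funext g
    show (un g).2 n = (un g).1 n - ((un g).1 - (un g).2) n
    rw [Finsupp.sub_apply]; ring
  rw [h]
  have h2 : Continuous fun d : D => dun d n := continuous_of_discreteTopology
  exact (continuous_coord n).sub (h2.comp continuous_diff)

instance : IsTopologicalGroup GG where
  continuous_mul := by
    rw [continuous_iff]
    refine ⟨fun n => ?_, ?_⟩
    · show Continuous fun x : GG × GG => ((un x.1).1 + (un x.2).1) n
      simp only [Finsupp.add_apply]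
      exact ((continuous_coord n).comp continuous_fst).add ((continuous_coord n).comp continuous_snd)
    · have h : (fun x : GG × GG => diff (x.1 * x.2)) =
          (fun p : D × D => dmk (dun p.1 + dun p.2)) ∘
            (fun x : GG × GG => (diff x.1, diff x.2)) := by
        funext x
        show ((un x.1).1 + (un x.2).1) - ((un x.1).2 + (un x.2).2) =
          ((un x.1).1 - (un x.1).2) + ((un x.2).1 - (un x.2).2)
        abel
      rw [h]
      exact continuous_of_discreteTopology.comp
        ((continuous_diff.comp continuous_fst).prodMk (continuous_diff.comp continuous_snd))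
  continuous_inv := by
    rw [continuous_iff]
    refine ⟨fun n => ?_, ?_⟩
    · show Continuous fun x : GG => (- (un x).1) n
      simp only [Finsupp.neg_apply]
      exact (continuous_coord n).neg
    · have h : (fun x : GG => diff x⁻¹) = (fun p : D => dmk (- dun p)) ∘ diff := by
        funext x
        show (-(un x).1) - (-(un x).2) = - ((un x).1 - (un x).2)
        abel
      rw [h]
      exact continuous_of_discreteTopology.comp continuous_diff

/-- Any coordinatewise binary operation with respect to a function `op` on integers gives a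
locally constant difference. -/
theorem continuous_op (F : GG → GG → GG) (op : ℤ → ℤ → ℤ)
    (h1 : ∀ g h n, (un (F g h)).1 n = op ((un g).1 n) ((un h).1 n))
    (h2 : ∀ g h n, (un (F g h)).2 n = op ((un g).2 n) ((un h).2 n)) :
    Continuous fun p : GG × GG => F p.1 p.2 := by
  rw [continuous_iff]
  refine ⟨fun n => ?_, ?_⟩
  · simp only [h1]
    exact (continuous_of_discreteTopology (f := fun p : ℤ × ℤ => op p.1 p.2)).comp
      (((continuous_coord n).comp continuous_fst).prodMk ((continuous_coord n).comp continuous_snd))
  · rw [continuous_iff_continuousAt]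
    rintro ⟨p0, q0⟩
    -- the finite set where something happens
    let S : Finset ℕ := (dun (diff p0)).support ∪ (dun (diff q0)).support
    have hev : ∀ᶠ x : GG × GG in nhds (p0, q0),
        (diff x.1 = diff p0 ∧ diff x.2 = diff q0) ∧
          (∀ n ∈ S, (un x.1).1 n = (un p0).1 n ∧ (un x.2).1 n = (un q0).1 n) := by
      refine Filter.Eventually.and (Filter.Eventually.and ?_ ?_) ?_
      · have hc : Continuous fun x : GG × GG => diff x.1 := continuous_diff.comp continuous_fst
        exact hc.continuousAt (IsOpen.mem_nhds (isOpen_discrete {diff p0}) (Set.mem_singleton _))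
      · have hc : Continuous fun x : GG × GG => diff x.2 := continuous_diff.comp continuous_snd
        exact hc.continuousAt (IsOpen.mem_nhds (isOpen_discrete {diff q0}) (Set.mem_singleton _))
      · rw [Filter.eventually_all_finset]
        intro n _
        refine Filter.Eventually.and ?_ ?_
        · have hc : Continuous fun x : GG × GG => (un x.1).1 n :=
            (continuous_coord n).comp continuous_fst
          exact hc.continuousAt (IsOpen.mem_nhds (isOpen_discrete {(un p0).1 n}) (Set.mem_singleton _))
        · have hc : Continuous fun x : GG × GG => (un x.2).1 n :=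
            (continuous_coord n).comp continuous_snd
          exact hc.continuousAt (IsOpen.mem_nhds (isOpen_discrete {(un q0).1 n}) (Set.mem_singleton _))
    have key : ∀ᶠ x : GG × GG in nhds (p0, q0), diff (F x.1 x.2) = diff (F p0 q0) := by
      filter_upwards [hev] with x hx
      obtain ⟨⟨hd1, hd2⟩, hS⟩ := hx
      have hd1' : ∀ n, (un x.1).1 n - (un x.1).2 n = (un p0).1 n - (un p0).2 n := by
        intro n
        have := congrArg (fun d : D => dun d n) hd1
        simpa [diff, dun, dmk] using this
      have hd2' : ∀ n, (un x.2).1 n - (un x.2).2 n = (un q0).1 n - (un q0).2 n := by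
        intro n
        have := congrArg (fun d : D => dun d n) hd2
        simpa [diff, dun, dmk] using this
      show ((un (F x.1 x.2)).1 - (un (F x.1 x.2)).2 : ℕ →₀ ℤ) =
        ((un (F p0 q0)).1 - (un (F p0 q0)).2 : ℕ →₀ ℤ)
      ext n
      rw [Finsupp.sub_apply, Finsupp.sub_apply, h1, h2, h1, h2]
      by_cases hn : n ∈ S
      · obtain ⟨e1, e2⟩ := hS n hn
        have e3 : (un x.1).2 n = (un p0).2 n := by have := hd1' n; omega
        have e4 : (un x.2).2 n = (un q0).2 n := by have := hd2' n; omega
        rw [e1, e2, e3, e4]
      · have hz1 : (un p0).1 n - (un p0).2 n = 0 := by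
          by_contra hne
          exact hn (Finset.mem_union_left _ (Finsupp.mem_support_iff.2 (by
            simpa [diff, dun, dmk] using hne)))
        have hz2 : (un q0).1 n - (un q0).2 n = 0 := by
          by_contra hne
          exact hn (Finset.mem_union_right _ (Finsupp.mem_support_iff.2 (by
            simpa [diff, dun, dmk] using hne)))
        have e1 : (un x.1).1 n = (un x.1).2 n := by have := hd1' n; omega
        have e2 : (un x.2).1 n = (un x.2).2 n := by have := hd2' n; omega
        have e3 : (un p0).1 n = (un p0).2 n := by omega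
        have e4 : (un q0).1 n = (un q0).2 n := by omega
        rw [e1, e2, e3, e4]; simp
    exact (tendsto_const_nhds (x := diff (F p0 q0))).congr' (by
      filter_upwards [key] with x hx using hx.symm)

instance : TopologicalLattice GG where
  continuous_sup := continuous_op (fun g h => g ⊔ h) (fun a b => a ⊔ b)
    (fun g h n => by simp [Finsupp.sup_apply]) (fun g h n => by simp [Finsupp.sup_apply])
  continuous_inf := continuous_op (fun g h => g ⊓ h) (fun a b => a ⊓ b)
    (fun g h n => by simp [Finsupp.inf_apply]) (fun g h n => by simp [Finsupp.inf_apply])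

/-- The first summand. -/
def A : Subgroup GG where
  carrier := {g | (un g).2 = 0}
  mul_mem' := by
    intro a b ha hb
    simp only [Set.mem_ofPred_eq] at *
    simp [ha, hb]
  one_mem' := by simp
  inv_mem' := by
    intro a ha
    simp only [Set.mem_ofPred_eq] at *
    simp [ha]

/-- The second summand. -/
def B : Subgroup GG where
  carrier := {g | (un g).1 = 0}
  mul_mem' := by
    intro a b ha hb
    simp only [Set.mem_ofPred_eq] at *
    simp [ha, hb]
  one_mem' := by simp
  inv_mem' := by
    intro a ha
    simp only [Set.mem_ofPred_eq] at *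
    simp [ha]

theorem mem_A (g : GG) : g ∈ A ↔ (un g).2 = 0 := Iff.rfl
theorem mem_B (g : GG) : g ∈ B ↔ (un g).1 = 0 := Iff.rfl

theorem isClosed_A : IsClosed (A : Set GG) := by
  have h : (A : Set GG) = ⋂ n : ℕ, {g | (un g).2 n = 0} := by
    ext g
    simp only [SetLike.mem_coe, mem_A, Set.mem_iInter, Set.mem_ofPred_eq]
    exact ⟨fun h n => by simp [h], fun h => Finsupp.ext h⟩
  rw [h]
  exact isClosed_iInter fun n => isClosed_eq (continuous_coord2 n) continuous_const

theorem isClosed_B : IsClosed (B : Set GG) := by
  have h : (B : Set GG) = ⋂ n : ℕ, {g | (un g).1 n = 0} := by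
    ext g
    simp only [SetLike.mem_coe, mem_B, Set.mem_iInter, Set.mem_ofPred_eq]
    exact ⟨fun h n => by simp [h], fun h => Finsupp.ext h⟩
  rw [h]
  exact isClosed_iInter fun n => isClosed_eq (continuous_coord n) continuous_const

instance : DiscreteTopology A := by
  refine DiscreteTopology.of_continuous_injective (f := fun a : A => diff a.1)
    (continuous_diff.comp continuous_subtype_val) ?_
  rintro ⟨a, ha⟩ ⟨b, hb⟩ hab
  rw [mem_A] at ha hb
  apply Subtype.ext
  apply un_injective
  have : ((un a).1 - (un a).2 : ℕ →₀ ℤ) = (un b).1 - (un b).2 := hab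
  rw [ha, hb, sub_zero, sub_zero] at this
  exact Prod.ext this (ha.trans hb.symm)

instance : DiscreteTopology B := by
  refine DiscreteTopology.of_continuous_injective (f := fun a : B => diff a.1)
    (continuous_diff.comp continuous_subtype_val) ?_
  rintro ⟨a, ha⟩ ⟨b, hb⟩ hab
  rw [mem_B] at ha hb
  apply Subtype.ext
  apply un_injective
  have : ((un a).1 - (un a).2 : ℕ →₀ ℤ) = (un b).1 - (un b).2 := hab
  rw [ha, hb, zero_sub, zero_sub, neg_inj] at this
  exact Prod.ext (ha.trans hb.symm) this

theorem not_discrete : ¬ DiscreteTopology GG := by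
  intro hd
  let g : ℕ → GG := fun n => mk (Finsupp.single n 1, Finsupp.single n 1)
  have hg : Filter.Tendsto g Filter.atTop (nhds 1) := by
    rw [nhds_induced, Filter.tendsto_comap_iff]
    refine Filter.Tendsto.prodMk_nhds ?_ ?_
    · rw [tendsto_pi_nhds]
      intro m
      refine (tendsto_const_nhds (x := (0 : ℤ))).congr' ?_
      filter_upwards [Filter.eventually_gt_atTop m] with n hn
      simp [g, hn.ne']
    · refine (tendsto_const_nhds (x := diff 1)).congr' ?_
      filter_upwards with n
      show dmk ((un 1).1 - (un 1).2) = dmk ((un (g n)).1 - (un (g n)).2)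
      simp [g]
  have h1 : ∀ᶠ n in Filter.atTop, g n ∈ ({1} : Set GG) :=
    hg (IsOpen.mem_nhds (isOpen_discrete {1}) rfl)
  obtain ⟨n, hn⟩ := h1.exists
  have h2 : (un (g n)).1 n = (un 1).1 n := by
    rw [Set.mem_singleton_iff.1 hn]
  simp [g] at h2

/-- The negation of the preceding statement: Let G be a topological lattice-ordered group with closed normal ℓ-subgroups A, B such that multiplication A×B→G is an ℓ-isomorphism. Then this map is a homeomorphism from the product topology onto G. -/
theorem result :
    ¬ (∀ (G : Type) [Group G] [Lattice G] [MulLeftMono G] [MulRightMono G]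
      [TopologicalSpace G] [IsTopologicalGroup G] [TopologicalLattice G]
      (A B : Subgroup G),
      A.Normal → B.Normal →
      IsClosed (A : Set G) → IsClosed (B : Set G) →
      (∀ x ∈ A, ∀ y ∈ A, x ⊔ y ∈ A ∧ x ⊓ y ∈ A) →
      (∀ x ∈ B, ∀ y ∈ B, x ⊔ y ∈ B ∧ x ⊓ y ∈ B) →
      ∀ φ : (↥A × ↥B) → G, (∀ p, φ p = (p.1 : G) * (p.2 : G)) →
      Function.Bijective φ →
      (∀ p q : ↥A × ↥B, p ≤ q ↔ φ p ≤ φ q) →
      ∃ e : (↥A × ↥B) ≃ₜ G, ∀ p, e p = φ p) := by
  intro H
  obtain ⟨e, -⟩ := H GG A B inferInstance inferInstance isClosed_A isClosed_B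
    (fun x hx y hy => by
      rw [mem_A] at hx hy
      constructor
      · rw [mem_A]; simp [hx, hy]
      · rw [mem_A]; simp [hx, hy])
    (fun x hx y hy => by
      rw [mem_B] at hx hy
      constructor
      · rw [mem_B]; simp [hx, hy]
      · rw [mem_B]; simp [hx, hy])
    (fun p => (p.1 : GG) * (p.2 : GG)) (fun _ => rfl)
    (by
      constructor
      · rintro ⟨⟨a, ha⟩, ⟨b, hb⟩⟩ ⟨⟨c, hc⟩, ⟨d, hd⟩⟩ h
        rw [mem_A] at ha hc
        rw [mem_B] at hb hd
        have h' : un a + un b = un c + un d := congrArg un h
        have h1 := congrArg Prod.fst h'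
        have h2 := congrArg Prod.snd h'
        simp only [Prod.fst_add, Prod.snd_add, ha, hb, hc, hd, add_zero, zero_add] at h1 h2
        have e1 : a = c := un_injective (Prod.ext h1 (ha.trans hc.symm))
        have e2 : b = d := un_injective (Prod.ext (hb.trans hd.symm) h2)
        subst e1 e2
        rfl
      · intro g
        refine ⟨(⟨mk ((un g).1, 0), rfl⟩, ⟨mk (0, (un g).2), rfl⟩), ?_⟩
        apply un_injective
        simp)
    (by
      rintro ⟨⟨a, ha⟩, ⟨b, hb⟩⟩ ⟨⟨c, hc⟩, ⟨d, hd⟩⟩
      rw [mem_A] at ha hc
      rw [mem_B] at hb hd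
      simp only [Subtype.mk_le_mk, le_iff, un_mul, Prod.le_def, Prod.fst_add,
        Prod.snd_add, ha, hb, hc, hd, add_zero, zero_add, le_refl, and_true, true_and])
  exact not_discrete (e.symm.isEmbedding.discreteTopology)

end

end Pool.Agent.S01898
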