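import Pool.Statements.S03538
import Pool.Agent.Lib.H14E.Final

set_option autoImplicit false
open Pool Pool.MP_f3e693_al

namespace Pool.Agent.S03538

/-- The negation of the preceding statement: For any free group F and normal subgroup H with F/H periodic and Engel, every total order on H invariant under multiplication and under conjugation by F extends to a bi-invariant total order on F. -/
theorem result :
    ¬ (∀ (α : Type) (H : Subgroup (FreeGroup α)), H.Normal →
      (∀ g : FreeGroup α, ∃ n : ℕ, 1 ≤ n ∧ g ^ n ∈ H) →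
      (∀ x y : FreeGroup α, ∃ n : ℕ, (fun z => z⁻¹ * y⁻¹ * z * y)^[n] x ∈ H) →
      ∀ P : Set (FreeGroup α),
        (∀ x, x ∈ P → x ∈ H) →
        (∀ x y, x ∈ P → y ∈ P → x * y ∈ P) →
        ((1 : FreeGroup α) ∉ P) →
        (∀ x, x ∈ H → x ≠ 1 → (x ∈ P ∨ x⁻¹ ∈ P)) →
        (∀ g x, x ∈ P → g * x * g⁻¹ ∈ P) →
        ∃ Q : Set (FreeGroup α),
          (∀ x y, x ∈ Q → y ∈ Q → x * y ∈ Q) ∧
          (1 : FreeGroup α) ∉ Q ∧
          (∀ x : FreeGroup α, x ≠ 1 → (x ∈ Q ∨ x⁻¹ ∈ Q)) ∧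
          (∀ g x, x ∈ Q → g * x * g⁻¹ ∈ Q) ∧
          P ⊆ Q) := by
  exact Pool.Agent.Lib.H14E.fin_not

end Pool.Agent.S03538
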