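import Pool.Statements.S03802
import Pool.Agent.H32.KernelExtC

set_option autoImplicit false
open Pool Pool.MP_0d1f0b_an

namespace Pool.Agent.S03802

/-- The negation of the preceding statement: For every inner function Θ on the upper half-plane, if the model-space kernels at points of σ form a Riesz sequence, then σ extends to σ' whose kernels form a Riesz sequence whose closed span contains every model-space kernel. -/
theorem result :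
    ¬ (∀ (Θ : ℂ → ℂ), DifferentiableOn ℂ Θ {z : ℂ | 0 < z.im} →
      (∀ z : ℂ, 0 < z.im → ‖Θ z‖ ≤ 1) →
      (∀ᵐ x : ℝ, Filter.Tendsto (fun y : ℝ => ‖Θ ((x : ℂ) + (y : ℂ) * Complex.I)‖)
          (nhdsWithin (0 : ℝ) (Set.Ioi 0)) (nhds 1)) →
      ∀ G : ℂ → ℂ → ℂ,
        (∀ z w : ℂ, G z w = Complex.I / (2 * (Real.pi : ℂ)) *
            (1 - starRingEnd ℂ (Θ z) * Θ w) / (w - starRingEnd ℂ z)) →
      ∀ σ : Set ℂ, σ ⊆ {z : ℂ | 0 < z.im} →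
        (∃ c C : ℝ, 0 < c ∧ 0 < C ∧ ∀ s : Finset ℂ, (↑s : Set ℂ) ⊆ σ → ∀ a : ℂ → ℂ,
            c * ∑ z ∈ s, ‖a z‖ ^ 2 * (G z z).re
              ≤ (∑ z ∈ s, ∑ w ∈ s, a z * starRingEnd ℂ (a w) * G z w).re ∧
            (∑ z ∈ s, ∑ w ∈ s, a z * starRingEnd ℂ (a w) * G z w).re
              ≤ C * ∑ z ∈ s, ‖a z‖ ^ 2 * (G z z).re) →
        ∃ σ' : Set ℂ, σ ⊆ σ' ∧ σ' ⊆ {z : ℂ | 0 < z.im} ∧
          (∃ c C : ℝ, 0 < c ∧ 0 < C ∧ ∀ s : Finset ℂ, (↑s : Set ℂ) ⊆ σ' → ∀ a : ℂ → ℂ,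
            c * ∑ z ∈ s, ‖a z‖ ^ 2 * (G z z).re
              ≤ (∑ z ∈ s, ∑ w ∈ s, a z * starRingEnd ℂ (a w) * G z w).re ∧
            (∑ z ∈ s, ∑ w ∈ s, a z * starRingEnd ℂ (a w) * G z w).re
              ≤ C * ∑ z ∈ s, ‖a z‖ ^ 2 * (G z z).re) ∧
          ∀ w : ℂ, 0 < w.im → ∀ ε : ℝ, 0 < ε →
            ∃ s : Finset ℂ, (↑s : Set ℂ) ⊆ σ' ∧ ∃ a : ℂ → ℂ,
              (G w w - ∑ z ∈ s, starRingEnd ℂ (a z) * G w z - ∑ z ∈ s, a z * G z w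
                + ∑ z ∈ s, ∑ v ∈ s, a z * starRingEnd ℂ (a v) * G z v).re < ε) := by
  intro hall
  obtain ⟨S, hsS, hS, ⟨c, C, hc, hC, hR⟩, hden⟩ := hall Pool.Agent.H32.KE.Th
    Pool.Agent.H32.KE.differentiableOn_Th
    (fun z hz => Pool.Agent.H32.KE.norm_Th_le hz) Pool.Agent.H32.KE.Th_boundary
    (fun z w => Complex.I / (2 * (Real.pi : ℂ)) *
            (1 - starRingEnd ℂ (Pool.Agent.H32.KE.Th z) * Pool.Agent.H32.KE.Th w) /
              (w - starRingEnd ℂ z)) (fun _ _ => rfl)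
    Pool.Agent.H32.KE.sig Pool.Agent.H32.KE.sig_uhp
    ⟨1/20, 5, by norm_num, by norm_num,
      (Pool.Agent.H32.KE.counterexample _ (fun _ _ => rfl)).1⟩
  exact (Pool.Agent.H32.KE.counterexample _ (fun _ _ => rfl)).2 S hsS hS c C hc hC hR hden

end Pool.Agent.S03802
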