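import Pool.Statements.S04385
import Pool.Agent.Lib.H31J.Main

set_option autoImplicit false
open Pool Pool.MP_3a87b6_an

namespace Pool.Agent.S04385

/-- There are nonzero λ, μ such that the Julia sets of z ↦ λe^z and z ↦ μe^z are homeomorphic, yet no homeomorphism of the plane maps one onto the other. -/
theorem result :
    ∀ J : ℂ → Set ℂ,
      (∀ c z : ℂ, z ∈ J c ↔
        ¬ ∃ U ∈ nhds z, ∀ φ : ℕ → ℕ, StrictMono φ → ∃ ψ : ℕ → ℕ, StrictMono ψ ∧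
          ((∃ g : ℂ → ℂ, TendstoLocallyUniformlyOn
              (fun k : ℕ => (fun w : ℂ => c * Complex.exp w)^[φ (ψ k)]) g Filter.atTop U) ∨
           (∀ K : Set ℂ, K ⊆ U → IsCompact K → ∀ R : ℝ, ∀ᶠ k in Filter.atTop,
              ∀ x ∈ K, R < ‖(fun w : ℂ => c * Complex.exp w)^[φ (ψ k)] x‖))) →
      ∃ a b : ℂ, a ≠ 0 ∧ b ≠ 0 ∧ Nonempty (↥(J a) ≃ₜ ↥(J b)) ∧
        ¬ ∃ h : ℂ ≃ₜ ℂ, h '' J a = J b := by
  exact PJ.final

end Pool.Agent.S04385
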