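import Pool.Statements.S04662
import Pool.Agent.Lib.H38.KpMain

set_option autoImplicit false
open Pool Pool.MP_50b10a_an

namespace Pool.Agent.S04662

/-- The negation of the preceding statement: For 1/4 ≤ p < 1, take the sup over normalized univalent disk maps f of the n-th coefficient of (f(z)/z)^p (the holomorphic branch equal to 1 at 0), divided by Γ(2p+n)/(n!Γ(2p)). This ratio tends to 1 exactly when p ≥ 1/2. -/
theorem result :
    ¬ (∀ p : ℝ, 1/4 ≤ p → p < 1 →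
      (Filter.Tendsto (fun n : ℕ =>
        sSup {c : ℝ | ∃ f : ℂ → ℂ, ∃ h : ℂ → ℂ,
            DifferentiableOn ℂ f (Metric.ball (0:ℂ) 1) ∧
            Set.InjOn f (Metric.ball (0:ℂ) 1) ∧
            f 0 = 0 ∧ deriv f 0 = 1 ∧
            DifferentiableOn ℂ h (Metric.ball (0:ℂ) 1) ∧ h 0 = 0 ∧
            (∀ z ∈ Metric.ball (0:ℂ) 1, z ≠ 0 → z * Complex.exp (h z) = f z) ∧
            c = ‖iteratedDeriv n (fun z => Complex.exp ((p:ℂ) * h z)) 0‖ / (n.factorial : ℝ)}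
        / (Real.Gamma (2*p + (n:ℝ)) / (Real.Gamma ((n:ℝ) + 1) * Real.Gamma (2*p))))
        Filter.atTop (nhds 1) ↔ 1/2 ≤ p)) := by
  intro H
  have hT := (H (1 / 2) (by norm_num) (by norm_num)).2 le_rfl
  obtain ⟨ε, hε, hev⟩ := Pool.Agent.Lib.H38.Kp.exists_gain
  have hden : ∀ n : ℕ, Real.Gamma (2 * (1 / 2 : ℝ) + (n : ℝ)) /
      (Real.Gamma ((n : ℝ) + 1) * Real.Gamma (2 * (1 / 2 : ℝ))) = 1 := by
    intro n
    have h1 : (2 * (1 / 2 : ℝ)) = 1 := by norm_num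
    rw [h1, Real.Gamma_one, mul_one, add_comm (1 : ℝ) (n : ℝ)]
    exact div_self (Real.Gamma_pos_of_pos (by positivity)).ne'
  have hT2 : Filter.Tendsto (fun n : ℕ => sSup (Pool.Agent.Lib.H38.Kp.CS n))
      Filter.atTop (nhds 1) := by
    refine hT.congr (fun n => ?_)
    rw [hden n, div_one]
    rfl
  have h1 : ∀ᶠ n : ℕ in Filter.atTop, sSup (Pool.Agent.Lib.H38.Kp.CS n) < 1 + ε :=
    hT2.eventually_lt_const (by linarith)
  have h2 : ∀ᶠ n : ℕ in Filter.atTop, 1 / 2 < sSup (Pool.Agent.Lib.H38.Kp.CS n) :=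
    hT2.eventually_const_lt (by norm_num)
  obtain ⟨n, ⟨c, hc, hc1⟩, h1n, h2n⟩ := (hev.and (h1.and h2)).exists
  by_cases hb : BddAbove (Pool.Agent.Lib.H38.Kp.CS n)
  · have := le_csSup hb hc
    linarith
  · rw [Real.sSup_of_not_bddAbove hb] at h2n
    linarith

end Pool.Agent.S04662
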