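import Pool.Statements.S04732

set_option autoImplicit false
open Pool Pool.MP_583d70_an

namespace Pool.Agent.S04732

open Filter Topology

/-- Index set of the coordinates: two sequences `u`, `v` and all pairs `(j, k)`. -/
abbrev Idx : Type := (ℕ ⊕ ℕ) ⊕ (ℕ × ℕ)

/-- Bounded functions on the (discrete) index set, with the supremum norm. -/
abbrev F : Type := BoundedContinuousFunction Idx ℝ

/-- First sequence of coordinates. -/
def U (w : F) (j : ℕ) : ℝ := w (Sum.inl (Sum.inl j))

/-- Second sequence of coordinates. -/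
def V (w : F) (k : ℕ) : ℝ := w (Sum.inl (Sum.inr k))

/-- The coordinate attached to the pair `(j, k)`. -/
noncomputable def pr (j k : ℕ) (a b : ℝ) : ℝ := if j ≤ k then a + 3 / 2 * b else 3 / 2 * a + b

/-- The closed subspace: a renorming of `c₀ ⊕ c₀`. -/
noncomputable def S : Submodule ℝ F where
  carrier := {w | (∀ j k, w (Sum.inr (j, k)) = pr j k (U w j) (V w k)) ∧
    Tendsto (fun j => U w j) atTop (𝓝 0) ∧ Tendsto (fun j => V w j) atTop (𝓝 0)}
  add_mem' := by
    rintro a b ⟨ha, ha1, ha2⟩ ⟨hb, hb1, hb2⟩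
    refine ⟨fun j k => ?_, ?_, ?_⟩
    · have h1 := ha j k
      have h2 := hb j k
      simp only [U, V, pr, BoundedContinuousFunction.add_apply] at *
      rw [h1, h2]
      split_ifs <;> ring
    · have := ha1.add hb1
      simpa [U] using this
    · have := ha2.add hb2
      simpa [V] using this
  zero_mem' := by
    refine ⟨fun j k => ?_, ?_, ?_⟩
    · simp [U, V, pr]
    · exact tendsto_const_nhds
    · exact tendsto_const_nhds
  smul_mem' := by
    rintro c a ⟨ha, ha1, ha2⟩
    refine ⟨fun j k => ?_, ?_, ?_⟩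
    · have h1 := ha j k
      simp only [U, V, pr, BoundedContinuousFunction.smul_apply, smul_eq_mul] at *
      rw [h1]
      split_ifs <;> ring
    · have := ha1.const_mul c
      simpa [U] using this
    · have := ha2.const_mul c
      simpa [V] using this

theorem mem_S (w : F) : w ∈ S ↔ (∀ j k, w (Sum.inr (j, k)) = pr j k (U w j) (V w k)) ∧
    Tendsto (fun j => U w j) atTop (𝓝 0) ∧ Tendsto (fun j => V w j) atTop (𝓝 0) := Iff.rfl

theorem continuous_ev (i : Idx) : Continuous fun w : F => w i :=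
  (BoundedContinuousFunction.lipschitz_eval_const i).continuous

theorem continuous_U (j : ℕ) : Continuous fun w : F => U w j := continuous_ev _

theorem continuous_V (j : ℕ) : Continuous fun w : F => V w j := continuous_ev _

/-- Coordinatewise convergence to zero along a sequence of indices is a closed condition. -/
theorem isClosed_tendsto (φ : ℕ → Idx) :
    IsClosed {w : F | Tendsto (fun n => w (φ n)) atTop (𝓝 0)} := by
  rw [← isSeqClosed_iff_isClosed]
  intro s w hs hw
  change Tendsto (fun n => w (φ n)) atTop (𝓝 0)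
  rw [Metric.tendsto_atTop]
  intro ε hε
  rw [Metric.tendsto_atTop] at hw
  obtain ⟨N, hN⟩ := hw (ε / 2) (by positivity)
  have h1 := hN N le_rfl
  have h2 : Tendsto (fun n => s N (φ n)) atTop (𝓝 0) := hs N
  rw [Metric.tendsto_atTop] at h2
  obtain ⟨M, hM⟩ := h2 (ε / 2) (by positivity)
  refine ⟨M, fun n hn => ?_⟩
  have h3 := hM n hn
  have h4 : dist (s N (φ n)) (w (φ n)) ≤ dist (s N) w :=
    BoundedContinuousFunction.dist_coe_le_dist (φ n)
  calc dist (w (φ n)) 0 ≤ dist (w (φ n)) (s N (φ n)) + dist (s N (φ n)) 0 := dist_triangle _ _ _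
    _ < ε / 2 + ε / 2 := by
        rw [dist_comm (w (φ n))]
        linarith
    _ = ε := by ring

theorem isClosed_S : IsClosed (S : Set F) := by
  have h : (S : Set F) = (⋂ (j : ℕ), ⋂ (k : ℕ), {w : F | w (Sum.inr (j, k)) = pr j k (U w j) (V w k)}) ∩
      ({w : F | Tendsto (fun n => w (Sum.inl (Sum.inl n))) atTop (𝓝 0)} ∩
       {w : F | Tendsto (fun n => w (Sum.inl (Sum.inr n))) atTop (𝓝 0)}) := by
    ext w
    simp only [SetLike.mem_coe, mem_S, Set.mem_inter_iff, Set.mem_iInter]
    rfl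
  rw [h]
  refine IsClosed.inter ?_ (IsClosed.inter (isClosed_tendsto _) (isClosed_tendsto _))
  refine isClosed_iInter fun j => isClosed_iInter fun k => ?_
  refine isClosed_eq (continuous_ev _) ?_
  unfold pr
  split_ifs
  · exact (continuous_U j).add (continuous_const.mul (continuous_V k))
  · exact (continuous_const.mul (continuous_U j)).add (continuous_V k)

noncomputable instance instComplete : CompleteSpace S := isClosed_S.completeSpace_coe

/-- Build an element from two sequences bounded by one. -/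
noncomputable def mk (u v : ℕ → ℝ) (hu : ∀ j, |u j| ≤ 1) (hv : ∀ j, |v j| ≤ 1) : F :=
  BoundedContinuousFunction.ofNormedAddCommGroupDiscrete
    (fun i : Idx => match i with
      | Sum.inl (Sum.inl j) => u j
      | Sum.inl (Sum.inr k) => v k
      | Sum.inr (j, k) => pr j k (u j) (v k)) 3 (by
    rintro ((j | k) | ⟨j, k⟩)
    · simpa using (hu j).trans (by norm_num)
    · simpa using (hv k).trans (by norm_num)
    · have h1 := abs_le.1 (hu j)
      have h2 := abs_le.1 (hv k)
      simp only [pr, Real.norm_eq_abs]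
      split_ifs <;> rw [abs_le] <;> constructor <;> linarith [h1.1, h1.2, h2.1, h2.2])

theorem mk_mem (u v : ℕ → ℝ) (hu : ∀ j, |u j| ≤ 1) (hv : ∀ j, |v j| ≤ 1)
    (hu0 : ∀ᶠ n in atTop, u n = 0) (hv0 : ∀ᶠ n in atTop, v n = 0) : mk u v hu hv ∈ S := by
  refine ⟨fun j k => rfl, ?_, ?_⟩
  · exact tendsto_const_nhds.congr' (hu0.mono fun n hn => hn.symm)
  · exact tendsto_const_nhds.congr' (hv0.mono fun n hn => hn.symm)

theorem norm_mk_le (u v : ℕ → ℝ) (hu : ∀ j, |u j| ≤ 1) (hv : ∀ j, |v j| ≤ 1)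
    (h : ∀ j k, |pr j k (u j) (v k)| ≤ 1) : ‖mk u v hu hv‖ ≤ 1 := by
  rw [BoundedContinuousFunction.norm_le zero_le_one]
  rintro ((j | k) | ⟨j, k⟩)
  · exact hu j
  · exact hv k
  · exact h j k

/-- The norming vector of the `m`-th coordinate of the first sequence. -/
theorem exists_x (m : ℕ) : ∃ x : S, ‖x‖ ≤ 1 ∧ U x.1 m = 1 := by
  have hu : ∀ j, |(if j = m then (1 : ℝ) else 0)| ≤ 1 := by
    intro j; split_ifs <;> simp
  have hv : ∀ k, |(if k < m then (-(1 / 2) : ℝ) else 0)| ≤ 1 := by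
    intro k; split_ifs <;> norm_num
  refine ⟨⟨mk (fun j => if j = m then (1 : ℝ) else 0) (fun k => if k < m then (-(1 / 2) : ℝ) else 0)
    hu hv, mk_mem _ _ _ _ ?_ ?_⟩, ?_, ?_⟩
  · filter_upwards [eventually_gt_atTop m] with n hn
    rw [if_neg (by omega)]
  · filter_upwards [eventually_gt_atTop m] with n hn
    rw [if_neg (by omega)]
  · refine norm_mk_le _ _ hu hv fun j k => ?_
    unfold pr
    split_ifs <;> first | omega | (rw [abs_le]; constructor <;> norm_num)
  · simp [U, mk]

/-- The norming vector of the `m`-th coordinate of the second sequence. -/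
theorem exists_y (m : ℕ) : ∃ y : S, ‖y‖ ≤ 1 ∧ V y.1 m = 1 := by
  have hv : ∀ j, |(if j = m then (1 : ℝ) else 0)| ≤ 1 := by
    intro j; split_ifs <;> simp
  have hu : ∀ k, |(if k ≤ m then (-(1 / 2) : ℝ) else 0)| ≤ 1 := by
    intro k; split_ifs <;> norm_num
  refine ⟨⟨mk (fun k => if k ≤ m then (-(1 / 2) : ℝ) else 0) (fun j => if j = m then (1 : ℝ) else 0)
    hu hv, mk_mem _ _ _ _ ?_ ?_⟩, ?_, ?_⟩
  · filter_upwards [eventually_gt_atTop m] with n hn
    rw [if_neg (by omega)]
  · filter_upwards [eventually_gt_atTop m] with n hn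
    rw [if_neg (by omega)]
  · refine norm_mk_le _ _ hu hv fun j k => ?_
    unfold pr
    split_ifs <;> first | omega | (rw [abs_le]; constructor <;> norm_num)
  · simp [V, mk]

/-- Every coordinate is bounded by the norm. -/
theorem abs_ev_le (w : S) (i : Idx) : |w.1 i| ≤ ‖w‖ := by
  have := BoundedContinuousFunction.norm_coe_le_norm w.1 i
  simpa using this

/-- The two convex bodies. -/
def C (i : Fin 2) : Set S := if i = 0 then {w | ∀ j, U w.1 j ≤ 2 / 5} else {w | ∀ k, V w.1 k ≤ 2 / 5}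

/-- Abstract inradius estimate: a set on which infinitely many norm-one functionals tending
pointwise to zero are bounded by `2/5` contains no ball of radius exceeding `2/5`. -/
theorem inradius_le {E : Type} [NormedAddCommGroup E] [NormedSpace ℝ E] (f : ℕ → E → ℝ)
    (hf : ∀ m (x y : E) (τ : ℝ), f m (x + τ • y) = f m x + τ * f m y)
    (h0 : ∀ w : E, Tendsto (fun n => f n w) atTop (𝓝 0))
    (hx : ∀ m, ∃ x : E, ‖x‖ ≤ 1 ∧ f m x = 1) (D : Set E) (hD : ∀ w ∈ D, ∀ m, f m w ≤ 2 / 5)
    (ρ : ℝ) (z : E) (hz : Metric.ball z ρ ⊆ D) : ρ ≤ 2 / 5 := by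
  by_contra hcon
  push Not at hcon
  set τ : ℝ := (ρ + 2 / 5) / 2 with hτ
  have hτ1 : 2 / 5 < τ := by rw [hτ]; linarith
  have hτ2 : τ < ρ := by rw [hτ]; linarith
  have h1 : ∀ m, f m z + τ ≤ 2 / 5 := by
    intro m
    obtain ⟨x, hx1, hx2⟩ := hx m
    have hmem : z + τ • x ∈ Metric.ball z ρ := by
      rw [mem_ball_iff_norm, add_sub_cancel_left, norm_smul, Real.norm_eq_abs,
        abs_of_pos (by linarith)]
      nlinarith
    have h2 := hD _ (hz hmem) m
    rw [hf, hx2, mul_one] at h2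
    exact h2
  have h5 : ¬ ((0 : ℝ) ≤ 2 / 5 - τ) := by intro h; linarith
  exact h5 (le_of_tendsto' (h0 z) fun m => by linarith [h1 m])

/-- The unit ball is covered by the two bodies. -/
theorem cover (w : S) (hw : ‖w‖ ≤ 1) : w ∈ C 0 ∨ w ∈ C 1 := by
  by_contra hcon
  push Not at hcon
  obtain ⟨h1, h2⟩ := hcon
  have h1' : ¬ ∀ j, U w.1 j ≤ 2 / 5 := h1
  have h2' : ¬ ∀ k, V w.1 k ≤ 2 / 5 := h2
  push Not at h1' h2'
  obtain ⟨j, hj⟩ := h1'
  obtain ⟨k, hk⟩ := h2'
  have h3 := (abs_le.1 ((abs_ev_le w (Sum.inr (j, k))).trans hw)).2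
  rw [w.2.1 j k] at h3
  unfold pr at h3
  split_ifs at h3 <;> linarith

theorem convex_C (i : Fin 2) : Convex ℝ (C i) := by
  intro x hx y hy a b ha hb hab
  have hU : ∀ j, U (a • x + b • y).1 j = a * U x.1 j + b * U y.1 j := fun j => rfl
  have hV : ∀ j, V (a • x + b • y).1 j = a * V x.1 j + b * V y.1 j := fun j => rfl
  fin_cases i
  · change ∀ j, U x.1 j ≤ 2 / 5 at hx
    change ∀ j, U y.1 j ≤ 2 / 5 at hy
    change ∀ j, U (a • x + b • y).1 j ≤ 2 / 5
    intro j
    rw [hU]
    nlinarith [hx j, hy j, mul_le_mul_of_nonneg_left (hx j) ha, mul_le_mul_of_nonneg_left (hy j) hb]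
  · change ∀ j, V x.1 j ≤ 2 / 5 at hx
    change ∀ j, V y.1 j ≤ 2 / 5 at hy
    change ∀ j, V (a • x + b • y).1 j ≤ 2 / 5
    intro j
    rw [hV]
    nlinarith [hx j, hy j, mul_le_mul_of_nonneg_left (hx j) ha, mul_le_mul_of_nonneg_left (hy j) hb]

theorem isClosed_C (i : Fin 2) : IsClosed (C i) := by
  fin_cases i
  · have h : C 0 = ⋂ j, {w : S | U w.1 j ≤ 2 / 5} := by
      ext w; simp only [Set.mem_iInter]; rfl
    change IsClosed (C 0)
    rw [h]
    exact isClosed_iInter fun j => isClosed_le ((continuous_U j).comp continuous_subtype_val)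
      continuous_const
  · have h : C 1 = ⋂ j, {w : S | V w.1 j ≤ 2 / 5} := by
      ext w; simp only [Set.mem_iInter]; rfl
    change IsClosed (C 1)
    rw [h]
    exact isClosed_iInter fun j => isClosed_le ((continuous_V j).comp continuous_subtype_val)
      continuous_const

theorem ball_subset_C (i : Fin 2) (w : S) (hw : ‖w‖ < 2 / 5) : w ∈ C i := by
  fin_cases i
  · change ∀ j, U w.1 j ≤ 2 / 5
    intro j
    exact (le_abs_self _).trans ((abs_ev_le w _).trans hw.le)
  · change ∀ j, V w.1 j ≤ 2 / 5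
    intro j
    exact (le_abs_self _).trans ((abs_ev_le w _).trans hw.le)

theorem interior_C (i : Fin 2) : (interior (C i)).Nonempty := by
  refine ⟨0, ?_⟩
  rw [mem_interior_iff_mem_nhds, Metric.mem_nhds_iff]
  refine ⟨2 / 5, by norm_num, fun w hw => ball_subset_C i w ?_⟩
  have h : dist w 0 < 2 / 5 := hw
  exact lt_of_eq_of_lt (dist_zero_right w).symm h

noncomputable instance instNontrivial : Nontrivial S := by
  obtain ⟨x, _, hx⟩ := exists_x 0
  refine ⟨⟨x, 0, fun h => ?_⟩⟩
  rw [h] at hx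
  have h0 : U (0 : S).1 0 = 0 := rfl
  rw [h0] at hx
  norm_num at hx

/-- The negation of the preceding statement: In every nontrivial real Banach space, if a closed ball of radius R>0 is covered by finitely many closed convex sets with nonempty interior, then the inradii of their intersections with the ball sum to at least R. -/
theorem result :
    ¬ (∀ (E : Type) [NormedAddCommGroup E] [NormedSpace ℝ E] [CompleteSpace E] [Nontrivial E]
      (c : E) (R : ℝ), 0 < R →
      ∀ (n : ℕ) (C : Fin n → Set E),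
        (∀ i, Convex ℝ (C i) ∧ IsClosed (C i) ∧ (interior (C i)).Nonempty) →
        Metric.closedBall c R ⊆ ⋃ i, C i →
        R ≤ ∑ i, sSup {ρ : ℝ | 0 ≤ ρ ∧ ∃ x : E, Metric.ball x ρ ⊆ C i ∩ Metric.closedBall c R}) := by
  intro H
  have h := H S (0 : S) 1 one_pos 2 C (fun i => ⟨convex_C i, isClosed_C i, interior_C i⟩) (by
    intro w hw
    have hd : dist w (0 : S) ≤ 1 := hw
    rcases cover w (le_of_eq_of_le (dist_zero_right w).symm hd) with h | h
    · exact Set.mem_iUnion.2 ⟨0, h⟩
    · exact Set.mem_iUnion.2 ⟨1, h⟩)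
  have key : ∀ i : Fin 2, sSup {ρ : ℝ | 0 ≤ ρ ∧ ∃ x : S,
      Metric.ball x ρ ⊆ C i ∩ Metric.closedBall (0 : S) 1} ≤ 2 / 5 := by
    intro i
    refine csSup_le ⟨0, le_rfl, 0, by simp⟩ ?_
    rintro ρ ⟨hρ, z, hz⟩
    fin_cases i
    · exact inradius_le (fun m (w : S) => U w.1 m) (fun m x y τ => rfl) (fun w => w.2.2.1)
        exists_x (C 0) (fun w hw => hw) ρ z (hz.trans Set.inter_subset_left)
    · exact inradius_le (fun m (w : S) => V w.1 m) (fun m x y τ => rfl) (fun w => w.2.2.2)
        exists_y (C 1) (fun w hw => hw) ρ z (hz.trans Set.inter_subset_left)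
  rw [Fin.sum_univ_two] at h
  linarith [key 0, key 1]

end Pool.Agent.S04732
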