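import Pool.Statements.S04943
import Pool.Agent.H28Dyadic.Final

set_option autoImplicit false
open MeasureTheory
open Pool Pool.MP_6b2635_an

namespace Pool.Agent.S04943

/-- There is one constant C such that in every dimension n, taking sup over k of averages of ∣f∣ on the translated ball of volume 2^{kn}, the set where this exceeds t > 0 has measure at most C times the L1 norm of f divided by t. -/
theorem result :
    ∃ C : ℝ, 0 < C ∧ ∀ n : ℕ, 1 ≤ n → ∀ r : ℝ, 0 < r →
      volume (Metric.ball (0 : EuclideanSpace ℝ (Fin n)) r) = 1 →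
      ∀ f : EuclideanSpace ℝ (Fin n) → ℝ, Integrable f →
      ∀ t : ℝ, 0 < t →
        volume {x : EuclideanSpace ℝ (Fin n) |
          ENNReal.ofReal t <
            ⨆ k : ℤ, (volume (Metric.ball (0 : EuclideanSpace ℝ (Fin n)) ((2 : ℝ) ^ k * r)))⁻¹ *
              ∫⁻ y in Metric.ball (0 : EuclideanSpace ℝ (Fin n)) ((2 : ℝ) ^ k * r), ‖f (x + y)‖ₑ}
          ≤ ENNReal.ofReal (C / t) * ∫⁻ x, ‖f x‖ₑ := by
  obtain ⟨C, hC, h⟩ := H28D.final
  exact ⟨C, hC, fun n hn r hr _ f hf t ht => h n hn r hr f hf t ht⟩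

end Pool.Agent.S04943
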