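import Pool.Statements.S05625
import Pool.Agent.Lib.Helper35.Final
-- import your own Pool.Agent.* helpers here

set_option autoImplicit false
open Pool Pool.MP_a16150_an

namespace Pool.Agent.S05625

/-- For every base r ≥ 2 there is a real x, normal in base r, whose reciprocal 1/x is deterministic in base r: the entropy of its empirical n-digit-block distributions, per digit, can be made eventually below any ε > 0. -/
theorem result :
    ∀ r : ℕ, 2 ≤ r → ∃ x : ℝ,
      (∀ k : ℕ, 1 ≤ k → ∀ w : Fin k → Fin r,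
        Filter.Tendsto
          (fun N : ℕ =>
            ((((Finset.range N).filter
                (fun i => ∀ j : Fin k,
                  ⌊x * (r : ℝ) ^ (i + (j : ℕ) + 1)⌋ % (r : ℤ) = ((w j : ℕ) : ℤ))).card : ℝ)
              / (N : ℝ)))
          Filter.atTop (nhds (1 / (r : ℝ) ^ k))) ∧
      (∀ ε : ℝ, 0 < ε → ∃ n : ℕ, 1 ≤ n ∧ ∃ N0 : ℕ, ∀ N : ℕ, N0 ≤ N →
        ∑ w : Fin n → Fin r,
          Real.negMulLog
            ((((Finset.range N).filter
                (fun i => ∀ j : Fin n,
                  ⌊x⁻¹ * (r : ℝ) ^ (i + (j : ℕ) + 1)⌋ % (r : ℤ) = ((w j : ℕ) : ℤ))).card : ℝ)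
              / (N : ℝ)) < ε * n) := by
  intro r hr
  exact Pool.Agent.Lib.Helper35.main_exists r hr

end Pool.Agent.S05625
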