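import Pool.Statements.S05839
import Pool.Agent.Lib.H27.Geom5
import Pool.Agent.Lib.H27.ModF3

set_option autoImplicit false
open Pool Pool.MP_b0512f_an

namespace Pool.Agent.S05839

/-- For every subgroup of SL(2,R) acting properly discontinuously on the upper half-plane, there is a nonconstant meromorphic function on it, invariant under the group, with Im z times its spherical derivative bounded. -/
theorem result :
    ∀ Γ : Subgroup (Matrix.SpecialLinearGroup (Fin 2) ℝ),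
      (∀ K : Set UpperHalfPlane, IsCompact K →
        {g : Matrix.SpecialLinearGroup (Fin 2) ℝ | g ∈ Γ ∧ ∃ z ∈ K, g • z ∈ K}.Finite) →
      ∃ f : ℂ → ℂ, MeromorphicOn f {z : ℂ | 0 < z.im} ∧
        (∃ z w : UpperHalfPlane, AnalyticAt ℂ f (z : ℂ) ∧ AnalyticAt ℂ f (w : ℂ) ∧
          f (z : ℂ) ≠ f (w : ℂ)) ∧
        (∀ g ∈ Γ, ∀ z : UpperHalfPlane, AnalyticAt ℂ f (z : ℂ) →
          AnalyticAt ℂ f ((g • z : UpperHalfPlane) : ℂ) →
          f ((g • z : UpperHalfPlane) : ℂ) = f (z : ℂ)) ∧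
        ∃ M : ℝ, ∀ z : UpperHalfPlane, AnalyticAt ℂ f (z : ℂ) →
          z.im * ‖deriv f (z : ℂ)‖ / (1 + ‖f (z : ℂ)‖ ^ 2) ≤ M := by
  intro Γ hΓ
  obtain ⟨d⟩ := Pool.Agent.Lib.H27.exists_data Γ hΓ
  exact Pool.Agent.Lib.H27.normal_of_data d

end Pool.Agent.S05839
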