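import Pool.Statements.S05971
import Pool.Agent.Lib.H38.BdfKey

set_option autoImplicit false
open Pool Pool.MP_bdf9ed_an

namespace Pool.Agent.S05971

/-- Every Borel set A of nonnegative reals containing 0 equals, for some Borel set B of reals, the set of all α ≥ 0 such that each point of B has a point of B at distance exactly α. -/
theorem result :
    ∀ A : Set ℝ, MeasurableSet A → (0 : ℝ) ∈ A → A ⊆ Set.Ici (0 : ℝ) →
      ∃ B : Set ℝ, MeasurableSet B ∧
        {α : ℝ | 0 ≤ α ∧ ∀ x ∈ B, ∃ y ∈ B, |x - y| = α} = A := by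
  intro A hAm h0 hA
  exact Pool.Agent.Lib.H38.Bdf.borel_center A hAm h0 hA

end Pool.Agent.S05971
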