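import Pool.Statements.S07755
import Pool.Agent.Lib.Helper20.Simplicial

set_option autoImplicit false
open Matrix
open Pool Pool.MP_284e51_co

namespace Pool.Agent.S07755

/-- For every finite simplicial complex and every k ≥ 1, any constant bounding the squared stretch of the boundary map ∂_k also bounds that of ∂_{k+1}; that is, the largest singular value of ∂_{k+1} is at most that of ∂_k. -/
theorem result :
    ∀ (n : ℕ) (K : Finset (Finset (Fin n))),
      (∀ s ∈ K, ∀ t : Finset (Fin n), t ⊆ s → t.Nonempty → t ∈ K) →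
      ∀ D : ℕ → Matrix (Finset (Fin n)) (Finset (Fin n)) ℝ,
        (∀ (m : ℕ) (t s : Finset (Fin n)),
          D m t s =
            if s ∈ K ∧ s.card = m then
              ∑ v ∈ s, (if t = s.erase v then
                (-1 : ℝ) ^ (Finset.filter (fun w => w < v) s).card else 0)
            else 0) →
        ∀ k : ℕ, 1 ≤ k →
          ∀ c : ℝ,
            (∀ y : Finset (Fin n) → ℝ,
              (D (k + 1) *ᵥ y) ⬝ᵥ (D (k + 1) *ᵥ y) ≤ c * (y ⬝ᵥ y)) →
            ∀ x : Finset (Fin n) → ℝ,
              (D (k + 2) *ᵥ x) ⬝ᵥ (D (k + 2) *ᵥ x) ≤ c * (x ⬝ᵥ x) := by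
  intro n K hK D hD k _ c hc x
  exact Pool.Agent.Lib.Helper20.Simplicial.main n K hK D hD k c hc x

end Pool.Agent.S07755
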