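import Pool.Statements.S08001
import Pool.Agent.Lib.Helper9.ZiminWord

set_option autoImplicit false
open Pool Pool.MP_32f4b2_co

namespace Pool.Agent.S08001

lemma flatten_map_flatMap {α β : Type*} (h : α → List β) (L : List (List α)) :
    (L.map (fun l => l.flatMap h)).flatten = L.flatten.flatMap h := by
  induction L with
  | nil => simp
  | cons l L ih => simp [List.flatMap_append, ih]

/-- For every pattern p with n distinct variables: some infinite word over a finite alphabet has no factor that is an abelian instance of p if and only if the Zimin word Z_n has no factor that is an abelian instance of p. -/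
theorem result :
    ∀ p : List ℕ,
      (∃ k : ℕ, ∃ x : ℕ → Fin k, ∀ i m : ℕ,
        ¬ ∃ f : Fin p.length → List (Fin k),
            (∀ t, f t ≠ []) ∧
            (List.ofFn f).flatten = (List.range m).map (fun t => x (i + t)) ∧
            ∀ a b : Fin p.length, p.get a = p.get b → (f a).Perm (f b))
      ↔
      ¬ ∃ w : List ℕ,
          w <:+: (Nat.rec (motive := fun _ => List ℕ) []
                    (fun j z => z ++ [j + 1] ++ z) p.toFinset.card) ∧
          ∃ f : Fin p.length → List ℕ,
            (∀ t, f t ≠ []) ∧
            (List.ofFn f).flatten = w ∧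
            ∀ a b : Fin p.length, p.get a = p.get b → (f a).Perm (f b) := by
  intro p
  constructor
  · rintro ⟨k, x, hav⟩ ⟨w, hw, f, hne, hflat, hperm⟩
    obtain ⟨N, hN⟩ := Pool.Agent.Lib.Helper9.Zimin.zimin_unavoidable (α := Fin k) p.toFinset.card
    obtain ⟨h, hh, s, L, -, hZ⟩ := hN x
    obtain ⟨a, b, hab⟩ := hw
    have hab' : a ++ w ++ b = Pool.Agent.Lib.Helper9.Zimin.Z p.toFinset.card := hab
    rw [← hab', List.flatMap_append, List.flatMap_append] at hZ
    have hlen : (a.flatMap h).length + (w.flatMap h).length + (b.flatMap h).length = L := by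
      have := congrArg List.length hZ
      simp only [List.length_append, List.length_map, List.length_range] at this
      omega
    have hw' : w.flatMap h = (List.range (w.flatMap h).length).map
        (fun t => x (s + (a.flatMap h).length + t)) := by
      have h1 := congrArg (fun l => (l.drop (a.flatMap h).length).take (w.flatMap h).length) hZ
      simp only [List.append_assoc] at h1
      rw [List.drop_left' rfl, List.take_left' rfl] at h1
      rw [h1]
      apply List.ext_getElem
      · simp only [List.length_map, List.length_range, List.length_take, List.length_drop]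
      · intro n h2 h3
        simp [add_assoc]
    apply hav (s + (a.flatMap h).length) (w.flatMap h).length
    refine ⟨fun t => (f t).flatMap h, ?_, ?_, ?_⟩
    · intro t
      obtain ⟨y, hy⟩ := List.exists_mem_of_ne_nil _ (hne t)
      obtain ⟨z, hz⟩ := List.exists_mem_of_ne_nil _ (hh y)
      exact List.ne_nil_of_mem (List.mem_flatMap.mpr ⟨y, hy, hz⟩)
    · rw [← hw', ← hflat, ← flatten_map_flatMap, List.map_ofFn]
      rfl
    · intro a b hab
      exact (hperm a b hab).flatMap_right h
  · intro hnot
    obtain ⟨K, B, lo, hK, h00, hlo1, hlomono, hloK, hnd, hcol⟩ :=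
      Pool.Agent.Lib.Helper9.Zimin.exists_matrix (p.length + 2)
    have hKpos : 0 < K := by omega
    refine ⟨K, Pool.Agent.Lib.Helper9.Zimin.word K B hKpos, ?_⟩
    rintro i m ⟨f, hne, hflat, hperm⟩
    obtain ⟨S, hS, hpS⟩ := Pool.Agent.Lib.Helper9.Zimin.reach_of_encounter hK h00 hcol p lo hlo1
      hlomono hloK hnd hKpos i m f hne hflat hperm
    apply hnot
    apply Pool.Agent.Lib.Helper9.Zimin.encounter_of_reach p S hS hpS
    intro y hy
    have := Pool.Agent.Lib.Helper9.Zimin.reach_subset hS hy
    rw [Finset.mem_image] at this
    obtain ⟨i, hi, rfl⟩ := this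
    rw [Finset.mem_range] at hi
    simp [hi]

end Pool.Agent.S08001
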