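import Pool.Statements.S08079
import Pool.Agent.Lib.H38H.AS
import Pool.Agent.Lib.H38H.CLJ5
import Pool.Agent.Lib.H38H.VO.Main
import Pool.Agent.Lib.H38H.BR.B22
import Pool.Agent.Lib.H38H.AU.Main
import Pool.Agent.Lib.H38H.IN.F5
import Pool.Agent.Lib.H38H.L15
import Pool.Agent.Lib.H38H.Q.Q25

set_option autoImplicit false
open Pool Pool.MP_35f824_co

namespace Pool.Agent.S08079

/-- Among connected non-Hamiltonian cubic graphs on 2n vertices, counted up to isomorphism, the fraction that have a bridge tends to 1 as n tends to infinity. -/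
theorem result :
    Filter.Tendsto
      (fun n : ℕ =>
        (Nat.card (Quot (fun G H : {G : SimpleGraph (Fin (2 * n)) //
              G.Connected ∧ (∀ v, (G.neighborSet v).ncard = 3) ∧ ¬ G.IsHamiltonian ∧
                ∃ e, G.IsBridge e} =>
              Nonempty (SimpleGraph.Iso G.1 H.1))) : ℝ) /
        (Nat.card (Quot (fun G H : {G : SimpleGraph (Fin (2 * n)) //
              G.Connected ∧ (∀ v, (G.neighborSet v).ncard = 3) ∧ ¬ G.IsHamiltonian} =>
              Nonempty (SimpleGraph.Iso G.1 H.1))) : ℝ))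
      Filter.atTop (nhds 1) := by
  have h0 : Pool.Agent.H38H.SlotTheorem := Pool.Agent.H38H.slotTheorem_of Pool.Agent.H38H.phase2
  have h1 : Pool.Agent.H38H.PropP := Pool.Agent.H38H.IN.propP_of' h0
  have h2 : Pool.Agent.H38H.TheoremH := Pool.Agent.H38H.VO.theoremH_of_VO h1
  exact Pool.Agent.H38H.top_of (Pool.Agent.H38H.CL.fewBad_of h2 Pool.Agent.H38H.firstMoment)
    (Pool.Agent.H38H.manyBridged_of Pool.Agent.H38H.firstMoment) Pool.Agent.H38H.fewAut
    Pool.Agent.H38H.firstMomentAut Pool.Agent.H38H.fewSmallAut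

end Pool.Agent.S08079
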