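import Pool.Statements.S08775
import Pool.Agent.Lib.Ehrhart.Final

set_option autoImplicit false
open MeasureTheory
open Pool Pool.MP_53c0b7_co

namespace Pool.Agent.S08775

/-- For every convex body K in ℝⁿ whose only interior lattice point is 0, vol K ≤ (n+1)ⁿ/(n!·R(K)ⁿ), where R(K) is the barycenter ratio invariant. Equality holds iff some integer unimodular affine map sends K onto (n+1) times the standard simplex. -/
theorem result :
  ∀ n : ℕ, 1 ≤ n → ∀ K : Set (Fin n → ℝ),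
    IsCompact K → Convex ℝ K → (interior K).Nonempty →
    (0 : Fin n → ℝ) ∈ interior K →
    (∀ x ∈ interior K, (∀ i, ∃ z : ℤ, x i = (z : ℝ)) → x = 0) →
    ∀ b : Fin n → ℝ, b = (volume K).toReal⁻¹ • (∫ x in K, x) →
    ∀ R : ℝ, (b = 0 → R = 1) →
      (∀ t : ℝ, 0 ≤ t → b ≠ 0 → b - t • b ∈ frontier K →
        R = dist (b - t • b) 0 / dist (b - t • b) b) →
      (volume K).toReal ≤ ((n : ℝ) + 1) ^ n / ((n.factorial : ℝ) * R ^ n) ∧
      ((volume K).toReal = ((n : ℝ) + 1) ^ n / ((n.factorial : ℝ) * R ^ n) ↔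
        ∃ A : Matrix (Fin n) (Fin n) ℤ, ∃ v : Fin n → ℤ, IsUnit A.det ∧
          (fun x : Fin n → ℝ => fun i => ∑ j, (A i j : ℝ) * x j + (v i : ℝ)) '' K =
            {y : Fin n → ℝ | (∀ i, 0 ≤ y i) ∧ ∑ i, y i ≤ (n : ℝ) + 1}) := by
  intro n hn K hK hKc _ h0 hlat b hb R hR0 hR1
  exact Pool.Agent.Lib.Ehrhart.main hn hK hKc h0 hlat hb hR0 hR1

end Pool.Agent.S08775
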