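import Pool.Statements.S08881
import Pool.Agent.Lib.Helper6.MinRank.Lex

set_option autoImplicit false
open Pool Pool.MP_5893b4_co

namespace Pool.Agent.S08881

section Aux

open Pool.Agent.Lib.Helper6.MinRank

variable {F : Type} [Field F] {m n : ℕ}

/-- Minimal completion rank of the part of `a` on the positions `T`. -/
noncomputable def mr (a : Matrix (Fin m) (Fin n) F) (T : Set (Fin m × Fin n)) : ℕ :=
  sInf {k : ℕ | ∃ B : Matrix (Fin m) (Fin n) F, (∀ p ∈ T, B p.1 p.2 = a p.1 p.2) ∧ B.rank = k}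

/-- Triangular patterns. -/
def Tri (S : Set (Fin m × Fin n)) : Prop :=
  ∀ p ∈ S, ∀ q ∈ S, (p.1, q.2) ∈ S ∨ (q.1, p.2) ∈ S

lemma mr_spec (a : Matrix (Fin m) (Fin n) F) (T : Set (Fin m × Fin n)) :
    ∃ B : Matrix (Fin m) (Fin n) F, (∀ p ∈ T, B p.1 p.2 = a p.1 p.2) ∧ B.rank = mr a T := by
  have hne : {k : ℕ | ∃ B : Matrix (Fin m) (Fin n) F,
      (∀ p ∈ T, B p.1 p.2 = a p.1 p.2) ∧ B.rank = k}.Nonempty :=
    ⟨a.rank, a, fun _ _ => rfl, rfl⟩
  exact Nat.sInf_mem hne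

lemma mr_le (a : Matrix (Fin m) (Fin n) F) (T : Set (Fin m × Fin n))
    (B : Matrix (Fin m) (Fin n) F) (hB : ∀ p ∈ T, B p.1 p.2 = a p.1 p.2) : mr a T ≤ B.rank :=
  Nat.sInf_le ⟨B, hB, rfl⟩

lemma mr_mono (a : Matrix (Fin m) (Fin n) F) {T T' : Set (Fin m × Fin n)} (h : T ⊆ T') :
    mr a T ≤ mr a T' := by
  obtain ⟨B, hB, hr⟩ := mr_spec a T'
  rw [← hr]
  exact mr_le a T B (fun p hp => hB p (h hp))

/-- The values used in the initial potential. -/
def vals (a : Matrix (Fin m) (Fin n) F) (J : Set (Fin m × Fin n)) (D : Set (Fin n)) : Set ℕ :=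
  {r | ∃ T : Set (Fin m × Fin n), T ⊆ J ∧ Tri T ∧ (∀ p ∈ T, p.2 ∈ D) ∧ r = mr a T}

lemma vals_nonempty (a : Matrix (Fin m) (Fin n) F) (J : Set (Fin m × Fin n)) (D : Set (Fin n)) :
    (vals a J D).Nonempty :=
  ⟨mr a ∅, ∅, Set.empty_subset _, fun _ h => absurd h (Set.notMem_empty _),
    fun _ h => absurd h (Set.notMem_empty _), rfl⟩

lemma vals_bdd (a : Matrix (Fin m) (Fin n) F) (J : Set (Fin m × Fin n)) (D : Set (Fin n)) :
    BddAbove (vals a J D) := by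
  refine ⟨mr a J, ?_⟩
  rintro _ ⟨T, hT, -, -, rfl⟩
  exact mr_mono a hT

/-- The initial potential. -/
noncomputable def phi (a : Matrix (Fin m) (Fin n) F) (J : Set (Fin m × Fin n))
    (D : Set (Fin n)) : ℤ := ((sSup (vals a J D) : ℕ) : ℤ)

lemma phi_pot (a : Matrix (Fin m) (Fin n) F) (J : Set (Fin m × Fin n)) :
    Pot J (fun i j => a i j) (phi a J) := by
  intro D' D hD
  obtain ⟨T', hT'J, hT'tri, hT'D, hT'⟩ := Nat.sSup_mem (vals_nonempty a J D') (vals_bdd a J D')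
  set T : Set (Fin m × Fin n) := T' ∪ {p | p.1 ∈ RJ J D ∧ p.2 ∈ D} with hT
  have hTJ : T ⊆ J := by
    rintro p (hp | ⟨hp1, hp2⟩)
    · exact hT'J hp
    · exact hp1 p.2 hp2
  have hTtri : Tri T := by
    rintro p (hp | ⟨hp1, hp2⟩) q (hq | ⟨hq1, hq2⟩)
    · rcases hT'tri p hp q hq with h | h
      · exact Or.inl (Or.inl h)
      · exact Or.inr (Or.inl h)
    · exact Or.inr (Or.inr ⟨hq1, hD (hT'D p hp)⟩)
    · exact Or.inl (Or.inr ⟨hp1, hD (hT'D q hq)⟩)
    · exact Or.inl (Or.inr ⟨hp1, hq2⟩)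
  have hTD : ∀ p ∈ T, p.2 ∈ D := by
    rintro p (hp | ⟨-, hp2⟩)
    · exact hD (hT'D p hp)
    · exact hp2
  have h1 : mr a T ≤ sSup (vals a J D) :=
    le_csSup (vals_bdd a J D) ⟨T, hTJ, hTtri, hTD, rfl⟩
  obtain ⟨B, hB, hBr⟩ := mr_spec a T
  let B' : Fin m → Fin n → F := fun i j => B i j
  -- the part of `B` on the columns in `D'`
  have h2 : mr a T' ≤ rk B' Set.univ D' := by
    rw [rk_eq_rank]
    apply mr_le
    intro p hp
    rw [← hB p (Or.inl hp)]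
    simp [mask, B', hT'D p hp]
  have h3 : rk B' Set.univ D ≤ mr a T := by
    have e1 := rk_mono_col B' Set.univ (Set.subset_univ D)
    have e2 : rk B' Set.univ Set.univ = B.rank := rk_univ B'
    omega
  have h4 : rk B' (RJ J D) D = rk (fun i j => a i j) (RJ J D) D :=
    rk_congr (fun i hi d hd => hB (i, d) (Or.inr ⟨hi, hd⟩))
  have h5 : rk B' (RJ J D) D' = rk (fun i j => a i j) (RJ J D) D' :=
    rk_congr (fun i hi d hd => hB (i, d) (Or.inr ⟨hi, hD hd⟩))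
  have h6 := rk_super B' (Set.subset_univ (RJ J D)) hD
  unfold phi
  omega

theorem mr_le_tmr (J : Set (Fin m × Fin n)) (a : Matrix (Fin m) (Fin n) F) (hJ : NoCyc J) :
    mr a J ≤ sSup (vals a J Set.univ) := by
  obtain ⟨p, q, hp, hq, hR, hC⟩ := exists_lex J
  have hGF := lex_GF hR hC hJ
  obtain ⟨B, hB1, hB2⟩ := exists_completion _ J (fun i j => a i j) (phi a J) p q hp hq hGF
    (phi_pot a J) rfl
  have h1 : mr a J ≤ (Matrix.of B).rank := mr_le a J (Matrix.of B) (fun e he => hB1 e.1 e.2 he)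
  have h2 : rk B Set.univ Set.univ = (Matrix.of B).rank := rk_univ B
  have h3 : (0 : ℤ) ≤ phi a J ∅ := by unfold phi; omega
  have h4 : phi a J Set.univ = ((sSup (vals a J Set.univ) : ℕ) : ℤ) := rfl
  omega

end Aux


/-- For every field and partial matrix whose row–column bipartite graph has a chord in every cycle of length at least 6, the max over maximal triangular subpatterns of their minimal completion rank equals the minimal completion rank. -/
theorem result :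
    ∀ (F : Type) [Field F] (m n : ℕ) (J : Set (Fin m × Fin n))
      (a : Matrix (Fin m) (Fin n) F) (G : SimpleGraph (Fin m ⊕ Fin n)),
      G = SimpleGraph.fromRel (fun x y : Fin m ⊕ Fin n =>
            ∃ i j, x = Sum.inl i ∧ y = Sum.inr j ∧ (i, j) ∈ J) →
      (∀ (u : Fin m ⊕ Fin n) (c : G.Walk u u), c.IsCycle → 6 ≤ c.length →
        ∃ i j : ℕ, i + 1 < j ∧ j < c.length ∧ ¬ (i = 0 ∧ j + 1 = c.length) ∧
          G.Adj (c.getVert i) (c.getVert j)) →
      sSup {r : ℕ | ∃ T : Set (Fin m × Fin n),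
          Maximal (fun S : Set (Fin m × Fin n) =>
              S ⊆ J ∧ ∀ p ∈ S, ∀ q ∈ S, (p.1, q.2) ∈ S ∨ (q.1, p.2) ∈ S) T ∧
          r = sInf {k : ℕ | ∃ B : Matrix (Fin m) (Fin n) F,
                (∀ p ∈ T, B p.1 p.2 = a p.1 p.2) ∧ B.rank = k}}
        = sInf {k : ℕ | ∃ B : Matrix (Fin m) (Fin n) F,
                (∀ p ∈ J, B p.1 p.2 = a p.1 p.2) ∧ B.rank = k} := by
  intro F _ m n J a G hG hchord
  -- the graph is the bipartite graph of `J`
  have hG1 : ∀ x y, G.Adj (Sum.inl x) (Sum.inr y) ↔ (x, y) ∈ J := by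
    intro x y
    rw [hG, SimpleGraph.fromRel_adj]
    constructor
    · rintro ⟨-, ⟨i, j, h1, h2, h3⟩ | ⟨i, j, h1, h2, h3⟩⟩
      · rw [Sum.inl.injEq] at h1
        rw [Sum.inr.injEq] at h2
        rw [h1, h2]
        exact h3
      · exact absurd h1 (by simp)
    · intro h
      exact ⟨by simp, Or.inl ⟨x, y, rfl, rfl, h⟩⟩
  have hG2 : ∀ x x', ¬ G.Adj (Sum.inl x) (Sum.inl x') := by
    intro x x'
    rw [hG, SimpleGraph.fromRel_adj]
    rintro ⟨-, ⟨i, j, h1, h2, h3⟩ | ⟨i, j, h1, h2, h3⟩⟩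
    · exact absurd h2 (by simp)
    · exact absurd h2 (by simp)
  have hG3 : ∀ y y', ¬ G.Adj (Sum.inr y) (Sum.inr y') := by
    intro y y'
    rw [hG, SimpleGraph.fromRel_adj]
    rintro ⟨-, ⟨i, j, h1, h2, h3⟩ | ⟨i, j, h1, h2, h3⟩⟩
    · exact absurd h1 (by simp)
    · exact absurd h1 (by simp)
  have hNoCyc := Pool.Agent.Lib.Helper6.MinRank.noCyc_of_chordal G hG1 hG2 hG3 hchord
  have hmain := mr_le_tmr J a hNoCyc
  show sSup {r : ℕ | ∃ T : Set (Fin m × Fin n),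
      Maximal (fun S : Set (Fin m × Fin n) => S ⊆ J ∧ Tri S) T ∧ r = mr a T} = mr a J
  have hbdd : BddAbove {r : ℕ | ∃ T : Set (Fin m × Fin n),
      Maximal (fun S : Set (Fin m × Fin n) => S ⊆ J ∧ Tri S) T ∧ r = mr a T} := by
    refine ⟨mr a J, ?_⟩
    rintro _ ⟨T, hT, rfl⟩
    exact mr_mono a hT.prop.1
  have hext : ∀ T : Set (Fin m × Fin n), T ⊆ J → Tri T → ∃ T' : Set (Fin m × Fin n),
      Maximal (fun S : Set (Fin m × Fin n) => S ⊆ J ∧ Tri S) T' ∧ T ⊆ T' := by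
    intro T hT1 hT2
    obtain ⟨T', h1, h2⟩ := (Set.toFinite {S : Set (Fin m × Fin n) | S ⊆ J ∧ Tri S}).exists_le_maximal
      (show T ∈ {S : Set (Fin m × Fin n) | S ⊆ J ∧ Tri S} from ⟨hT1, hT2⟩)
    exact ⟨T', h2, h1⟩
  have hne : {r : ℕ | ∃ T : Set (Fin m × Fin n),
      Maximal (fun S : Set (Fin m × Fin n) => S ⊆ J ∧ Tri S) T ∧ r = mr a T}.Nonempty := by
    obtain ⟨T', h1, -⟩ := hext ∅ (Set.empty_subset _) (fun _ h => absurd h (Set.notMem_empty _))
    exact ⟨mr a T', T', h1, rfl⟩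
  apply le_antisymm
  · apply csSup_le hne
    rintro _ ⟨T, hT, rfl⟩
    exact mr_mono a hT.prop.1
  · refine hmain.trans ?_
    apply csSup_le (vals_nonempty a J Set.univ)
    rintro _ ⟨T, hT1, hT2, -, rfl⟩
    obtain ⟨T', h1, h2⟩ := hext T hT1 hT2
    exact (mr_mono a h2).trans (le_csSup hbdd ⟨T', h1, rfl⟩)

end Pool.Agent.S08881
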