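import Pool.Statements.S10468
import Mathlib

set_option autoImplicit false
open Pool Pool.MP_a08742_co

namespace Pool.Agent.S10468

/-- The word whose `i`-th letter is the `i`-th digit of `x` in base five. -/
def word (x : ℕ) : Fin 5 → Fin 5 := fun i => ⟨x / 5 ^ (i : ℕ) % 5, Nat.mod_lt _ (by norm_num)⟩

/-- Codes (in base five) of the 51 words: the word 11111 and ten orbits of the cyclic shift. -/
def codes : List ℕ := [71, 141, 249, 263, 304, 327, 355, 401, 512, 598, 639, 653, 705, 781, 813, 941, 1064, 1212, 1245, 1315, 1352, 1492, 1520, 1548, 1581, 1599, 1608, 1635, 1657, 1747, 1775, 1792, 1927, 1994, 2005, 2037, 2184, 2196, 2454, 2487, 2549, 2560, 2627, 2712, 2819, 2898, 2936, 2990, 3009, 3063, 3101]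

/-- In some coordinate the two words differ by two or three modulo five. -/
def far (x y : ℕ) : Bool := (List.range 5).any fun i =>
  (x / 5 ^ i % 5 + 5 - y / 5 ^ i % 5) % 5 == 2 || (x / 5 ^ i % 5 + 5 - y / 5 ^ i % 5) % 5 == 3

lemma codes_far : ∀ x ∈ codes, ∀ y ∈ codes, x = y ∨ far x y = true := by decide +kernel

lemma codes_card : codes.toFinset.card = 51 := by decide +kernel

lemma digit_far : ∀ a b : Fin 5, ((a.val + 5 - b.val) % 5 = 2 ∨ (a.val + 5 - b.val) % 5 = 3) →
    ¬ (a = b ∨ (SimpleGraph.cycleGraph 5).Adj a b) ∧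
      ¬ (b = a ∨ (SimpleGraph.cycleGraph 5).Adj b a) := by
  decide

lemma far_spec {x y : ℕ} (h : far x y = true) : ∃ i : Fin 5,
    ¬ (word x i = word y i ∨ (SimpleGraph.cycleGraph 5).Adj (word x i) (word y i)) ∧
    ¬ (word y i = word x i ∨ (SimpleGraph.cycleGraph 5).Adj (word y i) (word x i)) := by
  simp only [far, List.any_eq_true, List.mem_range, Bool.or_eq_true, beq_iff_eq] at h
  obtain ⟨i, hi, h⟩ := h
  exact ⟨⟨i, hi⟩, digit_far _ _ h⟩

lemma word_inj {x y : ℕ} (hx : x ∈ codes) (hy : y ∈ codes) (h : word x = word y) : x = y := by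
  rcases codes_far x hx y hy with h1 | h1
  · exact h1
  · obtain ⟨i, hi, -⟩ := far_spec h1
    exact absurd (Or.inl (congrFun h i)) hi

/-- The negation of the preceding statement: For every n ≥ 1, the independence number of the n-fold strong power of the 5-cycle equals 5^(n/2) when n is even and 2·5^((n−1)/2) when n is odd. -/
theorem result :
    ¬ (∀ n : ℕ, 1 ≤ n →
      (SimpleGraph.fromRel (fun x y : Fin n → Fin 5 =>
          ∀ i, x i = y i ∨ (SimpleGraph.cycleGraph 5).Adj (x i) (y i))).indepNum =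
        if Even n then 5 ^ (n / 2) else 2 * 5 ^ ((n - 1) / 2)) := by
  intro H
  have h5 := H 5 (by norm_num)
  rw [if_neg (by decide)] at h5
  set G := SimpleGraph.fromRel (fun x y : Fin 5 → Fin 5 =>
    ∀ i, x i = y i ∨ (SimpleGraph.cycleGraph 5).Adj (x i) (y i)) with hG
  have hind : G.IsIndepSet ((codes.toFinset.image word : Finset (Fin 5 → Fin 5)) : Set _) := by
    intro u hu v hv huv hadj
    simp only [Finset.coe_image, List.coe_toFinset, Set.mem_image, Set.mem_setOf_eq] at hu hv
    obtain ⟨x, hx, rfl⟩ := hu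
    obtain ⟨y, hy, rfl⟩ := hv
    have hxy : x ≠ y := fun h => huv (by rw [h])
    obtain ⟨i, h1, h2⟩ := far_spec ((codes_far x hx y hy).resolve_left hxy)
    rw [hG, SimpleGraph.fromRel_adj] at hadj
    rcases hadj.2 with h | h
    · exact h1 (h i)
    · exact h2 (h i)
  have hcard : (codes.toFinset.image word).card = 51 := by
    rw [Finset.card_image_of_injOn, codes_card]
    intro x hx y hy h
    simp only [List.coe_toFinset, Set.mem_setOf_eq] at hx hy
    exact word_inj hx hy h
  have hle := hind.card_le_indepNum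
  rw [hcard, h5] at hle
  norm_num at hle

end Pool.Agent.S10468
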