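import Pool.Statements.S10599
import Pool.Agent.Lib.Helper3.TypeF.Geom

set_option autoImplicit false
open Matrix
open Pool Pool.MP_a5e159_co

namespace Pool.Agent.S10599

/-- Every finite projective plane of order n with an abelian collineation group of order n(n-1) that fixes two points on a line and a second line through the first point, acting regularly on the remaining points and lines, is isomorphic to PG(2,K) for a finite field K. -/
theorem result :
  ∀ (P L : Type) [Fintype P] [Fintype L] [Membership P L] [Configuration.ProjectivePlane P L]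
    (G : Type) [CommGroup G] [Fintype G] (φ : G →* Equiv.Perm P) (ψ : G →* Equiv.Perm L)
    (a b : P) (l₀ l₁ : L),
    (∀ (g : G) (p : P) (l : L), p ∈ l ↔ (φ g) p ∈ (ψ g) l) →
    a ≠ b → a ∈ l₀ → b ∈ l₀ → a ∈ l₁ → l₁ ≠ l₀ →
    (∀ g : G, (φ g) a = a ∧ (φ g) b = b ∧ (ψ g) l₀ = l₀ ∧ (ψ g) l₁ = l₁) →
    Fintype.card G = Configuration.ProjectivePlane.order P L *
      (Configuration.ProjectivePlane.order P L - 1) →
    (∀ p q : P, p ∉ l₀ → p ∉ l₁ → q ∉ l₀ → q ∉ l₁ → ∃! g : G, (φ g) p = q) →
    (∀ l m : L, a ∉ l → b ∉ l → a ∉ m → b ∉ m → ∃! g : G, (ψ g) l = m) →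
    ∃ (K : Type) (_ : Field K) (_ : Fintype K)
      (e : P ≃ Projectivization K (Fin 3 → K)) (f : L ≃ Projectivization K (Fin 3 → K)),
      ∀ (p : P) (l : L), p ∈ l ↔ dotProduct (e p).rep (f l).rep = 0 :=
  Pool.Agent.Lib.Helper3.TypeF.geom

end Pool.Agent.S10599
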