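import Pool.Statements.S10646

set_option autoImplicit false
open Pool Pool.MP_a81a70_co

namespace Pool.Agent.S10646

open Set Topology Filter

set_option linter.unusedSectionVars false


section General

variable {E : Type} [NormedAddCommGroup E] [NormedSpace ℝ E]
variable {J : Type} [Fintype J]

/-- The polyhedron cut out by the inequalities `l j x ≤ 1`. -/
def HP (l : J → StrongDual ℝ E) : Set E := {x | ∀ j, l j x ≤ 1}

/-- The part of the polyhedron on which the `j`-th inequality is tight. -/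
def HF (l : J → StrongDual ℝ E) (j : J) : Set E := {x | (∀ k, l k x ≤ 1) ∧ l j x = 1}

lemma isClosed_HP (l : J → StrongDual ℝ E) : IsClosed (HP l) := by
  have : HP l = ⋂ j, {x | l j x ≤ 1} := by ext x; simp [HP]
  rw [this]
  exact isClosed_iInter fun j => isClosed_le (l j).continuous continuous_const

lemma convex_HP (l : J → StrongDual ℝ E) : Convex ℝ (HP l) := by
  intro x hx y hy a b ha hb hab j
  simp only [map_add, map_smul, smul_eq_mul]
  have h1 := mul_le_mul_of_nonneg_left (hx j) ha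
  have h2 := mul_le_mul_of_nonneg_left (hy j) hb
  linarith

/-- Moving a little from `x` in direction `v` stays in the polyhedron, if every tight constraint
does not increase. -/
lemma exists_move (l : J → StrongDual ℝ E) {x v : E}
    (h : ∀ k, l k x < 1 ∨ (l k x ≤ 1 ∧ l k v ≤ 0)) : ∃ t : ℝ, 0 < t ∧ x + t • v ∈ HP l := by
  have h1 : ∀ k, ∀ᶠ t : ℝ in 𝓝[>] 0, l k (x + t • v) ≤ 1 := by
    intro k
    rcases h k with hk | ⟨hk, hk'⟩
    · have hc : ContinuousAt (fun t : ℝ => l k (x + t • v)) 0 := by fun_prop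
      have h0 : (fun t : ℝ => l k (x + t • v)) 0 < 1 := by simpa using hk
      have := hc.eventually (gt_mem_nhds h0)
      exact (this.filter_mono nhdsWithin_le_nhds).mono fun t ht => le_of_lt ht
    · filter_upwards [self_mem_nhdsWithin] with t ht
      have ht' : (0 : ℝ) < t := ht
      simp only [map_add, map_smul, smul_eq_mul]
      nlinarith
  have h2 : ∀ᶠ t : ℝ in 𝓝[>] 0, ∀ k, l k (x + t • v) ≤ 1 := eventually_all.2 h1
  obtain ⟨t, ht, ht0⟩ := (h2.and self_mem_nhdsWithin).exists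
  exact ⟨t, ht0, ht⟩

lemma interior_HP (l : J → StrongDual ℝ E) : interior (HP l) = {x | ∀ j, l j x < 1} := by
  apply Subset.antisymm
  · intro x hx j
    by_contra hcon
    push Not at hcon
    have hxP : x ∈ HP l := interior_subset hx
    have h1 : l j x = 1 := le_antisymm (hxP j) hcon
    have h2 : ∀ᶠ t : ℝ in 𝓝 0, x + t • x ∈ HP l := by
      have hc : ContinuousAt (fun t : ℝ => x + t • x) 0 := by fun_prop
      apply hc.eventually_mem
      simpa using mem_interior_iff_mem_nhds.mp hx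
    obtain ⟨t, ht, ht0⟩ := ((h2.filter_mono nhdsWithin_le_nhds).and
      (self_mem_nhdsWithin : Ioi (0:ℝ) ∈ 𝓝[>] 0)).exists
    have h3 := ht j
    have ht0' : (0 : ℝ) < t := ht0
    simp only [map_add, map_smul, smul_eq_mul, h1] at h3
    linarith
  · apply interior_maximal
    · intro x hx j
      exact le_of_lt (hx j)
    · have : {x : E | ∀ j, l j x < 1} = ⋂ j, {x | l j x < 1} := by ext x; simp
      rw [this]
      exact isOpen_iInter_of_finite fun j => isOpen_lt (l j).continuous continuous_const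

lemma mem_frontier_HP (l : J → StrongDual ℝ E) (x : E) :
    x ∈ frontier (HP l) ↔ ∃ j, x ∈ HF l j := by
  rw [(isClosed_HP l).frontier_eq, interior_HP]
  constructor
  · rintro ⟨h1, h2⟩
    simp only [mem_ofPred_eq, not_forall, not_lt] at h2
    obtain ⟨j, hj⟩ := h2
    exact ⟨j, h1, le_antisymm (h1 j) hj⟩
  · rintro ⟨j, h1, h2⟩
    refine ⟨h1, fun h3 => ?_⟩
    have := h3 j
    linarith

/-- An exposed face containing a point in the relative interior of the facet `j` contains the
whole facet. -/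
lemma HF_subset_of_mem (l : J → StrongDual ℝ E) {F : Set E} (hF : IsExposed ℝ (HP l) F)
    {j : J} {p : E} (hp : p ∈ F) (hpj : l j p = 1) (hpk : ∀ k, k ≠ j → l k p < 1) :
    HF l j ⊆ F := by
  obtain ⟨g, hg⟩ := hF ⟨p, hp⟩
  intro x hx
  have hpF := hp
  rw [hg] at hpF ⊢
  obtain ⟨hpP, hpmax⟩ := hpF
  refine ⟨hx.1, fun y hy => ?_⟩
  obtain ⟨t, ht, htP⟩ := exists_move l (x := p) (v := p - x) (by
    intro k
    by_cases hk : k = j
    · right
      subst hk
      refine ⟨hpP k, ?_⟩
      rw [map_sub, hpj, hx.2]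
      simp
    · left
      exact hpk k hk)
  have h1 := hpmax _ htP
  simp only [map_add, map_smul, smul_eq_mul, map_sub] at h1
  have h2 : g p ≤ g x := by
    by_contra hcon
    push Not at hcon
    have : 0 < t * (g p - g x) := mul_pos ht (by linarith)
    linarith
  exact (hpmax y hy).trans h2

/-- A proper nonempty exposed face lies in some facet. -/
lemma exists_subset_HF [Nonempty J] (l : J → StrongDual ℝ E) {F : Set E}
    (hF : IsExposed ℝ (HP l) F) (hne : F.Nonempty) (hprop : F ≠ HP l) :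
    ∃ j, F ⊆ HF l j := by
  by_contra hcon
  push Not at hcon
  obtain ⟨g, hg⟩ := hF hne
  have h1 : ∀ j, ∃ x ∈ F, l j x < 1 := by
    intro j
    obtain ⟨x, hxF, hx⟩ := Set.not_subset.1 (hcon j)
    refine ⟨x, hxF, ?_⟩
    have hxP : x ∈ HP l := hF.subset hxF
    rcases lt_or_eq_of_le (hxP j) with h | h
    · exact h
    · exact absurd ⟨hxP, h⟩ hx
  choose p hpF hp using h1
  set n : ℝ := (Fintype.card J : ℝ) with hn
  have hn0 : 0 < n := by
    rw [hn]
    exact_mod_cast Fintype.card_pos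
  set q : E := ∑ j, (n⁻¹) • p j with hq
  have hconv : Convex ℝ F := hF.convex (convex_HP l)
  have hqF : q ∈ F := by
    apply hconv.sum_mem
    · intro i _
      positivity
    · simp only [Finset.sum_const, Finset.card_univ, nsmul_eq_mul]
      rw [← hn]
      field_simp
    · intro i _
      exact hpF i
  have hqs : ∀ k, l k q < 1 := by
    intro k
    rw [hq, map_sum]
    have : (1 : ℝ) = ∑ _j : J, n⁻¹ := by
      simp only [Finset.sum_const, Finset.card_univ, nsmul_eq_mul]
      rw [← hn]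
      field_simp
    rw [this]
    apply Finset.sum_lt_sum
    · intro j _
      simp only [map_smul, smul_eq_mul]
      have h1 : l k (p j) ≤ 1 := (hF.subset (hpF j)) k
      have h2 : 0 < n⁻¹ := by positivity
      nlinarith
    · refine ⟨k, Finset.mem_univ _, ?_⟩
      simp only [map_smul, smul_eq_mul]
      have h1 : l k (p k) < 1 := hp k
      have h2 : 0 < n⁻¹ := by positivity
      nlinarith
  have hg0 : ∀ v, g v ≤ 0 := by
    intro v
    obtain ⟨t, ht, htP⟩ := exists_move l (x := q) (v := v) (fun k => Or.inl (hqs k))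
    rw [hg] at hqF
    have h1 := hqF.2 _ htP
    simp only [map_add, map_smul, smul_eq_mul] at h1
    by_contra hc
    push Not at hc
    have : 0 < t * g v := mul_pos ht hc
    linarith
  have hg1 : ∀ v, g v = 0 := by
    intro v
    apply le_antisymm (hg0 v)
    have := hg0 (-v)
    rw [map_neg] at this
    linarith
  apply hprop
  rw [hg]
  ext x
  constructor
  · exact fun h => h.1
  · intro hx
    refine ⟨hx, fun y _ => ?_⟩
    rw [hg1, hg1]

/-- Centers of facets: the only tight inequality at `c j` is the `j`-th. -/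
def Centers (l : J → StrongDual ℝ E) (c : J → E) : Prop :=
  ∀ j, l j (c j) = 1 ∧ ∀ k, k ≠ j → l k (c j) < 1

lemma Centers.mem {l : J → StrongDual ℝ E} {c : J → E} (hc : Centers l c) (j : J) :
    c j ∈ HF l j := by
  refine ⟨fun k => ?_, (hc j).1⟩
  by_cases hk : k = j
  · subst hk
    exact le_of_eq (hc k).1
  · exact le_of_lt ((hc j).2 k hk)

lemma Centers.inj {l : J → StrongDual ℝ E} {c : J → E} (hc : Centers l c) :
    Function.Injective (HF l) := by
  intro i j hij
  by_contra hne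
  have h1 := hc.mem i
  rw [hij] at h1
  have h2 := (hc i).2 j (Ne.symm hne)
  have h3 := h1.2
  linarith

lemma isExposed_HF (l : J → StrongDual ℝ E) (j : J) : IsExposed ℝ (HP l) (HF l j) := by
  rintro ⟨x0, hx0⟩
  refine ⟨l j, ?_⟩
  ext x
  constructor
  · rintro ⟨h1, h2⟩
    refine ⟨h1, fun y hy => ?_⟩
    rw [h2]
    exact hy j
  · rintro ⟨h1, h2⟩
    refine ⟨h1, le_antisymm (h1 j) ?_⟩
    have := h2 x0 hx0.1
    rw [hx0.2] at this
    exact this

lemma vectorSpan_HF {l : J → StrongDual ℝ E} {c : J → E} (hc : Centers l c) (j : J) :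
    vectorSpan ℝ (HF l j) = LinearMap.ker (l j).toLinearMap := by
  apply le_antisymm
  · rw [vectorSpan_def, Submodule.span_le]
    rintro w ⟨x, hx, y, hy, rfl⟩
    simp only [vsub_eq_sub, SetLike.mem_coe, LinearMap.mem_ker, ContinuousLinearMap.coe_coe,
      map_sub]
    rw [hx.2, hy.2, sub_self]
  · intro w hw
    have hw' : l j w = 0 := hw
    obtain ⟨t, ht, htP⟩ := exists_move l (x := c j) (v := w) (by
      intro k
      by_cases hk : k = j
      · right
        subst hk
        exact ⟨le_of_eq (hc k).1, le_of_eq hw'⟩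
      · left
        exact (hc j).2 k hk)
    have h1 : c j + t • w ∈ HF l j := by
      refine ⟨htP, ?_⟩
      rw [map_add, map_smul, hw', (hc j).1]
      simp
    have h2 := vsub_mem_vectorSpan ℝ h1 (hc.mem j)
    simp only [vsub_eq_sub, add_sub_cancel_left] at h2
    exact (Submodule.smul_mem_iff _ (ne_of_gt ht)).1 h2

lemma l_ne_zero {l : J → StrongDual ℝ E} {c : J → E} (hc : Centers l c) (j : J) :
    (l j).toLinearMap ≠ 0 := by
  intro h
  have h1 := (hc j).1
  have h2 : l j (c j) = (l j).toLinearMap (c j) := rfl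
  rw [h2, h] at h1
  simp at h1

lemma finrank_HF [FiniteDimensional ℝ E] {l : J → StrongDual ℝ E} {c : J → E}
    (hc : Centers l c) (j : J) :
    Module.finrank ℝ (vectorSpan ℝ (HF l j)) + 1 = Module.finrank ℝ E := by
  rw [vectorSpan_HF hc j]
  exact Module.Dual.finrank_ker_add_one_of_ne_zero (l_ne_zero hc j)

/-- The facets of the polyhedron are exactly the sets `HF l j`. -/
lemma facet_iff [FiniteDimensional ℝ E] [Nonempty J] {l : J → StrongDual ℝ E} {c : J → E}
    (hc : Centers l c) (F : Set E) :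
    (IsExposed ℝ (HP l) F ∧ F.Nonempty ∧
      Module.finrank ℝ (vectorSpan ℝ F) = Module.finrank ℝ E - 1) ↔ ∃ j, F = HF l j := by
  have hpos : 0 < Module.finrank ℝ E := by
    have := finrank_HF hc (Classical.arbitrary J)
    omega
  constructor
  · rintro ⟨hF, hne, hdim⟩
    have hprop : F ≠ HP l := by
      rintro rfl
      -- the polyhedron has full dimension
      obtain ⟨j0⟩ := (inferInstance : Nonempty J)
      have h1 : vectorSpan ℝ (HP l) = ⊤ := by
        rw [eq_top_iff]
        intro w _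
        have h0 : ∀ k, l k (0 : E) < 1 := by intro k; simp
        obtain ⟨t, ht, htP⟩ := exists_move l (x := 0) (v := w) (fun k => Or.inl (h0 k))
        have h00 : (0 : E) ∈ HP l := fun k => le_of_lt (h0 k)
        have h2 := vsub_mem_vectorSpan ℝ htP h00
        simp only [zero_add, vsub_eq_sub, sub_zero] at h2
        exact (Submodule.smul_mem_iff _ (ne_of_gt ht)).1 h2
      rw [h1, finrank_top] at hdim
      omega
    obtain ⟨j, hj⟩ := exists_subset_HF l hF hne hprop
    refine ⟨j, Subset.antisymm hj ?_⟩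
    have hle : vectorSpan ℝ F ≤ vectorSpan ℝ (HF l j) := vectorSpan_mono ℝ hj
    have heq : vectorSpan ℝ F = vectorSpan ℝ (HF l j) := by
      apply Submodule.eq_of_le_of_finrank_eq hle
      have := finrank_HF hc j
      omega
    obtain ⟨g, hg⟩ := hF hne
    obtain ⟨p, hp⟩ := hne
    intro x hx
    have h1 : x -ᵥ p ∈ vectorSpan ℝ F := by
      rw [heq]
      exact vsub_mem_vectorSpan ℝ hx (hj hp)
    have h2 : ∀ w ∈ vectorSpan ℝ F, g w = 0 := by
      intro w hw
      have h3 : vectorSpan ℝ F ≤ LinearMap.ker g.toLinearMap := by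
        rw [vectorSpan_def, Submodule.span_le]
        rintro w ⟨a, ha, b, hb, rfl⟩
        simp only [vsub_eq_sub, SetLike.mem_coe, LinearMap.mem_ker, ContinuousLinearMap.coe_coe,
          map_sub]
        rw [hg] at ha hb
        have h4 := ha.2 b hb.1
        have h5 := hb.2 a ha.1
        linarith
      exact h3 hw
    have h3 := h2 _ h1
    simp only [vsub_eq_sub, map_sub] at h3
    rw [hg] at hp ⊢
    refine ⟨hx.1, fun y hy => ?_⟩
    have := hp.2 y hy
    linarith
  · rintro ⟨j, rfl⟩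
    refine ⟨isExposed_HF l j, ⟨c j, hc.mem j⟩, ?_⟩
    have := finrank_HF hc j
    omega

lemma HF_ne_HP [Nonempty J] {l : J → StrongDual ℝ E} (j : J) : HF l j ≠ HP l := by
  intro h
  have h0 : (0 : E) ∈ HP l := fun k => by simp
  rw [← h] at h0
  have := h0.2
  simp at this

end General

section Topological

variable {E : Type} [NormedAddCommGroup E] [NormedSpace ℝ E]
variable {E' : Type} [NormedAddCommGroup E'] [NormedSpace ℝ E']
variable {J J' : Type} [Fintype J] [Fintype J']

/-- The image in `∂(HP l)` of the facet `j'` of `HP l'`. -/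
def Im (l : J → StrongDual ℝ E) (l' : J' → StrongDual ℝ E')
    (h : (frontier (HP l')) ≃ₜ (frontier (HP l))) (j' : J') : Set E :=
  (fun x => (h x : E)) '' {x : frontier (HP l') | (x : E') ∈ HF l' j'}

/-- Every facet of `HP l` lies in the image of a facet of `HP l'`. -/
lemma part_a (l : J → StrongDual ℝ E) (l' : J' → StrongDual ℝ E')
    (c : J → E) (hc : Centers l c)
    (h : (frontier (HP l')) ≃ₜ (frontier (HP l)))
    (hh : ∀ j', ∃ 𝓕 : Set (Set E), (∀ F ∈ 𝓕, IsExposed ℝ (HP l) F) ∧ Im l l' h j' = ⋃₀ 𝓕)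
    (j : J) : ∃ j', HF l j ⊆ Im l l' h j' := by
  have hcj : c j ∈ frontier (HP l) := (mem_frontier_HP l _).2 ⟨j, hc.mem j⟩
  set q := h.symm ⟨c j, hcj⟩ with hq
  obtain ⟨j', hj'⟩ := (mem_frontier_HP l' _).1 q.2
  refine ⟨j', ?_⟩
  obtain ⟨𝓕, h1, h2⟩ := hh j'
  have h3 : c j ∈ Im l l' h j' := ⟨q, hj', by simp [hq]⟩
  rw [h2] at h3 ⊢
  obtain ⟨F, hF, hcF⟩ := h3
  exact (HF_subset_of_mem l (h1 F hF) hcF (hc j).1 (hc j).2).trans (subset_sUnion_of_mem hF)

/-- The image of every facet of `HP l'` contains a facet of `HP l`. -/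
lemma part_b (l : J → StrongDual ℝ E) (l' : J' → StrongDual ℝ E')
    (c : J → E) (hc : Centers l c) (c' : J' → E') (hc' : Centers l' c')
    (h : (frontier (HP l')) ≃ₜ (frontier (HP l)))
    (hh : ∀ j', ∃ 𝓕 : Set (Set E), (∀ F ∈ 𝓕, IsExposed ℝ (HP l) F) ∧ Im l l' h j' = ⋃₀ 𝓕)
    (j' : J') : ∃ j, HF l j ⊆ Im l l' h j' := by
  classical
  -- the relative interior of the facet `j'`
  set U : Set (frontier (HP l')) := {x | ∀ k, k ≠ j' → l' k (x : E') < 1} with hU
  have hUopen : IsOpen U := by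
    have : U = ⋂ k : J', {x : frontier (HP l') | k ≠ j' → l' k (x : E') < 1} := by
      ext x; simp [hU]
    rw [this]
    apply isOpen_iInter_of_finite
    intro k
    by_cases hk : k = j'
    · have : {x : frontier (HP l') | k ≠ j' → l' k (x : E') < 1} = univ := by
        ext x; simp [hk]
      rw [this]
      exact isOpen_univ
    · have : {x : frontier (HP l') | k ≠ j' → l' k (x : E') < 1} =
          {x : frontier (HP l') | l' k (x : E') < 1} := by
        ext x; simp [hk]
      rw [this]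
      exact isOpen_lt ((l' k).continuous.comp continuous_subtype_val) continuous_const
  have hUsub : ∀ x ∈ U, (x : E') ∈ HF l' j' := by
    intro x hx
    obtain ⟨k, hk⟩ := (mem_frontier_HP l' _).1 x.2
    by_cases hkj : k = j'
    · rw [← hkj]; exact hk
    · have := hx k hkj
      have := hk.2
      linarith
  have hc'f : c' j' ∈ frontier (HP l') := (mem_frontier_HP l' _).2 ⟨j', hc'.mem j'⟩
  have hc'U : (⟨c' j', hc'f⟩ : frontier (HP l')) ∈ U := (hc' j').2
  have hVopen : IsOpen (h '' U) := h.isOpenMap U hUopen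
  obtain ⟨W, hW, hWV⟩ := isOpen_induced_iff.1 hVopen
  set q0 : frontier (HP l) := h ⟨c' j', hc'f⟩ with hq0
  have hq0V : q0 ∈ h '' U := ⟨_, hc'U, rfl⟩
  have hq0W : (q0 : E) ∈ W := by
    rw [← hWV] at hq0V
    exact hq0V
  obtain ⟨j, hj⟩ := (mem_frontier_HP l _).1 q0.2
  refine ⟨j, ?_⟩
  -- the path from `q0` to the centre of facet `j`
  have hpath : ∀ᶠ t : ℝ in 𝓝[>] 0, (q0 : E) + t • (c j - q0) ∈ W := by
    have hcont : ContinuousAt (fun t : ℝ => (q0 : E) + t • (c j - q0)) 0 := by fun_prop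
    have := hcont.eventually_mem (s := W) (by simpa using hW.mem_nhds hq0W)
    exact this.filter_mono nhdsWithin_le_nhds
  have hlt1 : ∀ᶠ t : ℝ in 𝓝[>] 0, t < 1 :=
    (gt_mem_nhds one_pos).filter_mono nhdsWithin_le_nhds
  obtain ⟨t, ⟨htW, ht1⟩, ht0⟩ := ((hpath.and hlt1).and self_mem_nhdsWithin).exists
  have ht0' : (0 : ℝ) < t := ht0
  set p : E := (q0 : E) + t • (c j - q0) with hp
  have hpj : l j p = 1 := by
    rw [hp]
    simp only [map_add, map_smul, smul_eq_mul, map_sub]
    rw [hj.2, (hc j).1]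
    ring
  have hpk : ∀ k, k ≠ j → l k p < 1 := by
    intro k hk
    rw [hp]
    simp only [map_add, map_smul, smul_eq_mul, map_sub]
    have h1 := hj.1 k
    have h2 := (hc j).2 k hk
    nlinarith
  have hpP : p ∈ HF l j := by
    refine ⟨fun k => ?_, hpj⟩
    by_cases hk : k = j
    · subst hk; exact le_of_eq hpj
    · exact le_of_lt (hpk k hk)
  have hpf : p ∈ frontier (HP l) := (mem_frontier_HP l _).2 ⟨j, hpP⟩
  have hpV : (⟨p, hpf⟩ : frontier (HP l)) ∈ h '' U := by
    rw [← hWV]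
    exact htW
  obtain ⟨x, hxU, hx⟩ := hpV
  have hpIm : p ∈ Im l l' h j' := ⟨x, hUsub x hxU, by simp [hx]⟩
  obtain ⟨𝓕, h1, h2⟩ := hh j'
  rw [h2] at hpIm ⊢
  obtain ⟨F, hF, hcF⟩ := hpIm
  exact (HF_subset_of_mem l (h1 F hF) hcF hpj hpk).trans (subset_sUnion_of_mem hF)

/-- The obstruction: if opposite facets of `HP l'` are disjoint, `HP l` has more facets, and each
facet of `HP l` meets one of any two given distinct facets, there is no refinement map. -/
theorem no_refinement (l : J → StrongDual ℝ E) (l' : J' → StrongDual ℝ E')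
    (c : J → E) (hc : Centers l c) (c' : J' → E') (hc' : Centers l' c')
    (h : (frontier (HP l')) ≃ₜ (frontier (HP l)))
    (hh : ∀ j', ∃ 𝓕 : Set (Set E), (∀ F ∈ 𝓕, IsExposed ℝ (HP l) F) ∧ Im l l' h j' = ⋃₀ 𝓕)
    (neg : J' → J') (hneg : ∀ i x, x ∈ HF l' i → x ∈ HF l' (neg i) → False)
    (hmeet : ∀ a b d : J, b ≠ d → (HF l a ∩ HF l b).Nonempty ∨ (HF l a ∩ HF l d).Nonempty)
    (hcard : Fintype.card J' < Fintype.card J) : False := by
  have ha := part_a l l' c hc h hh
  choose f hf using ha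
  obtain ⟨j1, j2, hne, heq⟩ := Fintype.exists_ne_map_eq_of_card_lt f hcard
  obtain ⟨j3, hj3⟩ := part_b l l' c hc c' hc' h hh (neg (f j1))
  have hdisj : ∀ x, x ∈ Im l l' h (f j1) → x ∈ Im l l' h (neg (f j1)) → False := by
    rintro x ⟨y, hy, rfl⟩ ⟨z, hz, hzy⟩
    have : z = y := h.injective (Subtype.ext hzy)
    subst this
    exact hneg _ _ hy hz
  rcases hmeet j3 j1 j2 hne with ⟨x, hx3, hx1⟩ | ⟨x, hx3, hx2⟩
  · exact hdisj x (hf j1 hx1) (hj3 hx3)
  · exact hdisj x (by rw [heq]; exact hf j2 hx2) (hj3 hx3)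

end Topological


section Concrete

/-!
The counterexample: the section of the 5-cube by the hyperplane of vectors with coordinate sum 0,
written in the first four coordinates.  It is a simple centrally symmetric 4-polytope with ten
facets, any two non-opposite facets of which meet.
-/

/-- The five linear forms `x ↦ x 0, x 1, x 2, x 3, -(x 0 + x 1 + x 2 + x 3)`. -/
noncomputable def yv (i : Fin 5) : StrongDual ℝ (Fin 4 → ℝ) :=
  if h : (i : ℕ) < 4 then ContinuousLinearMap.proj (⟨i, h⟩ : Fin 4)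
  else -(∑ k : Fin 4, ContinuousLinearMap.proj (R := ℝ) (φ := fun _ : Fin 4 => ℝ) k)

/-- The ten inequalities `± y i ≤ 1`. -/
noncomputable def lv (j : Fin 5 × Bool) : StrongDual ℝ (Fin 4 → ℝ) :=
  if j.2 then yv j.1 else -yv j.1

/-- The eight inequalities of the cube. -/
noncomputable def lc (j : Fin 4 × Bool) : StrongDual ℝ (Fin 4 → ℝ) :=
  if j.2 then ContinuousLinearMap.proj (R := ℝ) (φ := fun _ : Fin 4 => ℝ) j.1
  else -ContinuousLinearMap.proj (R := ℝ) (φ := fun _ : Fin 4 => ℝ) j.1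

lemma cube_eq : {x : Fin 4 → ℝ | ∀ i, |x i| ≤ 1} = HP lc := by
  ext x
  constructor
  · rintro h ⟨i, b⟩
    have := abs_le.1 (h i)
    cases b <;> simp [lc] <;> linarith [this.1, this.2]
  · intro h i
    have h1 := h (i, true)
    have h2 := h (i, false)
    simp [lc] at h1 h2
    exact abs_le.2 ⟨by linarith, h1⟩

/-- Centres of the facets of the cube. -/
def cc (j : Fin 4 × Bool) : Fin 4 → ℝ := fun k => if k = j.1 then (if j.2 then 1 else -1) else 0

lemma centers_cube : Centers lc cc := by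
  rintro ⟨i, b⟩
  refine ⟨?_, ?_⟩
  · cases b <;> simp [lc, cc]
  · rintro ⟨k, b'⟩ hk
    by_cases hki : k = i
    · subst hki
      have hb : b' ≠ b := by
        rintro rfl
        exact hk rfl
      cases b <;> cases b' <;> simp_all [lc, cc]
    · cases b' <;> simp [lc, cc, hki]

/-- integer version of `yv`. -/
def yi (i : Fin 5) (v : Fin 4 → ℤ) : ℤ :=
  if h : (i : ℕ) < 4 then v ⟨i, h⟩ else -(v 0 + v 1 + v 2 + v 3)

/-- integer version of `lv`. -/
def li (j : Fin 5 × Bool) (v : Fin 4 → ℤ) : ℤ := if j.2 then yi j.1 v else - yi j.1 v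

/-- cast of an integer vector. -/
def cst (v : Fin 4 → ℤ) : Fin 4 → ℝ := fun i => (v i : ℝ)

lemma yv_cst (i : Fin 5) (v : Fin 4 → ℤ) : yv i (cst v) = (yi i v : ℝ) := by
  unfold yv yi
  split_ifs with h
  · simp [cst]
  · simp [cst, Fin.sum_univ_four]

lemma lv_cst (j : Fin 5 × Bool) (v : Fin 4 → ℤ) : lv j (cst v) = (li j v : ℝ) := by
  unfold lv li
  split_ifs with h
  · exact yv_cst _ _
  · simp [yv_cst]

lemma sum_yv (x : Fin 4 → ℝ) : ∑ i : Fin 5, yv i x = 0 := by
  simp [Fin.sum_univ_succ, yv]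
  ring

/-- The finite set of integer vectors in the polytope. -/
def Zs : Finset (Fin 4 → ℤ) :=
  (Fintype.piFinset (fun _ => ({-1, 0, 1} : Finset ℤ))).filter (fun v => ∀ j, li j v ≤ 1)

/-- Its image in real space. -/
noncomputable def SS : Finset (Fin 4 → ℝ) := Zs.image cst

lemma SS_subset : (SS : Set (Fin 4 → ℝ)) ⊆ HP lv := by
  intro x hx
  simp only [SS, Finset.coe_image, Set.mem_image, Finset.mem_coe] at hx
  obtain ⟨v, hv, rfl⟩ := hx
  rw [Zs, Finset.mem_filter] at hv
  intro j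
  rw [lv_cst]
  exact_mod_cast hv.2 j

lemma mem_HP_iff (x : Fin 4 → ℝ) : x ∈ HP lv ↔ ∀ i, |yv i x| ≤ 1 := by
  constructor
  · intro h i
    have h1 := h (i, true)
    have h2 := h (i, false)
    simp [lv] at h1 h2
    exact abs_le.2 ⟨by linarith, h1⟩
  · rintro h ⟨i, b⟩
    have := abs_le.1 (h i)
    cases b <;> simp [lv] <;> linarith [this.1, this.2]

/-- direction along which only `y i` and `y k` change. -/
def dir (i k : Fin 5) : Fin 4 → ℝ :=
  fun m => (if (m : ℕ) = i then 1 else 0) - (if (m : ℕ) = k then 1 else 0)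

lemma yv_dir (i k m : Fin 5) :
    yv m (dir i k) = (if m = i then 1 else 0) - (if m = k then 1 else 0) := by
  fin_cases i <;> fin_cases k <;> fin_cases m <;> simp [yv, dir, Fin.sum_univ_four] 

lemma extreme_pair {x : Fin 4 → ℝ} (hx : x ∈ (HP lv).extremePoints ℝ) (i k : Fin 5)
    (hik : i ≠ k) : |yv i x| = 1 ∨ |yv k x| = 1 := by
  by_contra hcon
  push Not at hcon
  obtain ⟨h1, h2⟩ := hcon
  have hxP := hx.1
  have hb := (mem_HP_iff x).1 hxP
  have hi : |yv i x| < 1 := lt_of_le_of_ne (hb i) h1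
  have hk : |yv k x| < 1 := lt_of_le_of_ne (hb k) h2
  have key : ∀ m, m ≠ i → m ≠ k → yv m (dir i k) = 0 := by
    intro m hmi hmk
    rw [yv_dir]; simp [hmi, hmk]
  have hmove : ∀ v : Fin 4 → ℝ, (∀ m, m ≠ i → m ≠ k → yv m v = 0) →
      ∃ t : ℝ, 0 < t ∧ x + t • v ∈ HP lv := by
    intro v hv
    apply exists_move
    rintro ⟨m, b⟩
    by_cases hmi : m = i
    · left
      subst hmi
      have := abs_lt.1 hi
      cases b <;> simp [lv] <;> linarith [this.1, this.2]
    · by_cases hmk : m = k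
      · left
        subst hmk
        have := abs_lt.1 hk
        cases b <;> simp [lv] <;> linarith [this.1, this.2]
      · right
        refine ⟨hxP _, ?_⟩
        cases b <;> simp [lv, hv m hmi hmk]
  obtain ⟨t1, ht1, hP1⟩ := hmove (dir i k) key
  obtain ⟨t2, ht2, hP2⟩ := hmove (-dir i k) (by
    intro m hmi hmk
    rw [map_neg, key m hmi hmk, neg_zero])
  have hseg : x ∈ openSegment ℝ (x + t1 • dir i k) (x + t2 • (-dir i k)) := by
    refine ⟨t2 / (t1 + t2), t1 / (t1 + t2), by positivity, by positivity, by field_simp; ring, ?_⟩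
    ext m
    simp only [Pi.add_apply, Pi.smul_apply, smul_eq_mul, Pi.neg_apply]
    field_simp
    ring
  have h3 := hx.2 hP1 hP2 hseg
  have h4 : yv i (x + t1 • dir i k) = yv i x := by rw [h3]
  rw [map_add, map_smul, yv_dir] at h4
  simp [hik] at h4
  linarith

lemma extreme_int {x : Fin 4 → ℝ} (hx : x ∈ (HP lv).extremePoints ℝ) :
    ∀ i : Fin 5, ∃ m : ℤ, yv i x = m := by
  have h1 : ∀ i : Fin 5, |yv i x| = 1 → ∃ m : ℤ, yv i x = m := by
    intro i hi
    rcases (abs_eq one_pos.le).1 hi with h | h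
    · exact ⟨1, by rw [h]; simp⟩
    · exact ⟨-1, by rw [h]; simp⟩
  intro i
  by_cases hi : |yv i x| = 1
  · exact h1 i hi
  · have h2 : ∀ k, k ≠ i → ∃ m : ℤ, yv k x = m := by
      intro k hk
      apply h1
      rcases extreme_pair hx k i hk with h | h
      · exact h
      · exact absurd h hi
    have h3 : ∀ k, ∃ m : ℤ, k ≠ i → yv k x = m := by
      intro k
      by_cases hk : k = i
      · exact ⟨0, fun h => absurd hk h⟩
      · obtain ⟨m, hm⟩ := h2 k hk
        exact ⟨m, fun _ => hm⟩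
    choose m hm using h3
    have h4 := sum_yv x
    rw [← Finset.add_sum_erase _ _ (Finset.mem_univ i)] at h4
    have h5 : ∑ k ∈ Finset.univ.erase i, yv k x = ((∑ k ∈ Finset.univ.erase i, m k : ℤ) : ℝ) := by
      push_cast
      apply Finset.sum_congr rfl
      intro k hk
      exact hm k (Finset.ne_of_mem_erase hk)
    refine ⟨-(∑ k ∈ Finset.univ.erase i, m k), ?_⟩
    rw [h5] at h4
    push_cast at h4 ⊢
    linarith

lemma extreme_cst {x : Fin 4 → ℝ} (hx : x ∈ (HP lv).extremePoints ℝ) :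
    ∃ v ∈ Zs, x = cst v ∧ ∀ i k : Fin 5, i ≠ k →
      ((yi i v = 1 ∨ yi i v = -1) ∨ (yi k v = 1 ∨ yi k v = -1)) := by
  have h1 : ∀ i : Fin 4, ∃ m : ℤ, x i = m := by
    intro i
    obtain ⟨m, hm⟩ := extreme_int hx ⟨i, by omega⟩
    refine ⟨m, ?_⟩
    rw [← hm]
    simp [yv]
  choose v hv using h1
  have hxv : x = cst v := by
    ext i
    exact hv i
  have hP := hx.1
  have hli : ∀ j, li j v ≤ 1 := by
    intro j
    have := hP j
    rw [hxv, lv_cst] at this
    exact_mod_cast this
  refine ⟨v, ?_, hxv, ?_⟩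
  · rw [Zs, Finset.mem_filter]
    refine ⟨?_, hli⟩
    rw [Fintype.mem_piFinset]
    intro i
    have h1 := hli (⟨i, by omega⟩, true)
    have h2 := hli (⟨i, by omega⟩, false)
    simp [li, yi] at h1 h2
    have h3 : v i = -1 ∨ v i = 0 ∨ v i = 1 := by omega
    simpa using h3
  · intro i k hik
    have h := extreme_pair hx i k hik
    have hcase : ∀ m : Fin 5, |yv m x| = 1 → (yi m v = 1 ∨ yi m v = -1) := by
      intro m hm
      rw [hxv, yv_cst] at hm
      rcases (abs_eq one_pos.le).1 hm with h | h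
      · left; exact_mod_cast h
      · right; exact_mod_cast h
    rcases h with h | h
    · exact Or.inl (hcase _ h)
    · exact Or.inr (hcase _ h)

lemma isCompact_HP : IsCompact (HP lv) := by
  apply Metric.isCompact_of_isClosed_isBounded (isClosed_HP lv)
  rw [isBounded_iff_forall_norm_le]
  refine ⟨1, fun x hx => ?_⟩
  rw [pi_norm_le_iff_of_nonneg one_pos.le]
  intro i
  have := (mem_HP_iff x).1 hx ⟨i, by omega⟩
  simpa [yv] using this

lemma hull_eq : convexHull ℝ (SS : Set (Fin 4 → ℝ)) = HP lv := by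
  apply Subset.antisymm
  · exact convexHull_min SS_subset (convex_HP lv)
  · rw [← closure_convexHull_extremePoints isCompact_HP (convex_HP lv)]
    have h1 : (HP lv).extremePoints ℝ ⊆ (SS : Set (Fin 4 → ℝ)) := by
      intro x hx
      obtain ⟨v, hv, hxv, -⟩ := extreme_cst hx
      rw [hxv]
      simp only [SS, Finset.coe_image]
      exact ⟨v, hv, rfl⟩
    have h2 : IsClosed (convexHull ℝ (SS : Set (Fin 4 → ℝ))) :=
      (SS.finite_toSet.isCompact_convexHull (𝕜 := ℝ)).isClosed
    exact closure_minimal (convexHull_mono h1) h2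

/-- Centres of the ten facets. -/
noncomputable def cv (j : Fin 5 × Bool) : Fin 4 → ℝ :=
  fun k => (if j.2 then 1 else -1) * (if (k : ℕ) = j.1 then 1 else -(1/4))

lemma yv_cv (i : Fin 5) (b : Bool) (k : Fin 5) :
    yv k (cv (i, b)) = (if b then 1 else -1) * (if k = i then 1 else -(1/4)) := by
  fin_cases i <;> fin_cases k <;> cases b <;> simp [yv, cv, Fin.sum_univ_four] <;> norm_num

lemma centers_lv : Centers lv cv := by
  rintro ⟨i, b⟩
  refine ⟨?_, ?_⟩
  · cases b <;> simp [lv, yv_cv]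
  · rintro ⟨k, b'⟩ hk
    by_cases hki : k = i
    · subst hki
      have hb : b' ≠ b := by
        rintro rfl
        exact hk rfl
      cases b <;> cases b' <;> simp_all [lv, yv_cv]
    · cases b' <;> cases b <;> simp [lv, yv_cv, hki] <;> norm_num

lemma meet_dec : ∀ a b d : Fin 5 × Bool, b ≠ d →
    (∃ v ∈ Zs, li a v = 1 ∧ li b v = 1) ∨ (∃ v ∈ Zs, li a v = 1 ∧ li d v = 1) := by
  have h : ∀ a b : Fin 5 × Bool, b ≠ (a.1, !a.2) → (∃ v ∈ Zs, li a v = 1 ∧ li b v = 1) := by
    decide +kernel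
  intro a b d hbd
  by_cases hb : b = (a.1, !a.2)
  · right
    apply h
    rintro rfl
    exact hbd hb
  · left
    exact h a b hb

lemma meet (a b d : Fin 5 × Bool) (hbd : b ≠ d) :
    (HF lv a ∩ HF lv b).Nonempty ∨ (HF lv a ∩ HF lv d).Nonempty := by
  have key : ∀ a b : Fin 5 × Bool, (∃ v ∈ Zs, li a v = 1 ∧ li b v = 1) →
      (HF lv a ∩ HF lv b).Nonempty := by
    rintro a b ⟨v, hv, h1, h2⟩
    have hP : cst v ∈ HP lv := by
      apply SS_subset
      simp only [SS, Finset.coe_image]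
      exact ⟨v, hv, rfl⟩
    refine ⟨cst v, ⟨hP, ?_⟩, ⟨hP, ?_⟩⟩
    · rw [lv_cst, h1]; simp
    · rw [lv_cst, h2]; simp
  rcases meet_dec a b d hbd with h | h
  · exact Or.inl (key _ _ h)
  · exact Or.inr (key _ _ h)

lemma count_dec : ∀ v ∈ Zs, (∀ i k : Fin 5, i ≠ k →
      ((yi i v = 1 ∨ yi i v = -1) ∨ (yi k v = 1 ∨ yi k v = -1))) →
      (Finset.univ.filter (fun j : Fin 5 × Bool => li j v = 1)).card = 4 := by
  decide +kernel

lemma count_facets {v : Fin 4 → ℝ} (hv : v ∈ (HP lv).extremePoints ℝ) :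
    {F : Set (Fin 4 → ℝ) | IsExposed ℝ (HP lv) F ∧
      F.Nonempty ∧ Module.finrank ℝ (vectorSpan ℝ F) = 4 - 1 ∧ v ∈ F}.ncard = 4 := by
  obtain ⟨w, hw, hvw, hpair⟩ := extreme_cst hv
  have h1 : {F : Set (Fin 4 → ℝ) | IsExposed ℝ (HP lv) F ∧
      F.Nonempty ∧ Module.finrank ℝ (vectorSpan ℝ F) = 4 - 1 ∧ v ∈ F} =
      HF lv '' ((Finset.univ.filter (fun j : Fin 5 × Bool => li j w = 1) :
        Finset (Fin 5 × Bool)) : Set (Fin 5 × Bool)) := by
    ext F
    have hfr : Module.finrank ℝ (Fin 4 → ℝ) = 4 := by simp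
    constructor
    · rintro ⟨hF1, hF2, hF3, hF4⟩
      obtain ⟨j, rfl⟩ := (facet_iff centers_lv F).1 ⟨hF1, hF2, by rw [hF3, hfr]⟩
      refine ⟨j, ?_, rfl⟩
      have := hF4.2
      rw [hvw, lv_cst] at this
      have h2 : li j w = 1 := by exact_mod_cast this
      simpa using h2
    · rintro ⟨j, hj, rfl⟩
      have hj' : li j w = 1 := by simpa using hj
      obtain ⟨h2, h3, h4⟩ := (facet_iff centers_lv (HF lv j)).2 ⟨j, rfl⟩
      refine ⟨h2, h3, by rw [h4, hfr], hv.1, ?_⟩
      rw [hvw, lv_cst, hj']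
      simp
  rw [h1, Set.ncard_image_of_injective _ centers_lv.inj, Set.ncard_coe_finset]
  exact count_dec w hw hpair

end Concrete


/-- The negation of the preceding statement: For every full-dimensional origin-symmetric polytope in R^d whose vertices each lie in exactly d facets, some homeomorphism from the boundary of the cube [-1,1]^d to the boundary of the polytope sends each proper face of the cube onto a union of proper faces of the polytope. -/
theorem result :
    ¬ (∀ (d : ℕ) (S : Finset (Fin d → ℝ)),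
      (interior (convexHull ℝ (S : Set (Fin d → ℝ)))).Nonempty →
      (∀ x ∈ convexHull ℝ (S : Set (Fin d → ℝ)), -x ∈ convexHull ℝ (S : Set (Fin d → ℝ))) →
      (∀ v ∈ (convexHull ℝ (S : Set (Fin d → ℝ))).extremePoints ℝ,
        {F : Set (Fin d → ℝ) | IsExposed ℝ (convexHull ℝ (S : Set (Fin d → ℝ))) F ∧
            F.Nonempty ∧ Module.finrank ℝ (vectorSpan ℝ F) = d - 1 ∧ v ∈ F}.ncard = d) →
      ∃ h : (frontier {x : Fin d → ℝ | ∀ i, |x i| ≤ 1}) ≃ₜ
          (frontier (convexHull ℝ (S : Set (Fin d → ℝ)))),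
        ∀ G : Set (Fin d → ℝ), IsExposed ℝ {x : Fin d → ℝ | ∀ i, |x i| ≤ 1} G →
          G.Nonempty → G ≠ {x : Fin d → ℝ | ∀ i, |x i| ≤ 1} →
          ∃ 𝓕 : Set (Set (Fin d → ℝ)),
            (∀ F ∈ 𝓕, IsExposed ℝ (convexHull ℝ (S : Set (Fin d → ℝ))) F ∧ F.Nonempty ∧
                F ≠ convexHull ℝ (S : Set (Fin d → ℝ))) ∧
            (fun x => (h x : Fin d → ℝ)) ''
                {x : frontier {x : Fin d → ℝ | ∀ i, |x i| ≤ 1} | (x : Fin d → ℝ) ∈ G} = ⋃₀ 𝓕) := by
  intro H
  have hS : (interior (convexHull ℝ (SS : Set (Fin 4 → ℝ)))).Nonempty := by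
    rw [hull_eq, interior_HP]
    exact ⟨0, fun j => by simp⟩
  have hsymm : ∀ x ∈ convexHull ℝ (SS : Set (Fin 4 → ℝ)),
      -x ∈ convexHull ℝ (SS : Set (Fin 4 → ℝ)) := by
    rw [hull_eq]
    intro x hx
    rw [mem_HP_iff] at hx ⊢
    intro i
    rw [map_neg, abs_neg]
    exact hx i
  have hcount : ∀ v ∈ (convexHull ℝ (SS : Set (Fin 4 → ℝ))).extremePoints ℝ,
      {F : Set (Fin 4 → ℝ) | IsExposed ℝ (convexHull ℝ (SS : Set (Fin 4 → ℝ))) F ∧
        F.Nonempty ∧ Module.finrank ℝ (vectorSpan ℝ F) = 4 - 1 ∧ v ∈ F}.ncard = 4 := by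
    rw [hull_eq]
    intro v hv
    exact count_facets hv
  have H4 := H 4 SS hS hsymm hcount
  rw [hull_eq, cube_eq] at H4
  obtain ⟨h, hh⟩ := H4
  refine no_refinement lv lc cv centers_lv cc centers_cube h ?_ (fun i => (i.1, !i.2)) ?_
    meet (by decide)
  · intro j'
    obtain ⟨𝓕, h1, h2⟩ := hh (HF lc j') (isExposed_HF lc j') ⟨cc j', centers_cube.mem j'⟩
      (HF_ne_HP j')
    exact ⟨𝓕, fun F hF => (h1 F hF).1, h2⟩
  · rintro ⟨i, b⟩ x h1 h2
    have h3 := h1.2
    have h4 := h2.2
    cases b <;> simp [lc] at h3 h4 <;> linarith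

end Pool.Agent.S10646
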