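import Pool.Statements.S11942
import Pool.Agent.Lib.H8.PP.Final

set_option autoImplicit false
open Pool Pool.MP_df4dc5_co

namespace Pool.Agent.S11942

/-- The negation of the preceding statement: There is a clutter that is minimally non-ideal (non-ideal, every proper deletion/contraction minor ideal) whose minimum-size members form the lines of a non-degenerate projective plane on all its elements, with lines of size at least 4 (order above two). -/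
theorem result :
    ¬ (∃ (n : ℕ) (C : Finset (Finset (Fin n))),
      IsAntichain (· ⊆ ·) (C : Set (Finset (Fin n))) ∧
      (∃ x ∈ Set.extremePoints ℝ
          {x : Fin n → ℝ | (∀ i, 0 ≤ x i) ∧ ∀ S ∈ C, (1 : ℝ) ≤ ∑ i ∈ S, x i},
        ∃ i : Fin n, ∀ z : ℤ, x i ≠ (z : ℝ)) ∧
      (∀ I J : Finset (Fin n), Disjoint I J → (I ∪ J).Nonempty →
        ∀ x ∈ Set.extremePoints ℝ
            {x : Fin n → ℝ | (∀ i, 0 ≤ x i) ∧ (∀ i ∈ I ∪ J, x i = 0) ∧
              ∀ S ∈ C, Disjoint S I → (1 : ℝ) ≤ ∑ i ∈ S, x i},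
          ∀ i : Fin n, ∃ z : ℤ, x i = (z : ℝ)) ∧
      ∃ r : ℕ, 4 ≤ r ∧ (∀ S ∈ C, r ≤ S.card) ∧
        (∀ p q : Fin n, p ≠ q →
          ∃! ℓ : Finset (Fin n), ℓ ∈ C ∧ ℓ.card = r ∧ p ∈ ℓ ∧ q ∈ ℓ) ∧
        (∀ ℓ ∈ C, ∀ m ∈ C, ℓ.card = r → m.card = r → ℓ ≠ m →
          ∃! p : Fin n, p ∈ ℓ ∧ p ∈ m) ∧
        (∃ F : Finset (Fin n), F.card = 4 ∧
          ∀ ℓ ∈ C, ℓ.card = r → (F ∩ ℓ).card ≤ 2)) := by
  rintro ⟨n, C, hanti, -, hmin, r, hr4, hsize, hjoin, hmeet, F, hF4, hF⟩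
  obtain ⟨q, rfl⟩ : ∃ q, r = q + 1 := ⟨r - 1, by omega⟩
  have hplane : Pool.Agent.H8.PP.IsPlane (C.filter (fun S => S.card = q + 1)) q := by
    apply Pool.Agent.H8.PP.isPlane_of_incidence
    · intro ℓ hℓ
      exact (Finset.mem_filter.mp hℓ).2
    · intro x y hxy
      obtain ⟨ℓ, hℓ, hu⟩ := hjoin x y hxy
      refine ⟨ℓ, ⟨Finset.mem_filter.mpr ⟨hℓ.1, hℓ.2.1⟩, hℓ.2.2⟩, ?_⟩
      intro m hm
      have hm' := Finset.mem_filter.mp hm.1
      exact hu m ⟨hm'.1, hm'.2, hm.2⟩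
    · intro ℓ hℓ m hm hne
      have hℓ' := Finset.mem_filter.mp hℓ
      have hm' := Finset.mem_filter.mp hm
      exact hmeet ℓ hℓ'.1 m hm'.1 hℓ'.2 hm'.2 hne
    · refine ⟨F, hF4, ?_⟩
      intro ℓ hℓ
      have hℓ' := Finset.mem_filter.mp hℓ
      exact hF ℓ hℓ'.1 hℓ'.2
  have hcore : Pool.Agent.H8.PP.Core C (C.filter (fun S => S.card = q + 1)) q := by
    refine ⟨hplane, hmin, Finset.filter_subset _ _, hsize, ?_, ?_⟩
    · intro S hS hc
      exact Finset.mem_filter.mpr ⟨hS, hc⟩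
    · intro S hS T hT hST
      by_contra hne
      exact hanti hS hT hne hST
  exact hcore.false (by omega)

end Pool.Agent.S11942
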