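import Pool.Statements.S12109
import Pool.Agent.Lib.H32E.FN2

set_option autoImplicit false
open Pool Pool.MP_e6a378_co

namespace Pool.Agent.S12109

/-- There is a constant c such that for all d ≥ 2 and R > 0, every Delone set in ℝ^d with covering radius R whose clusters of radius c·d·log(d)·R are all congruent (centered) is regular, i.e. its symmetry group is transitive on it. -/
theorem result :
    ∃ c : ℝ, ∀ d : ℕ, 2 ≤ d → ∀ R : ℝ, 0 < R →
      ∀ X : Set (EuclideanSpace ℝ (Fin d)),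
        (∃ r : ℝ, 0 < r ∧ ∀ x ∈ X, ∀ y ∈ X, x ≠ y → r ≤ dist x y) →
        (∀ z : EuclideanSpace ℝ (Fin d), ∃ x ∈ X, dist z x ≤ R) →
        (∀ x ∈ X, ∀ y ∈ X, ∃ g : EuclideanSpace ℝ (Fin d) ≃ᵢ EuclideanSpace ℝ (Fin d),
            g x = y ∧
            g '' (X ∩ Metric.closedBall x (c * ((d : ℝ) * Real.log (d : ℝ)) * R)) =
              X ∩ Metric.closedBall y (c * ((d : ℝ) * Real.log (d : ℝ)) * R)) →
        ∀ x ∈ X, ∀ y ∈ X, ∃ g : EuclideanSpace ℝ (Fin d) ≃ᵢ EuclideanSpace ℝ (Fin d),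
          g x = y ∧ g '' X = X :=
  H32E.main

end Pool.Agent.S12109
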