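import Pool.Statements.S12514
import Pool.Agent.Lib.Helper13.PstGraph

set_option autoImplicit false
open Pool Pool.MP_f96bdb_co

namespace Pool.Agent.S12514

/-- The negation of the preceding statement: There are k > 3 and c > 0 such that every finite connected graph with perfect state transfer between two distinct vertices (exp(itA)e_u = γe_v, ∣γ∣=1) has edge count at least c·D^k, D its diameter. -/
theorem result :
    ¬ (∃ k : ℝ, 3 < k ∧ ∃ c : ℝ, 0 < c ∧
      ∀ (V : Type) [Fintype V] [DecidableEq V] (G : SimpleGraph V) [DecidableRel G.Adj],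
        G.Connected →
        (∃ u v : V, u ≠ v ∧ ∃ t : ℝ, ∃ γ : ℂ, ‖γ‖ = 1 ∧
          (NormedSpace.exp ((Complex.I * (t : ℂ)) • G.adjMatrix ℂ)).mulVec (Pi.single u 1)
            = Pi.single v γ) →
        c * (G.diam : ℝ) ^ k ≤ (G.edgeFinset.card : ℝ)) := by
  rintro ⟨k, hk, c, hc, h⟩
  classical
  -- for every `n ≥ 1`: `c * n ^ k ≤ 72 * n ^ 3`
  have key : ∀ n : ℕ, 1 ≤ n → c * (n : ℝ) ^ k ≤ 72 * (n : ℝ) ^ 3 := by
    intro n hn
    have h0 : 0 < 2 * n := by omega
    have hpos : 0 < 4 * PstGraph.sz n 0 := by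
      have := PstGraph.sz_pos h0; omega
    let w : PstGraph.Wn n := ⟨⟨0, h0⟩, ⟨0, hpos⟩⟩
    have h1 := h (PstGraph.Wn n × Bool)
      (SimpleGraph.boxProd (PstGraph.Hn n) (⊤ : SimpleGraph Bool))
      ((PstGraph.Hn_connected hn).boxProd SimpleGraph.connected_top)
      ⟨(w, false), (w, true), by simp, Real.pi / 2, Complex.I, by simp, by
        rw [PstGraph.exp_boxProd (PstGraph.Hn n) (PstGraph.eigen_Hn n)]
        ext ⟨w', s⟩
        rw [Matrix.mulVec_single_one]
        simp only [Matrix.col_apply, Matrix.of_apply]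
        by_cases hw : w' = w
        · subst hw
          cases s
          · simp
          · simp
        · rw [if_neg (fun h => hw h.1), Pi.single_eq_of_ne]
          intro h
          exact hw (congrArg Prod.fst h)⟩
    have h2 := PstGraph.diam_ge hn
    have h3 := PstGraph.edges_le n hn
    have h4 : (n : ℝ) ^ k
        ≤ ((SimpleGraph.boxProd (PstGraph.Hn n) (⊤ : SimpleGraph Bool)).diam : ℝ) ^ k :=
      Real.rpow_le_rpow (by positivity) (by exact_mod_cast h2) (by linarith)
    calc c * (n : ℝ) ^ k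
        ≤ c * ((SimpleGraph.boxProd (PstGraph.Hn n) (⊤ : SimpleGraph Bool)).diam : ℝ) ^ k :=
          mul_le_mul_of_nonneg_left h4 hc.le
      _ ≤ _ := h1
      _ ≤ 72 * (n : ℝ) ^ 3 := by exact_mod_cast h3
  have hlim := tendsto_rpow_atTop (show 0 < k - 3 by linarith)
  obtain ⟨N, hN⟩ := (hlim.comp tendsto_natCast_atTop_atTop).eventually_gt_atTop (72 / c)
    |>.and (Filter.eventually_ge_atTop 1) |>.exists
  simp only [Function.comp] at hN
  have hN1 : (0 : ℝ) < N := by exact_mod_cast hN.2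
  have h5 := key N hN.2
  have h6 : (N : ℝ) ^ k = (N : ℝ) ^ (k - 3) * (N : ℝ) ^ 3 := by
    rw [← Real.rpow_natCast, ← Real.rpow_add hN1]
    norm_num
  have h7 : 72 < c * (N : ℝ) ^ (k - 3) := by
    have := (div_lt_iff₀' hc).mp hN.1
    linarith
  rw [h6] at h5
  have h8 : 72 * (N : ℝ) ^ 3 < c * (N : ℝ) ^ (k - 3) * (N : ℝ) ^ 3 :=
    mul_lt_mul_of_pos_right h7 (by positivity)
  nlinarith

end Pool.Agent.S12514
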