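import Pool.Statements.S12532
import Pool.Agent.H78.Lune

set_option autoImplicit false
open Pool Pool.MP_fa71e0_co

namespace Pool.Agent.S12532

open Pool.Agent.H78Lune

theorem field8 : (2 : GaloisField 2 3) = 0 ∧ (∀ x : GaloisField 2 3, x ^ 8 = x) ∧
    ∃ t : GaloisField 2 3, t ^ 2 + t ≠ 0 := by
  have h2 : (2 : GaloisField 2 3) = 0 := CharTwo.two_eq_zero
  have hc : Nat.card (GaloisField 2 3) = 8 := by
    rw [GaloisField.card 2 3 (by norm_num)]
    norm_num
  have : Fintype (GaloisField 2 3) := Fintype.ofFinite _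
  have hc' : Fintype.card (GaloisField 2 3) = 8 := by rw [← Nat.card_eq_fintype_card, hc]
  refine ⟨h2, fun x => ?_, ?_⟩
  · have := FiniteField.pow_card x
    rwa [hc'] at this
  · by_contra hno
    push Not at hno
    classical
    have hsub : (Finset.univ : Finset (GaloisField 2 3)) ⊆ {0, 1} := by
      intro t _
      have h := hno t
      have h1 : t * (t - 1) = 0 := by linear_combination h - t * h2
      rcases mul_eq_zero.mp h1 with h3 | h3
      · simp [h3]
      · simp [sub_eq_zero.mp h3]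
    have h4 := Finset.card_le_card hsub
    rw [Finset.card_univ, hc'] at h4
    have h5 : ({0, 1} : Finset (GaloisField 2 3)).card ≤ 2 := Finset.card_le_two
    omega

/-- The negation of the preceding statement: In a finite projective plane, if a collineation group fixes a line ℓ and is doubly transitive on its points, then for each c on ℓ, elations with centre c and axis ℓ move any point ≠ c of a line M ≠ ℓ through c to any other such point. -/
theorem result :
    ¬ (∀ (P L : Type) [Membership P L] [Configuration.ProjectivePlane P L] [Finite P] [Finite L]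
    (Γ : Subgroup (Equiv.Perm P × Equiv.Perm L)) (ℓ : L),
    (∀ g ∈ Γ, ∀ (p : P) (m : L), (p ∈ m ↔ g.1 p ∈ g.2 m)) →
    (∀ g ∈ Γ, g.2 ℓ = ℓ) →
    (∀ a b c d : P, a ∈ ℓ → b ∈ ℓ → c ∈ ℓ → d ∈ ℓ → a ≠ b → c ≠ d →
      ∃ g ∈ Γ, g.1 a = c ∧ g.1 b = d) →
    ∀ c : P, c ∈ ℓ → ∀ M : L, M ≠ ℓ → c ∈ M →
      ∀ x y : P, x ∈ M → y ∈ M → x ≠ c → y ≠ c →
        ∃ σ : Equiv.Perm P × Equiv.Perm L,
          (∀ (p : P) (m : L), (p ∈ m ↔ σ.1 p ∈ σ.2 m)) ∧
          (∀ p : P, p ∈ ℓ → σ.1 p = p) ∧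
          (∀ m : L, c ∈ m → σ.2 m = m) ∧
          σ.1 x = y) := by
  intro H
  obtain ⟨h2, h8, t, ht⟩ := field8
  let _ := plane h2 h8
  obtain ⟨σ, h1, h3, h4, h5⟩ := H (Ln (GaloisField 2 3)) (Pt (GaloisField 2 3)) (grp o) o
    (fun g hg => hg.1) (fun g hg => hg.2)
    (fun a b c d ha hb hc hd hab hcd => two_trans h2 h8 ha hb hc hd hab hcd)
    (.vert 0 0) ⟨rfl, rfl⟩ .top (by intro h; cases h) trivial .lin (.vert 1 0) trivial trivial
    (by intro h; cases h) (fun h => zero_ne_one (Ln.vert.inj h).1.symm)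
  exact no_sigma h2 h8 ht σ h1 h3 h4 h5

end Pool.Agent.S12532
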