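import Pool.Statements.S12643
import Pool.Agent.Lib.Helper22.Packing

set_option autoImplicit false
open Pool Pool.MP_ff42d4_co

namespace Pool.Agent.S12643

open Pool.Agent.Lib.Helper22

/-- Centres indexed by the disjoint sum. -/
noncomputable def pt (x : E) : Fin 8 ⊕ Fin 8 → EuclideanSpace ℝ (Fin 3) :=
  Sum.elim (fun v => WithLp.toLp 2 (x.1 v)) (fun c => WithLp.toLp 2 (x.2 c))

/-- The stress attached to a weight on the forty contacts. -/
def stress (φ : F) : Fin 8 ⊕ Fin 8 → Fin 8 ⊕ Fin 8 → ℝ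
  | .inl _, .inl _ => 0
  | .inl v, .inr c => ∑ s, if nb v s = c then φ v s else 0
  | .inr c, .inl v => ∑ s, if nb v s = c then φ v s else 0
  | .inr _, .inr _ => 0

theorem stress_symm (φ : F) (i j : Fin 8 ⊕ Fin 8) : stress φ i j = stress φ j i := by
  rcases i with v | c <;> rcases j with w | d <;> rfl

theorem nb_injective (v : Fin 8) : Function.Injective (nb v) := by
  revert v
  decide

theorem stress_nb (φ : F) (v : Fin 8) (s : Fin 5) : stress φ (.inl v) (.inr (nb v s)) = φ v s := by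
  simp only [stress]
  rw [Finset.sum_eq_single s]
  · simp
  · intro t _ ht
    rw [if_neg]
    intro h
    exact ht (nb_injective v h)
  · simp

theorem dist_pt_sq (a b : Fin 3 → ℝ) :
    dist (WithLp.toLp 2 a : EuclideanSpace ℝ (Fin 3)) (WithLp.toLp 2 b)
      = Real.sqrt (∑ k, (a k - b k) ^ 2) := by
  rw [EuclideanSpace.dist_eq]
  simp [Real.dist_eq, sq_abs]

theorem le_dist_of_sq (a b : Fin 3 → ℝ) (t : ℝ) (h : t ^ 2 ≤ ∑ k, (a k - b k) ^ 2) :
    t ≤ dist (WithLp.toLp 2 a : EuclideanSpace ℝ (Fin 3)) (WithLp.toLp 2 b) := by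
  rw [dist_pt_sq]
  exact Real.le_sqrt_of_sq_le h

theorem dist_eq_of_sq (a b : Fin 3 → ℝ) (t : ℝ) (ht : 0 ≤ t) (h : ∑ k, (a k - b k) ^ 2 = t ^ 2) :
    dist (WithLp.toLp 2 a : EuclideanSpace ℝ (Fin 3)) (WithLp.toLp 2 b) = t := by
  rw [dist_pt_sq, h, Real.sqrt_sq ht]

theorem result :
    ∃ n : ℕ, ∃ r : Fin n → ℝ, ∃ p : Fin n → EuclideanSpace ℝ (Fin 3), ∃ ω : Fin n → Fin n → ℝ,
      (∀ i, 0 < r i) ∧
      AlgebraicIndependent ℚ r ∧
      (∀ i j, i ≠ j → r i + r j ≤ dist (p i) (p j)) ∧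
      (∀ i j, ω i j = ω j i) ∧
      (∀ i j, ω i j ≠ 0 → i ≠ j ∧ dist (p i) (p j) = r i + r j) ∧
      (∃ i j, ω i j ≠ 0) ∧
      (∀ i, ∑ j, ω i j • (p j - p i) = 0) := by
  obtain ⟨x, ρ, hA, hg, hcon, φ, hφ, hann⟩ := exists_generic
  have hsum : ∀ v s, ∑ k, (x.1 v k - x.2 (nb v s) k) ^ 2 = (ρ (.inl v) + ρ (.inr (nb v s))) ^ 2 :=
    hcon
  have hpack : ∀ i j, i ≠ j → ρ i + ρ j ≤ dist (pt x i) (pt x j) := by
    rintro (v | c) (w | d) hij
    · exact le_dist_of_sq _ _ _ (hg.pp v w (fun h => hij (by rw [h]))).le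
    · apply le_dist_of_sq
      by_cases h : ∀ s, nb v s ≠ d
      · exact (hg.pc v d h).le
      · push Not at h
        obtain ⟨s, rfl⟩ := h
        exact (hsum v s).symm.le
    · rw [dist_comm, add_comm]
      apply le_dist_of_sq
      by_cases h : ∀ s, nb w s ≠ c
      · exact (hg.pc w c h).le
      · push Not at h
        obtain ⟨s, rfl⟩ := h
        exact (hsum w s).symm.le
    · exact le_dist_of_sq _ _ _ (hg.cc c d (fun h => hij (by rw [h]))).le
  have hcontact : ∀ v c, stress φ (.inl v) (.inr c) ≠ 0 →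
      dist (pt x (.inl v)) (pt x (.inr c)) = ρ (.inl v) + ρ (.inr c) := by
    intro v c h
    by_cases hc : ∀ s, nb v s ≠ c
    · exfalso
      apply h
      simp only [stress]
      apply Finset.sum_eq_zero
      intro s _
      rw [if_neg (hc s)]
    · push Not at hc
      obtain ⟨s, rfl⟩ := hc
      exact dist_eq_of_sq _ _ _ (add_pos (hg.pos _) (hg.pos _)).le (hsum v s)
  have hsupp : ∀ i j, stress φ i j ≠ 0 → i ≠ j ∧ dist (pt x i) (pt x j) = ρ i + ρ j := by
    rintro (v | c) (w | d) h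
    · exact absurd rfl h
    · exact ⟨by simp, hcontact v d h⟩
    · refine ⟨by simp, ?_⟩
      rw [dist_comm, add_comm]
      exact hcontact w c h
    · exact absurd rfl h
  have hnz : ∃ i j, stress φ i j ≠ 0 := by
    by_contra hcon'
    push Not at hcon'
    apply hφ
    funext v s
    rw [← stress_nb φ v s]
    exact hcon' _ _
  have heq : ∀ i, ∑ j, stress φ i j • (pt x j - pt x i) = 0 := by
    rintro (v | c)
    · rw [Fintype.sum_sum_type]
      have h1 : ∑ w, stress φ (.inl v) (.inl w) • (pt x (.inl w) - pt x (.inl v)) = 0 := by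
        apply Finset.sum_eq_zero
        intro w _
        simp [stress]
      rw [h1, zero_add]
      ext k
      have hl := equilibrium_left x φ hann v k
      simp only [stress, pt, Sum.elim_inl, Sum.elim_inr, WithLp.ofLp_sum, Finset.sum_apply,
        PiLp.smul_apply, PiLp.sub_apply, smul_eq_mul, PiLp.zero_apply, Finset.sum_mul]
      rw [Finset.sum_comm]
      have h2 : ∀ s : Fin 5, ∑ c : Fin 8, (if nb v s = c then φ v s else 0) * (x.2 c k - x.1 v k)
          = - (φ v s * (x.1 v k - x.2 (nb v s) k)) := by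
        intro s
        rw [Finset.sum_eq_single (nb v s)]
        · rw [if_pos rfl]; ring
        · intro b _ hb
          rw [if_neg (fun h => hb h.symm), zero_mul]
        · simp
      simp only [h2, Finset.sum_neg_distrib, hl, neg_zero]
    · rw [Fintype.sum_sum_type]
      have h1 : ∑ w, stress φ (.inr c) (.inr w) • (pt x (.inr w) - pt x (.inr c)) = 0 := by
        apply Finset.sum_eq_zero
        intro w _
        simp [stress]
      rw [h1, add_zero]
      ext k
      have hr := equilibrium_right x φ hann c k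
      simp only [stress, pt, Sum.elim_inl, Sum.elim_inr, WithLp.ofLp_sum, Finset.sum_apply,
        PiLp.smul_apply, PiLp.sub_apply, smul_eq_mul, PiLp.zero_apply, Finset.sum_mul, ite_mul,
        zero_mul]
      exact hr
  -- transport to `Fin 16`
  let e : Fin 8 ⊕ Fin 8 ≃ Fin 16 := finSumFinEquiv
  refine ⟨16, ρ ∘ e.symm, pt x ∘ e.symm, fun i j => stress φ (e.symm i) (e.symm j), ?_, ?_, ?_, ?_,
    ?_, ?_, ?_⟩
  · intro i
    exact hg.pos _
  · exact hA.comp _ e.symm.injective
  · intro i j hij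
    exact hpack _ _ (fun h => hij (e.symm.injective h))
  · intro i j
    exact stress_symm φ _ _
  · intro i j h
    obtain ⟨h1, h2⟩ := hsupp _ _ h
    exact ⟨fun h' => h1 (by rw [h']), h2⟩
  · obtain ⟨i, j, h⟩ := hnz
    exact ⟨e i, e j, by simpa using h⟩
  · intro i
    rw [← Equiv.sum_comp e]
    simp only [Function.comp_apply, Equiv.symm_apply_apply]
    exact heq (e.symm i)

end Pool.Agent.S12643
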