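import Pool.Statements.S12876
import Pool.Agent.Lib.Helper86.Valdivia
import Pool.Agent.Lib.Helper86.OmegaTwo
import Pool.Agent.Lib.Helper86.ScatteredRank

set_option autoImplicit false
open Pool Pool.MP_206312_gt

namespace Pool.Agent.S12876

/-- The negation of the preceding statement: There is a compact Hausdorff scattered space embedded in a cube [0,1]^Γ so that points with coordinates tending to zero are dense, and which contains a homeomorphic copy of the ordinal interval [0, ω₂]. -/
theorem result :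
    ¬ (∃ (X : Type) (_ : TopologicalSpace X), CompactSpace X ∧ T2Space X ∧
      (∀ A : Set X, A.Nonempty → ∃ x ∈ A, ∃ U : Set X, IsOpen U ∧ U ∩ A = {x}) ∧
      (∃ (Γ : Type) (e : X → (Γ → ℝ)), Topology.IsEmbedding e ∧
        (∀ x γ, e x γ ∈ Set.Icc (0 : ℝ) 1) ∧
        Dense {x : X | ∀ ε : ℝ, 0 < ε → {γ : Γ | ε ≤ |e x γ|}.Finite}) ∧
      ∃ f : Set.Iic (Cardinal.aleph.{0} 2).ord → X, Topology.IsEmbedding f) := by
  rintro ⟨X, _, hcomp, _, hscat, ⟨Γ, e, he, _, hdense⟩, f, hf⟩
  -- points of the dense set have countable support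
  have hdense' : Dense {x : X | {γ : Γ | e x γ ≠ 0}.Countable} := by
    refine hdense.mono (fun x hx => ?_)
    have hsub : {γ : Γ | e x γ ≠ 0} ⊆ ⋃ n : ℕ, {γ : Γ | 1 / ((n : ℝ) + 1) ≤ |e x γ|} := by
      intro γ hγ
      obtain ⟨n, hn⟩ := exists_nat_one_div_lt (abs_pos.mpr hγ)
      exact Set.mem_iUnion.mpr ⟨n, hn.le⟩
    refine Set.Countable.mono hsub (Set.countable_iUnion (fun n => ?_))
    exact (hx _ (by positivity)).countable
  -- some point of the copy of `[0, ω₂]` has a support of size greater than `ℵ₁`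
  obtain ⟨α, hα⟩ := Pool.Agent.Lib.Helper86.exists_big_support (fun β => e (f β))
    (he.continuous.comp hf.continuous) (he.injective.comp hf.injective)
  -- rank function
  obtain ⟨rk, U, hU, hxU, hrk⟩ := Pool.Agent.Lib.Helper86.exists_rank hscat
  obtain ⟨x, g, hx⟩ := Pool.Agent.Lib.Helper86.exists_seq e he hdense' (f α) _ hα U hU hxU
  -- infinite descent
  have hne : ∀ n, x (n + 1) ≠ x n := by
    intro n h
    obtain ⟨h1, -, h3, h4⟩ := hx n
    rw [h, h3] at h4
    exact h1 h4.symm
  have hdesc : ∀ n, rk (x (n + 1)) < rk (x n) := fun n => hrk _ _ (hx n).2.1 (hne n)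
  exact (RelEmbedding.natGT (r := (· < ·)) (fun n => rk (x n)) hdesc).not_wellFounded
    Ordinal.lt_wf

end Pool.Agent.S12876
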