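import Pool.Statements.S13025
import Pool.Agent.H83.Aposyndesis

set_option autoImplicit false
open Pool Pool.MP_39b482_gt

namespace Pool.Agent.S13025

/-- Every noncompact Hausdorff second-countable n-manifold with n>1 that has no two-point compactification has Stone–Čech remainder that is a continuum in which any two distinct points are separated by a subcontinuum containing one in its interior and missing the other. -/
theorem result :
    ∀ (n : ℕ) (M : Type) [TopologicalSpace M] [T2Space M] [SecondCountableTopology M]
      [ChartedSpace (EuclideanSpace ℝ (Fin n)) M],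
      1 < n → NoncompactSpace M →
      (¬ ∃ (Y : Type) (τ : TopologicalSpace Y), CompactSpace Y ∧ T2Space Y ∧
          ∃ f : M → Y, Topology.IsEmbedding f ∧ DenseRange f ∧ (Set.range f)ᶜ.ncard = 2) →
      (IsCompact ((Set.range (stoneCechUnit : M → StoneCech M))ᶜ) ∧
       IsConnected ((Set.range (stoneCechUnit : M → StoneCech M))ᶜ) ∧
       ∀ x ∈ (Set.range (stoneCechUnit : M → StoneCech M))ᶜ,
         ∀ y ∈ (Set.range (stoneCechUnit : M → StoneCech M))ᶜ, x ≠ y →
           ∃ K : Set (StoneCech M), K ⊆ (Set.range (stoneCechUnit : M → StoneCech M))ᶜ ∧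
             IsCompact K ∧ IsConnected K ∧ y ∉ K ∧
             ∃ U : Set (StoneCech M), IsOpen U ∧ x ∈ U ∧
               U ∩ (Set.range (stoneCechUnit : M → StoneCech M))ᶜ ⊆ K) := by
  intro n M _ _ _ _ hn hM h
  have : LocallyCompactSpace M := ChartedSpace.locallyCompactSpace (EuclideanSpace ℝ (Fin n)) M
  have hpre := Pool.Agent.H83.isPreconnected_remainder h
  have hcpt : IsCompact ((Set.range (stoneCechUnit : M → StoneCech M))ᶜ) :=
    Pool.Agent.H83.isCompact_remainder
  refine ⟨hcpt, ⟨Pool.Agent.H83.remainder_nonempty, hpre⟩, ?_⟩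
  intro x hx y hy hxy
  exact Pool.Agent.H83.aposyndetic hn
    (fun z => (chartAt (EuclideanSpace ℝ (Fin n)) z).transHomeomorph
      (EuclideanSpace.equiv (Fin n) ℝ).toHomeomorph)
    (fun z => by simp) hpre hx hxy

end Pool.Agent.S13025
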