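import Pool.Statements.S13580

set_option autoImplicit false
open Pool Pool.MP_925f0d_gt

namespace Pool.Agent.S13580

/-- The shear `x ↦ x + (x₀² + x₁²) e₂` of `ℝ³`, as a homeomorphism. -/
noncomputable def shear : (Fin 3 → ℝ) ≃ₜ (Fin 3 → ℝ) where
  toFun x := ![x 0, x 1, x 2 + (x 0 ^ 2 + x 1 ^ 2)]
  invFun x := ![x 0, x 1, x 2 - (x 0 ^ 2 + x 1 ^ 2)]
  left_inv x := by
    ext j
    fin_cases j <;> simp
  right_inv x := by
    ext j
    fin_cases j <;> simp
  continuous_toFun := by
    refine continuous_pi fun j => ?_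
    fin_cases j <;> simp <;> fun_prop
  continuous_invFun := by
    refine continuous_pi fun j => ?_
    fin_cases j <;> simp <;> fun_prop

lemma shear_apply (x : Fin 3 → ℝ) : shear x = ![x 0, x 1, x 2 + (x 0 ^ 2 + x 1 ^ 2)] := rfl

/-- Points fixed by the shear lie on the last coordinate axis. -/
lemma fixed_axis (x : Fin 3 → ℝ) (h : shear x = x) : x 0 = 0 ∧ x 1 = 0 := by
  have h2 := congrFun h 2
  simp [shear_apply] at h2
  have h0 : x 0 ^ 2 = 0 := by nlinarith [sq_nonneg (x 0), sq_nonneg (x 1)]
  have h1 : x 1 ^ 2 = 0 := by nlinarith [sq_nonneg (x 0), sq_nonneg (x 1)]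
  exact ⟨by simpa using h0, by simpa using h1⟩

/-- The negation of the preceding statement: For k≥3, every continuous self-map φ of the one-point compactification of ℝ^k with (1−z)φ(x)=φ(φ(zx)(1−z)/z) for real z≠0,1 is the identity, constant 0, constant ∞, or conjugate by a 1-homogeneous homeomorphism to φ_1 or some φ_∞ with d≠0, Σd=0. -/
theorem result :
    ¬ (∀ k : ℕ, 3 ≤ k → ∀ φ : OnePoint (Fin k → ℝ) → OnePoint (Fin k → ℝ), Continuous φ →
    (∀ (x : Fin k → ℝ) (z : ℝ), z ≠ 0 → z ≠ 1 →
      (Option.map (fun v : Fin k → ℝ => (1 - z) • v) (φ (OnePoint.some x)) : OnePoint (Fin k → ℝ)) =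
        φ (Option.map (fun v : Fin k → ℝ => ((1 - z) / z) • v) (φ (OnePoint.some (z • x))))) →
    (∀ p, φ p = p) ∨ (∀ p, φ p = OnePoint.some 0) ∨ (∀ p, φ p = OnePoint.infty) ∨
    ∃ ℓ : (Fin k → ℝ) ≃ₜ (Fin k → ℝ), (∀ (c : ℝ) (x : Fin k → ℝ), ℓ (c • x) = c • ℓ x) ∧
      ((∀ x : Fin k → ℝ, φ (OnePoint.some (ℓ x)) =
          if ∑ i, (x i + 1) ^ 2 = 0 then OnePoint.infty
          else OnePoint.some (ℓ (fun j => (∑ i, x i ^ 2 + (k : ℝ) * x j) / ∑ i, (x i + 1) ^ 2))) ∨
       ∃ d : Fin k → ℝ, d ≠ 0 ∧ ∑ i, d i = 0 ∧
         ∀ x : Fin k → ℝ, φ (OnePoint.some (ℓ x)) =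
           OnePoint.some (ℓ (fun j => d j * (∑ i, x i) ^ 2 + x j)))) := by
  intro H
  have hk : 3 ≤ 3 := le_refl 3
  have key := H 3 hk (OnePoint.map shear) shear.onePointCongr.continuous ?_
  · have hval : ∀ x : Fin 3 → ℝ, OnePoint.map shear (OnePoint.some x) = OnePoint.some (shear x) :=
      fun x => rfl
    rcases key with h | h | h | ⟨ℓ, hℓ, h | ⟨d, -, -, h⟩⟩
    · -- the identity
      have h1 := h (OnePoint.some ![1, 0, 0])
      rw [hval] at h1
      have h2 := OnePoint.coe_injective h1
      have h3 := (fixed_axis _ h2).1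
      simp at h3
    · -- constant zero
      have h1 := h (OnePoint.some ![1, 0, 0])
      rw [hval] at h1
      have h2 := OnePoint.coe_injective h1
      have h3 := congrFun h2 0
      simp [shear_apply] at h3
    · -- constant infinity
      have h1 := h (OnePoint.some 0)
      rw [hval] at h1
      exact OnePoint.coe_ne_infty _ h1
    · -- the projective map
      have h1 := h (fun _ => -1)
      rw [hval] at h1
      simp at h1
    · -- the polynomial map
      -- two independent vectors in the plane of fixed points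
      set u : Fin 3 → ℝ := ![1, -1, 0] with hu
      set v : Fin 3 → ℝ := ![0, 1, -1] with hv
      have fixed : ∀ x : Fin 3 → ℝ, ∑ i, x i = 0 → (ℓ x) 0 = 0 ∧ (ℓ x) 1 = 0 := by
        intro x hx
        have h1 := h x
        rw [hval] at h1
        have h2 := OnePoint.coe_injective h1
        have h3 : (fun j => d j * (∑ i, x i) ^ 2 + x j) = x := by
          funext j
          rw [hx]
          ring
        rw [h3] at h2
        exact fixed_axis _ h2
      have hu0 := fixed u (by simp [hu, Fin.sum_univ_three])
      have hv0 := fixed v (by simp [hv, Fin.sum_univ_three])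
      have h0 : ℓ 0 = 0 := by
        have := hℓ 0 0
        simpa using this
      have hu2 : ℓ u 2 ≠ 0 := by
        intro hc
        have : ℓ u = 0 := by
          funext j
          fin_cases j
          · exact hu0.1
          · exact hu0.2
          · exact hc
        rw [← h0] at this
        have h4 := congrFun (ℓ.injective this) 0
        simp [hu] at h4
      have heq : ℓ ((ℓ v 2 / ℓ u 2) • u) = ℓ v := by
        rw [hℓ]
        funext j
        fin_cases j
        · simp [hu0.1, hv0.1]
        · simp [hu0.2, hv0.2]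
        · simp only [Pi.smul_apply, smul_eq_mul]
          change ℓ v 2 / ℓ u 2 * ℓ u 2 = ℓ v 2
          field_simp
      have h5 := ℓ.injective heq
      have h6 := congrFun h5 2
      simp [hu, hv] at h6
  · -- the projective translation equation
    intro x z hz _
    change OnePoint.some ((1 - z) • shear x) =
      OnePoint.some (shear (((1 - z) / z) • shear (z • x)))
    congr 1
    funext j
    fin_cases j
    · simp [shear_apply]
      field_simp
    · simp [shear_apply]
      field_simp
    · simp [shear_apply]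
      field_simp
      ring

end Pool.Agent.S13580
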