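import Pool.Statements.S14166
import Pool.Agent.H87.DDelta.Ccc

set_option autoImplicit false
open Pool Pool.MP_eb94e6_gt

namespace Pool.Agent.S14166

/-- The negation of the preceding statement: For every compact Hausdorff space X, the supremum over dense D of the least number of discrete sets whose union is dense in D equals the least number of disjoint families of nonempty open sets whose union is a π-base of X. -/
theorem result :
    ¬ (∀ (X : Type) [TopologicalSpace X], CompactSpace X → T2Space X →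
      (⨆ D : {D : Set X // Dense D},
          sInf {κ : Cardinal.{0} | ∃ (ι : Type) (A : ι → Set X),
            Cardinal.mk ι = κ ∧
            (∀ i, A i ⊆ D.1 ∧ DiscreteTopology ↥(A i)) ∧
            D.1 ⊆ closure (⋃ i, A i)}) =
      sInf {κ : Cardinal.{0} | ∃ (ι : Type) (C : ι → Set (Set X)),
        Cardinal.mk ι = κ ∧
        (∀ i, (C i).PairwiseDisjoint id) ∧
        (∀ i, ∀ U ∈ C i, IsOpen U ∧ U.Nonempty) ∧
        ∀ V : Set X, IsOpen V → V.Nonempty → ∃ i, ∃ U ∈ C i, U ⊆ V}) := by
  intro h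
  have h1 := h Pool.Agent.H87.DDelta.X inferInstance inferInstance
  have hunc : Uncountable Pool.Agent.H87.DDelta.I := by
    have h2 : Uncountable (ℕ → Bool) := by
      rw [← Cardinal.aleph0_lt_mk_iff]
      simp
      exact Cardinal.cantor Cardinal.aleph0
    exact Function.Injective.uncountable (f := (Sum.inl : (ℕ → Bool) → Pool.Agent.H87.DDelta.I))
      Sum.inl_injective
  -- the left side is at most `ℵ₀`
  have hleft : (⨆ D : {D : Set Pool.Agent.H87.DDelta.X // Dense D},
          sInf {κ : Cardinal.{0} | ∃ (ι : Type) (A : ι → Set Pool.Agent.H87.DDelta.X),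
            Cardinal.mk ι = κ ∧
            (∀ i, A i ⊆ D.1 ∧ DiscreteTopology ↥(A i)) ∧
            D.1 ⊆ closure (⋃ i, A i)}) ≤ Cardinal.aleph0 := by
    apply ciSup_le'
    rintro ⟨D, hD⟩
    obtain ⟨A, hA, hdense⟩ := Pool.Agent.H87.DDelta.exists_discrete hD
    apply csInf_le'
    refine ⟨ℕ, A, Cardinal.mk_nat, hA, ?_⟩
    rw [hdense.closure_eq]
    exact Set.subset_univ _
  rw [h1] at hleft
  -- the right side is attained
  have hne : {κ : Cardinal.{0} | ∃ (ι : Type) (C : ι → Set (Set Pool.Agent.H87.DDelta.X)),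
        Cardinal.mk ι = κ ∧
        (∀ i, (C i).PairwiseDisjoint id) ∧
        (∀ i, ∀ U ∈ C i, IsOpen U ∧ U.Nonempty) ∧
        ∀ V : Set Pool.Agent.H87.DDelta.X, IsOpen V → V.Nonempty →
          ∃ i, ∃ U ∈ C i, U ⊆ V}.Nonempty := by
    refine ⟨_, {U : Set Pool.Agent.H87.DDelta.X // IsOpen U ∧ U.Nonempty}, fun U => {U.1}, rfl,
      ?_, ?_, ?_⟩
    · intro U
      exact Set.pairwiseDisjoint_singleton _ _
    · intro U V hV
      rw [Set.mem_singleton_iff] at hV
      rw [hV]
      exact U.2
    · intro V hV hVne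
      exact ⟨⟨V, hV, hVne⟩, V, rfl, subset_rfl⟩
  obtain ⟨ι, C, hι, hC, hCo, hb⟩ := csInf_mem hne
  rw [← hι] at hleft
  have : Countable ι := Cardinal.mk_le_aleph0_iff.1 hleft
  exact Pool.Agent.H87.DDelta.no_sigma_disjoint C hC hCo hb

end Pool.Agent.S14166
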