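import Pool.Statements.S14399
import Pool.Agent.Lib.H57CM.M5

set_option autoImplicit false
open Pool Pool.MP_12fa5c_lc

namespace Pool.Agent.S14399

/-- For every number field K there is a universal first-order formula in the language of rings, with one free variable, that holds in K exactly at the elements that are images of integers. -/
theorem result :
    ∀ (K : Type) [Field K] [NumberField K] [FirstOrder.Ring.CompatibleRing K],
      ∃ φ : FirstOrder.Language.ring.Formula (Fin 1),
        FirstOrder.Language.BoundedFormula.IsUniversal φ ∧
          ∀ a : K, φ.Realize (fun _ : Fin 1 => a) ↔ ∃ n : ℤ, (n : K) = a := by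
  intro K _ _ _
  exact Pool.Agent.H57U.univDef_Z K

end Pool.Agent.S14399
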