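import Pool.Statements.S14672
import Pool.Agent.Lib.H51.Comp
-- import your own Pool.Agent.* helpers here

set_option autoImplicit false
open Pool Pool.MP_4c94f5_lc

namespace Pool.Agent.S14672

/-- The negation of the preceding statement: For every n ≥ 2 and every LCL problem on ℤⁿ: if every free Borel ℤⁿ-action on a Polish space has a Baire-measurable solution, then every free computable ℤⁿ-action on a decidable subset of ℕ has a computable solution. -/
theorem result :
    ¬ (∀ n : ℕ, 2 ≤ n → ∀ (W : Finset (Fin n → ℤ)) (k : ℕ) (A : Set ({x // x ∈ W} → Fin k)),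
      (∀ (X : Type) [TopologicalSpace X] [PolishSpace X] [MeasurableSpace X] [BorelSpace X]
          (act : (Fin n → ℤ) → X → X),
          (∀ x, act 0 x = x) →
          (∀ a b x, act (a + b) x = act a (act b x)) →
          (∀ γ, Measurable (act γ)) →
          (∀ γ x, act γ x = x → γ = 0) →
          ∃ f : X → Fin k,
            (∀ i : Fin k, ∃ u : Set X, IsOpen u ∧
                Filter.EventuallyEq (residual X) (f ⁻¹' {i}) u) ∧
            ∀ x, (fun w : {x // x ∈ W} => f (act w.1 x)) ∈ A) →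
      (∀ (X : Set ℕ) (act : (Fin n → ℤ) → ℕ → ℕ),
          ComputablePred (fun m => m ∈ X) →
          (∀ γ x, x ∈ X → act γ x ∈ X) →
          (∀ x, x ∈ X → act 0 x = x) →
          (∀ a b x, x ∈ X → act (a + b) x = act a (act b x)) →
          (∀ γ, Computable (act γ)) →
          (∀ γ x, x ∈ X → act γ x = x → γ = 0) →
          ∃ f : ℕ → Fin k, Computable f ∧
            ∀ x, x ∈ X → (fun w : {x // x ∈ W} => f (act w.1 x)) ∈ A)) := by
  intro H
  obtain ⟨M, S, β, i0, ⟨F0, hF0⟩, hno⟩ := Pool.Agent.H51.exists_sys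
  have hM : 2 ≤ M + 1 := by have := i0.2; omega
  have hfinΓ : Finite S.Γ := S.fin
  have hfinball : Finite {v : Fin (M + 1) → ℤ // Pool.Agent.H51.nrm v ≤ 2} :=
    (Pool.Agent.H51.finite_ball 2).to_subtype
  obtain ⟨k, ⟨e⟩⟩ := Finite.exists_equiv_fin
    (Pool.Agent.H51.Win (M + 1) (Pool.Agent.H51.Lab M S.Γ))
  let y := Pool.Agent.H51.labI F0
  let W : Finset (Fin (M + 1) → ℤ) := (Pool.Agent.H51.finite_ball 5).toFinset
  have hW : ∀ w : Fin (M + 1) → ℤ, w ∈ W ↔ Pool.Agent.H51.nrm w ≤ 5 := by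
    intro w
    simp [W]
  let A : Set ({x // x ∈ W} → Fin k) := {P | ∃ s : (Fin (M + 1) → ℤ) → (Fin (M + 1) → ℤ),
    (∀ w w', Pool.Agent.H51.nrm w ≤ 5 → Pool.Agent.H51.nrm w' ≤ 5 →
      Pool.Agent.H51.nrm (s w' - s w - (w' - w)) ≤ 1) ∧
    ∀ w : {x // x ∈ W}, ∀ v : {v : Fin (M + 1) → ℤ // Pool.Agent.H51.nrm v ≤ 2},
      e.symm (P w) v = y (s w.1 + v.1)}
  have hB := H (M + 1) hM W k A ?_
  · -- the computable action
    obtain ⟨f, hf, hfA⟩ := hB (Set.range (Pool.Agent.H51.encZ : (Fin (M + 1) → ℤ) → ℕ))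
      Pool.Agent.H51.actZ Pool.Agent.H51.computablePred_encZ
      (by
        rintro γ _ ⟨g, rfl⟩
        rw [Pool.Agent.H51.actZ_encZ]
        exact ⟨_, rfl⟩)
      (by
        rintro _ ⟨g, rfl⟩
        rw [Pool.Agent.H51.actZ_encZ, zero_add])
      (by
        rintro a b _ ⟨g, rfl⟩
        rw [Pool.Agent.H51.actZ_encZ, Pool.Agent.H51.actZ_encZ, Pool.Agent.H51.actZ_encZ,
          add_assoc])
      Pool.Agent.H51.computable_actZ
      (by
        rintro γ _ ⟨g, rfl⟩ h
        rw [Pool.Agent.H51.actZ_encZ] at h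
        have := Pool.Agent.H51.encZ_injective h
        simpa using this)
    apply Pool.Agent.H51.no_computable hno hF0 e (fun g => f (Pool.Agent.H51.encZ g))
      (hf.comp Pool.Agent.H51.computable_encZ)
    intro g
    obtain ⟨s, h1, h2⟩ := hfA (Pool.Agent.H51.encZ g) ⟨g, rfl⟩
    refine ⟨s, h1, fun w hw v => ?_⟩
    have := h2 ⟨w, (hW w).2 hw⟩ v
    simp only [Pool.Agent.H51.actZ_encZ] at this
    rw [add_comm g w]
    exact this
  · -- Baire measurable solutions
    intro X _ _ _ _ act h0 hadd hmeas hfree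
    have hT : Pool.Agent.H51.Toeplitz y := fun N => Pool.Agent.H51.labI_toeplitz F0 N
    obtain ⟨f, hf1, hf2⟩ := Pool.Agent.H51.baire_label hT ⟨h0, hadd, hfree⟩ hmeas
    refine ⟨fun x => e (f x), fun i => ?_, fun x => ?_⟩
    · obtain ⟨u, hu, hue⟩ := hf1 (e.symm i)
      refine ⟨u, hu, ?_⟩
      have : (fun x => e (f x)) ⁻¹' {i} = f ⁻¹' {e.symm i} := by
        ext x
        simp only [Set.mem_preimage, Set.mem_singleton_iff]
        rw [Equiv.eq_symm_apply]
      rw [this]
      exact hue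
    · obtain ⟨s, h1, h2⟩ := hf2 x
      refine ⟨s, h1, fun w v => ?_⟩
      simp only [Equiv.symm_apply_apply]
      exact h2 w.1 ((hW _).1 w.2) v

end Pool.Agent.S14672
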