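import Pool.Statements.S14935
import Pool.Agent.Lib.Helper44.MarkedGroups.Final

set_option autoImplicit false
open Pool Pool.MP_7a8588_lc

namespace Pool.Agent.S14935

/-- For some n there is an isomorphism-invariant group property P, Borel in the space of n-generated
marked groups, such that the just-non-P marked groups or the residually P marked groups form a
non-Borel set.

Proof idea. Take `n = 3`, and let `G` be P. Hall's group of matrices
`[[1, f, h], [0, T^n, g], [0, 0, 1]]` over `ℤ[T;T⁻¹]`, a 3-generated group whose centre is the
additive group of `ℤ[T;T⁻¹]` and for which the quotient by the centre is centreless and Hopfian.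
For a set `J` of natural numbers let `V_J` be the central subgroup of the `h` such that the `i`-th
coefficient is divisible by the `i`-th prime for every `i` outside of `J`. The marked groups
`G / V_J` are rigid: if a quotient of `G / V_I` by a nontrivial normal subgroup is isomorphic to
`G / V_J` then `I` is a proper subset of `J`. Now let `C` be a Borel subset of
`2^ω × ω^ω` with non-Borel projection, and choose codes `I(x)` (an antichain) and
`J(x, y)`, which properly contains `I(x)` and no other `I(x')`. The property P is: not isomorphic to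
any `G / V_I(x)` nor to any `G / V_J(x,y)` with `(x, y)` in `C`. Then `G / V_I(x)` is just-non-P iff
`x` is not in the projection of `C`. -/
theorem result :
    ∃ n : ℕ, ∃ S : Set (Subgroup (FreeGroup (Fin n))),
      (∀ (N M : Subgroup (FreeGroup (Fin n))) [N.Normal] [M.Normal],
          Nonempty ((FreeGroup (Fin n) ⧸ N) ≃* (FreeGroup (Fin n) ⧸ M)) → (N ∈ S ↔ M ∈ S)) ∧
      @MeasurableSet (FreeGroup (Fin n) → Bool) (borel (FreeGroup (Fin n) → Bool))
        {f : FreeGroup (Fin n) → Bool | ∃ N : Subgroup (FreeGroup (Fin n)),
          N.Normal ∧ N ∈ S ∧ ∀ g, f g = true ↔ g ∈ N} ∧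
      (¬ @MeasurableSet (FreeGroup (Fin n) → Bool) (borel (FreeGroup (Fin n) → Bool))
          {f : FreeGroup (Fin n) → Bool | ∃ N : Subgroup (FreeGroup (Fin n)),
            N.Normal ∧ N ∉ S ∧
            (∀ M : Subgroup (FreeGroup (Fin n)), M.Normal → N < M → M ∈ S) ∧
            ∀ g, f g = true ↔ g ∈ N} ∨
       ¬ @MeasurableSet (FreeGroup (Fin n) → Bool) (borel (FreeGroup (Fin n) → Bool))
          {f : FreeGroup (Fin n) → Bool | ∃ N : Subgroup (FreeGroup (Fin n)),
            N.Normal ∧
            (∀ g : FreeGroup (Fin n), g ∉ N →
              ∃ M : Subgroup (FreeGroup (Fin n)), M.Normal ∧ N ≤ M ∧ g ∉ M ∧ M ∈ S) ∧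
            ∀ g, f g = true ↔ g ∈ N}) :=
  Pool.Agent.S14935Aux.main

end Pool.Agent.S14935
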