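import Pool.Statements.S15379
import Pool.Agent.Lib.IncompactD.Main

set_option autoImplicit false
open Pool Pool.MP_d06690_lc

namespace Pool.Agent.S15379

/-- There is a graph on the ordinals below omega_2 squared that can be properly colored with aleph_1 colors but not countably many, while every induced subgraph on a vertex set of order type below omega_2 squared is countably colorable. -/
theorem result :
    ∃ G : SimpleGraph (Set.Iio ((Cardinal.aleph.{0} 2).ord ^ 2)),
      Nonempty (G.Coloring (Set.Iio (Cardinal.aleph.{0} 1).ord)) ∧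
      IsEmpty (G.Coloring ℕ) ∧
      ∀ S : Set (Set.Iio ((Cardinal.aleph.{0} 2).ord ^ 2)),
        (∃ γ : Ordinal.{0}, γ < (Cardinal.aleph.{0} 2).ord ^ 2 ∧
          ∃ f : S → Ordinal.{0},
            (∀ x y : S, x.1.1 < y.1.1 → f x < f y) ∧ ∀ x : S, f x < γ) →
        Nonempty ((G.induce S).Coloring ℕ) := by
  exact Pool.Agent.Results.MP_d06690_lc.Reduction.Q1_of_incompact Pool.Agent.Lib.IncompactD.incompact

end Pool.Agent.S15379
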