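import Pool.Statements.S17771

set_option autoImplicit false
open Pool Pool.MP_91e459_nt

namespace Pool.Agent.S17771

open Real

/-- upper bound for `-log (1-x)` on `[0,1/2]` -/
lemma neg_log_le {x : ℝ} (h0 : 0 ≤ x) (h1 : x ≤ 1/2) :
    -Real.log (1 - x) ≤ x + x^2/2 + x^3/3 + x^4/2 := by
  -- monotonicity of x + x^2/2 + x^3/3 + x^4/2 + log (1-x)
  have key : MonotoneOn (fun y : ℝ => y + y^2/2 + y^3/3 + y^4/2 + Real.log (1 - y)) (Set.Icc 0 (1/2)) := by
    apply monotoneOn_of_deriv_nonneg (convex_Icc _ _)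
    · apply ContinuousOn.add
      · fun_prop
      · apply ContinuousOn.log
        · fun_prop
        · intro y hy
          have := hy.2
          linarith
    · intro y hy
      rw [interior_Icc] at hy
      have hy2 : (1 - y) ≠ 0 := by have := hy.2; linarith
      apply DifferentiableAt.differentiableWithinAt
      fun_prop (disch := assumption)
    · intro y hy
      rw [interior_Icc] at hy
      have hy1 := hy.1
      have hy3 := hy.2
      have hy2 : (1 - y) ≠ 0 := by linarith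
      have hd : HasDerivAt (fun y : ℝ => y + y^2/2 + y^3/3 + y^4/2 + Real.log (1 - y))
          (1 + y + y^2 + 2*y^3 + (-1)/(1-y)) y := by
        have h1 : HasDerivAt (fun y : ℝ => y + y^2/2 + y^3/3 + y^4/2) (1 + y + y^2 + 2*y^3) y := by
          have a1 := hasDerivAt_id' y
          have a2 := (hasDerivAt_pow 2 y).div_const 2
          have a3 := (hasDerivAt_pow 3 y).div_const 3
          have a4 := (hasDerivAt_pow 4 y).div_const 2
          refine (((a1.fun_add a2).fun_add a3).fun_add a4).congr_deriv ?_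
          norm_num
          ring
        have h2 : HasDerivAt (fun y : ℝ => Real.log (1 - y)) ((-1)/(1-y)) y := by
          have := ((hasDerivAt_id' y).const_sub 1).log hy2
          simpa using this
        exact h1.add h2
      rw [hd.deriv]
      have hpos : 0 < 1 - y := by linarith
      have : 1 + y + y^2 + 2*y^3 + (-1)/(1-y) = (y^3*(1-2*y))/(1-y) := by
        field_simp
        ring
      rw [this]
      apply div_nonneg _ hpos.le
      apply mul_nonneg (by positivity)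
      linarith
  have := key (Set.left_mem_Icc.mpr (by norm_num)) (Set.mem_Icc.mpr ⟨h0, h1⟩) h0
  simp at this
  linarith

/-- lower bound for `log ((1-u)/(1-2u))` -/
lemma log_ge {u : ℝ} (h0 : 0 ≤ u) (h1 : u ≤ 1/3) :
    u + 3/2*u^2 + 7/3*u^3 ≤ Real.log (1 - u) - Real.log (1 - 2*u) := by
  have key : MonotoneOn (fun y : ℝ => Real.log (1 - y) - Real.log (1 - 2*y) - (y + 3/2*y^2 + 7/3*y^3)) (Set.Icc 0 (1/3)) := by
    apply monotoneOn_of_deriv_nonneg (convex_Icc _ _)
    · apply ContinuousOn.sub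
      · apply ContinuousOn.sub
        · apply ContinuousOn.log
          · fun_prop
          · intro y hy
            have := hy.2
            linarith
        · apply ContinuousOn.log
          · fun_prop
          · intro y hy
            have := hy.2
            linarith
      · fun_prop
    · intro y hy
      rw [interior_Icc] at hy
      have hy2 : (1 - y) ≠ 0 := by have := hy.2; linarith
      have hy3 : (1 - 2*y) ≠ 0 := by have := hy.2; linarith
      apply DifferentiableAt.differentiableWithinAt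
      fun_prop (disch := assumption)
    · intro y hy
      rw [interior_Icc] at hy
      have hy1 := hy.1
      have hy3 := hy.2
      have hy2 : (1 - y) ≠ 0 := by linarith
      have hy4 : (1 - 2*y) ≠ 0 := by linarith
      have hd : HasDerivAt (fun y : ℝ => Real.log (1 - y) - Real.log (1 - 2*y) - (y + 3/2*y^2 + 7/3*y^3))
          ((-1)/(1-y) - (-2)/(1-2*y) - (1 + 3*y + 7*y^2)) y := by
        have h1 : HasDerivAt (fun y : ℝ => y + 3/2*y^2 + 7/3*y^3) (1 + 3*y + 7*y^2) y := by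
          have a1 := hasDerivAt_id' y
          have a2 := (hasDerivAt_pow 2 y).const_mul (3/2)
          have a3 := (hasDerivAt_pow 3 y).const_mul (7/3)
          refine ((a1.fun_add a2).fun_add a3).congr_deriv ?_
          norm_num
          ring
        have h2 : HasDerivAt (fun y : ℝ => Real.log (1 - y)) ((-1)/(1-y)) y := by
          have := ((hasDerivAt_id' y).const_sub 1).log hy2
          simpa using this
        have h3 : HasDerivAt (fun y : ℝ => Real.log (1 - 2*y)) ((-2)/(1-2*y)) y := by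
          have := (((hasDerivAt_id' y).const_mul 2).const_sub 1).log hy4
          simpa using this
        exact (h2.sub h3).sub h1
      rw [hd.deriv]
      have hpos : 0 < 1 - y := by linarith
      have hpos2 : 0 < 1 - 2*y := by linarith
      have : (-1)/(1-y) - (-2)/(1-2*y) - (1 + 3*y + 7*y^2) = (y^3*(15-14*y))/((1-y)*(1-2*y)) := by
        rw [div_sub_div _ _ hy2 hy4, div_sub' (mul_ne_zero hy2 hy4)]
        congr 1
        ring
      rw [this]
      apply div_nonneg _ (by positivity)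
      apply mul_nonneg (by positivity)
      linarith
  have := key (Set.left_mem_Icc.mpr (by norm_num)) (Set.mem_Icc.mpr ⟨h0, h1⟩) h0
  simp at this
  linarith

/-- cubic Taylor lower bound for `exp` valid for all reals -/
lemma exp_ge_cubic (x : ℝ) : 1 + x + x^2/2 + x^3/6 ≤ Real.exp x := by
  rcases le_total 0 x with hx | hx
  · have := Real.sum_le_exp_of_nonneg hx 4
    simp [Finset.sum_range_succ, Nat.factorial] at this
    linarith
  · -- x ≤ 0
    have q2 : ∀ y : ℝ, y ≤ 0 → Real.exp y ≤ 1 + y + y^2/2 := by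
      intro y hy
      have key : MonotoneOn (fun y : ℝ => Real.exp y - (1 + y + y^2/2)) (Set.Iic 0) := by
        apply monotoneOn_of_deriv_nonneg (convex_Iic _)
        · fun_prop
        · intro y hy
          apply DifferentiableAt.differentiableWithinAt
          fun_prop
        · intro y hy
          have hd : HasDerivAt (fun y : ℝ => Real.exp y - (1 + y + y^2/2)) (Real.exp y - (1 + y)) y := by
            have a1 := Real.hasDerivAt_exp y
            have a2 := (hasDerivAt_id' y).const_add 1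
            have a3 := (hasDerivAt_pow 2 y).div_const 2
            refine (a1.fun_sub (a2.fun_add a3)).congr_deriv ?_
            norm_num
          rw [hd.deriv]
          have := Real.add_one_le_exp y
          linarith
      have := key (Set.mem_Iic.mpr hy) (Set.mem_Iic.mpr le_rfl) hy
      simp at this
      linarith
    have key : AntitoneOn (fun y : ℝ => Real.exp y - (1 + y + y^2/2 + y^3/6)) (Set.Iic 0) := by
      apply antitoneOn_of_deriv_nonpos (convex_Iic _)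
      · fun_prop
      · intro y hy
        apply DifferentiableAt.differentiableWithinAt
        fun_prop
      · intro y hy
        rw [interior_Iic] at hy
        have hd : HasDerivAt (fun y : ℝ => Real.exp y - (1 + y + y^2/2 + y^3/6)) (Real.exp y - (1 + y + y^2/2)) y := by
          have a1 := Real.hasDerivAt_exp y
          have a2 := (hasDerivAt_id' y).const_add 1
          have a3 := (hasDerivAt_pow 2 y).div_const 2
          have a4 := (hasDerivAt_pow 3 y).div_const 6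
          refine (a1.fun_sub ((a2.fun_add a3).fun_add a4)).congr_deriv ?_
          norm_num
          ring
        rw [hd.deriv]
        have := q2 y (le_of_lt hy)
        linarith
    have := key (Set.mem_Iic.mpr hx) (Set.mem_Iic.mpr le_rfl) hx
    simp at this
    linarith

/-- The deviation bound `D`. -/
noncomputable def DD (k u : ℝ) : ℝ :=
  u * ((k^2 - 3*k)/2) + u^2 * (k^3/3 - 3*k^2/4 - k/12) + u^3 * (k^4/2 + 4*k)

/-- the lower polynomial -/
noncomputable def pp (L k u : ℝ) : ℝ :=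
  1 - L * (u * ((k^2 - 3*k)/2))
    + u^2 * (-L * (k^3/3 - 3*k^2/4 - k/12) + L^2/2 * ((k^2 - 3*k)/2)^2)
    - u^3 * (L * (k^4/2 + 4*k) + k^6/35)

/-- the summed polynomial: `2 Q(k) - Q(k+1) = p(k+1)` -/
noncomputable def QQ (L k u : ℝ) : ℝ :=
  1 - L * (u * (((k^2+4*k+6) - 3*(k+2))/2))
    + u^2 * (-L * ((k^3+6*k^2+18*k+26)/3 - 3*(k^2+4*k+6)/4 - (k+2)/12)
        + L^2/8 * ((k^4+8*k^3+36*k^2+104*k+150) - 6*(k^3+6*k^2+18*k+26) + 9*(k^2+4*k+6)))
    - u^3 * (L * ((k^4+8*k^3+36*k^2+104*k+150)/2 + 4*(k+2))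
        + (k^6+12*k^5+90*k^4+520*k^3+2250*k^2+6492*k+9366)/35)

lemma QQ_step (L k u : ℝ) : 2 * QQ L k u - QQ L (k+1) u = pp L (k+1) u := by
  unfold QQ pp
  ring

lemma sum_pp (L u : ℝ) (J : ℕ) :
    ∑ k ∈ Finset.range J, (1/2 : ℝ)^(k+1) * pp L ((k:ℝ)+1) u
      = QQ L 0 u - (1/2 : ℝ)^J * QQ L J u := by
  induction J with
  | zero => simp
  | succ J ih =>
    rw [Finset.sum_range_succ, ih]
    have := QQ_step L J u
    rw [← this]
    push_cast
    ring

lemma QQ_zero_gt {L u : ℝ} (hL1 : 0.6931 ≤ L) (hL2 : L ≤ 0.69315) (hu0 : 0 < u) (hu1 : u ≤ 1/3000) :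
    1 < QQ L 0 u := by
  unfold QQ
  have h1 : (0.1099:ℝ) ≤ 6*L^2 - 4*L := by nlinarith
  have h2 : L * 83 + 9366/35 ≤ 325.2 := by linarith
  have hu2 : 0 < u^2 := by positivity
  have h3 : u * (L * 83 + 9366/35) < 6*L^2 - 4*L := by
    nlinarith
  have h4 : 0 < u^2 * ((6*L^2 - 4*L) - u * (L * 83 + 9366/35)) := mul_pos hu2 (by linarith)
  nlinarith [h4]

lemma key_mu {k u : ℝ} (hk : 1 ≤ k) (hu0 : 0 < u) (hu1 : u ≤ 1/3000) (hku : k * u ≤ 1/2)
    (hD : 0 ≤ k + DD k u) :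
    -Real.log (1 - k*u) ≤ (k + DD k u) * (Real.log (1 - u) - Real.log (1 - 2*u)) := by
  have h1 := neg_log_le (x := k*u) (by positivity) hku
  have h2 := log_ge hu0.le (by linarith : u ≤ 1/3)
  have h3 : (k + DD k u) * (u + 3/2*u^2 + 7/3*u^3) ≤ (k + DD k u) * (Real.log (1 - u) - Real.log (1 - 2*u)) :=
    mul_le_mul_of_nonneg_left h2 hD
  refine h1.trans (le_trans ?_ h3)
  unfold DD
  -- difference is u^4 * (...) etc
  have hid : (k + (u * ((k^2 - 3*k)/2) + u^2 * (k^3/3 - 3*k^2/4 - k/12) + u^3 * (k^4/2 + 4*k))) * (u + 3/2*u^2 + 7/3*u^3)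
     - (k*u + (k*u)^2/2 + (k*u)^3/3 + (k*u)^4/2)
     = u^4 * (k^3/2 + k^2/24 + 3*k/8) + u^5 * (3/4*k^4 + 7/9*k^3 - 7/4*k^2 + 6*k - 7/36*k) + u^6 * (7/3*(k^4/2 + 4*k)) := by
    ring
  have p1 : 0 ≤ u^4 * (k^3/2 + k^2/24 + 3*k/8) := by positivity
  have p2 : 0 ≤ u^5 * (3/4*k^4 + 7/9*k^3 - 7/4*k^2 + 6*k - 7/36*k) := by
    apply mul_nonneg (by positivity)
    have : 0 ≤ (k - 1) := by linarith
    nlinarith [sq_nonneg (k^2 - 1), sq_nonneg (k-1), mul_nonneg this (sq_nonneg k), mul_nonneg this (mul_nonneg this this), sq_nonneg (k^2)]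
  have p3 : 0 ≤ u^6 * (7/3*(k^4/2 + 4*k)) := by positivity
  linarith

lemma DD_sq {k : ℕ} {u : ℝ} (hk : 1 ≤ k) (hu0 : 0 < u) (hu1 : u ≤ 1/3000) :
    (u * (((k:ℝ)^2 - 3*k)/2))^2 ≤ (DD k u)^2 := by
  set A : ℝ := ((k:ℝ)^2 - 3*k)/2 with hA
  set B : ℝ := (k:ℝ)^3/3 - 3*k^2/4 - k/12 with hB
  set E : ℝ := (k:ℝ)^4/2 + 4*k with hE
  have hDD : DD k u = u * A + u^2 * B + u^3 * E := by
    unfold DD; rfl
  rw [hDD]
  have : (u * A + u^2 * B + u^3 * E)^2 - (u*A)^2 = u^3 * ((B + u * E) * (2 * A + u * B + u^2 * E)) := by ring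
  rw [← sub_nonneg, this]
  apply mul_nonneg (by positivity)
  rcases (by omega : k = 1 ∨ k = 2 ∨ 3 ≤ k) with h | h | h
  · subst h
    have hA1 : A = -1 := by rw [hA]; norm_num
    have hB1 : B = -1/2 := by rw [hB]; norm_num
    have hE1 : E = 9/2 := by rw [hE]; norm_num
    rw [hA1, hB1, hE1]
    apply mul_nonneg_of_nonpos_of_nonpos
    · linarith
    · nlinarith
  · subst h
    have hA1 : A = -1 := by rw [hA]; norm_num
    have hB1 : B = -1/2 := by rw [hB]; norm_num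
    have hE1 : E = 16 := by rw [hE]; norm_num
    rw [hA1, hB1, hE1]
    apply mul_nonneg_of_nonpos_of_nonpos
    · linarith
    · nlinarith
  · have h3 : (3:ℝ) ≤ (k:ℝ) := by exact_mod_cast h
    have hA0 : 0 ≤ A := by rw [hA]; nlinarith
    have hB0 : 0 ≤ B := by
      rw [hB]
      nlinarith [mul_nonneg (by linarith : (0:ℝ) ≤ (k:ℝ) - 3) (sq_nonneg (k:ℝ))]
    positivity

lemma DD_le {k : ℝ} {u : ℝ} (hk : 1 ≤ k) (hu0 : 0 < u) (hu1 : u ≤ 1/3000) (hku : k * u ≤ 1/2) :
    DD k u ≤ 0.8 * (u * k^2) := by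
  unfold DD
  have hk0 : (0:ℝ) < k := by linarith
  have e1 : u^2 * (k^3/3) ≤ u * k^2 / 6 := by
    calc u^2 * (k^3/3) = (u * k^2 / 3) * (k * u) := by ring
      _ ≤ (u * k^2 / 3) * (1/2) := mul_le_mul_of_nonneg_left hku (by positivity)
      _ = u * k^2 / 6 := by ring
  have e2 : u^3 * (k^4/2) ≤ u * k^2 / 8 := by
    have h2 : (k*u)^2 ≤ (1/2)^2 := pow_le_pow_left₀ (by positivity) hku 2
    calc u^3 * (k^4/2) = (u * k^2 / 2) * (k * u)^2 := by ring
      _ ≤ (u * k^2 / 2) * (1/2)^2 := mul_le_mul_of_nonneg_left h2 (by positivity)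
      _ = u * k^2 / 8 := by ring
  have e3 : u^3 * (4*k) ≤ u * k * (3/2) := by
    have h5 : u^2 ≤ 1/3000*(1/3000) := by
      rw [pow_two]
      exact mul_le_mul hu1 hu1 hu0.le (by norm_num)
    calc u^3 * (4*k) = (u * k) * (4 * u^2) := by ring
      _ ≤ (u * k) * (3/2) := by
        apply mul_le_mul_of_nonneg_left _ (by positivity)
        linarith
  have e4 : 0 ≤ u^2 * (3*k^2/4 + k/12) := by positivity
  have e5 : 0 ≤ u * k^2 := by positivity
  have : u * ((k ^ 2 - 3 * k) / 2) + u ^ 2 * (k ^ 3 / 3 - 3 * k ^ 2 / 4 - k / 12) + u ^ 3 * (k ^ 4 / 2 + 4 * k)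
    = u * k^2 / 2 - u * k * (3/2) + u^2 * (k^3/3) - u^2 * (3*k^2/4 + k/12) + u^3 * (k^4/2) + u^3 * (4*k) := by ring
  rw [this]
  linarith

/-- main termwise lower bound, in the range `k u ≤ 1/2` -/
lemma exp_ge_pp {k : ℕ} {u : ℝ} (hk : 1 ≤ k) (hu0 : 0 < u) (hu1 : u ≤ 1/3000) (hku : k * u ≤ 1/2)
    {L : ℝ} (hL1 : 0.6931 ≤ L) (hL2 : L ≤ 0.69315) :
    pp L k u ≤ Real.exp (-(L * DD k u)) := by
  have hg := exp_ge_cubic (-(L * DD k u))
  refine le_trans ?_ hg
  have hk' : (1:ℝ) ≤ (k:ℝ) := by exact_mod_cast hk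
  have hsq := DD_sq hk hu0 hu1
  have hup := DD_le hk' hu0 hu1 hku
  have hLpos : 0 < L := by linarith
  -- (3) cube
  have hcube : L^3 / 6 * (DD k u)^3 ≤ u^3 * ((k:ℝ)^6/35) := by
    have hc1 : (DD k u)^3 ≤ (0.8 * (u * (k:ℝ)^2))^3 := by
      have : Odd 3 := by decide
      exact (Odd.strictMono_pow this).monotone hup
    have hL3 : L^3 ≤ 0.3331 := by
      have : L^3 ≤ 0.69315^3 := pow_le_pow_left₀ (by linarith) hL2 3
      norm_num at this ⊢
      linarith
    have hL0 : 0 ≤ L^3 := by positivity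
    have hw : 0 ≤ (u * (k:ℝ)^2)^3 := by positivity
    calc L^3 / 6 * (DD k u)^3 ≤ L^3/6 * (0.8 * (u * (k:ℝ)^2))^3 := by
          apply mul_le_mul_of_nonneg_left hc1 (by positivity)
      _ = L^3 * (0.512/6) * (u * (k:ℝ)^2)^3 := by ring
      _ ≤ 0.3331 * (0.512/6) * (u * (k:ℝ)^2)^3 := by
          apply mul_le_mul_of_nonneg_right _ hw
          apply mul_le_mul_of_nonneg_right hL3 (by norm_num)
      _ ≤ (1/35) * (u * (k:ℝ)^2)^3 := by
          apply mul_le_mul_of_nonneg_right _ hw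
          norm_num
      _ = u^3 * ((k:ℝ)^6/35) := by ring
  have hs2 : L^2/2 * (u*(((k:ℝ)^2 - 3*k)/2))^2 ≤ L^2/2 * (DD k u)^2 := by
    apply mul_le_mul_of_nonneg_left hsq (by positivity)
  have e1 : 1 + -(L * DD k u) + (-(L * DD k u))^2/2 + (-(L * DD k u))^3/6
     = 1 - L * DD k u + L^2/2 * (DD k u)^2 - L^3/6 * (DD k u)^3 := by ring
  rw [e1]
  have e2 : pp L k u = 1 - L * DD k u + L^2/2 * (u*(((k:ℝ)^2 - 3*k)/2))^2 - u^3 * ((k:ℝ)^6/35) := by
    unfold pp DD
    ring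
  rw [e2]
  linarith

lemma k_add_DD_nonneg {k : ℕ} {u : ℝ} (hk : 1 ≤ k) (hu0 : 0 < u) (hu1 : u ≤ 1/3000) :
    0 ≤ (k:ℝ) + DD k u := by
  unfold DD
  rcases (by omega : k = 1 ∨ k = 2 ∨ 3 ≤ k) with h | h | h
  · subst h
    norm_num
    have : 0 < u^3 := by positivity
    nlinarith
  · subst h
    norm_num
    have : 0 < u^3 := by positivity
    nlinarith
  · have h3 : (3:ℝ) ≤ (k:ℝ) := by exact_mod_cast h
    have hA0 : 0 ≤ ((k:ℝ)^2 - 3*k)/2 := by nlinarith
    have hB0 : 0 ≤ (k:ℝ)^3/3 - 3*k^2/4 - k/12 := by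
      nlinarith [mul_nonneg (by linarith : (0:ℝ) ≤ (k:ℝ) - 3) (sq_nonneg (k:ℝ))]
    positivity

/-- negativity of `pp` in the far range -/
lemma pp_nonpos {k : ℕ} {u : ℝ} (hu0 : 0 < u) (hu1 : u ≤ 1/3000) (hku : 1/2 < k * u)
    {L : ℝ} (hL1 : 0.6931 ≤ L) (hL2 : L ≤ 0.69315) :
    pp L k u ≤ 0 := by
  have hkbig : (1500:ℝ) ≤ k := by
    by_contra hcon
    push Not at hcon
    have : (k:ℝ) * u ≤ 1500 * (1/3000) := by
      apply mul_le_mul hcon.le hu1 hu0.le (by norm_num)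
    linarith
  have hs : 750 ≤ u * (k:ℝ)^2 := by
    have : u * (k:ℝ)^2 = (k * u) * k := by ring
    rw [this]
    nlinarith
  set A : ℝ := ((k:ℝ)^2 - 3*k)/2 with hA
  set B : ℝ := (k:ℝ)^3/3 - 3*k^2/4 - k/12 with hB
  have hpp : pp L k u = 1 - L * (u * A) - u^2 * (L * B) + u^2 * (L^2/2 * A^2) - u^3 * (L * ((k:ℝ)^4/2 + 4*k)) - u^3 * ((k:ℝ)^6/35) := by
    rw [hA, hB]
    unfold pp; ring
  have hA0 : 0 ≤ A := by rw [hA]; nlinarith
  have hA1 : A ≤ (k:ℝ)^2/2 := by rw [hA]; linarith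
  have hB0 : 0 ≤ B := by
    rw [hB]
    nlinarith [mul_nonneg (by linarith : (0:ℝ) ≤ (k:ℝ) - 3) (sq_nonneg (k:ℝ))]
  have hL0 : 0 < L := by linarith
  rw [hpp]
  have t1 : 0 ≤ L * (u * A) := by positivity
  have t2 : 0 ≤ u^2 * (L * B) := by positivity
  have t3 : u^2 * (L^2/2 * A^2) ≤ 0.0625 * (u * (k:ℝ)^2)^2 := by
    have hA2 : A^2 ≤ ((k:ℝ)^2/2)^2 := pow_le_pow_left₀ hA0 hA1 2
    have hL2' : L^2 ≤ 0.5 := by nlinarith
    have : L^2/2 * A^2 ≤ 0.5/2 * ((k:ℝ)^2/2)^2 := by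
      apply mul_le_mul _ hA2 (by positivity) (by norm_num)
      linarith
    calc u^2 * (L^2/2 * A^2) ≤ u^2 * (0.5/2 * ((k:ℝ)^2/2)^2) := by
          apply mul_le_mul_of_nonneg_left this (by positivity)
      _ = 0.0625 * (u * (k:ℝ)^2)^2 := by ring
  have t4 : 0 ≤ u^3 * (L * ((k:ℝ)^4/2 + 4*k)) := by positivity
  have t5 : u^3 * ((k:ℝ)^6/35) = (u * (k:ℝ)^2)^3/35 := by ring
  rw [t5]
  generalize u * (k:ℝ)^2 = s at *
  have t6 : 1 + 0.0625 * s^2 - s^3/35 ≤ 0 := by
    have : 0 ≤ s^2 * (s - 750) := by apply mul_nonneg (by positivity); linarith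
    nlinarith [sq_nonneg s]
  linarith

lemma QQ_far {J : ℕ} (hJ : 2999 ≤ J) {L : ℝ} (hL1 : 0.6931 ≤ L) (hL2 : L ≤ 0.69315) :
    QQ L J (1 / ((J:ℝ)+1)) ≤ 0 := by
  have hJ' : (2999:ℝ) ≤ J := by exact_mod_cast hJ
  set x : ℝ := (J:ℝ) with hx
  set u : ℝ := 1/(x+1) with hu
  have hu0 : 0 < u := by positivity
  have hx0 : 0 < x := by linarith
  have hw : x - 1 ≤ u * x^2 := by
    rw [hu, one_div, inv_mul_eq_div, le_div_iff₀ (by linarith)]
    nlinarith
  have hL0 : 0 < L := by linarith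
  have e : QQ L x u = 1 - L * (u * ((x^2+x)/2)) - u^2 * (L * (x^3/3 + 5/4*x^2 + 35/12*x + 4))
      + u^2 * (L^2/8 * (x^4 + 2*x^3 + 9*x^2 + 32*x + 48))
      - u^3 * (L * ((x^4+8*x^3+36*x^2+104*x+150)/2 + 4*(x+2)))
      - u^3 * ((12*x^5+90*x^4+520*x^3+2250*x^2+6492*x+9366)/35)
      - (u*x^2)^3/35 := by
    unfold QQ
    ring
  rw [e]
  have t1 : 0 ≤ L * (u * ((x^2+x)/2)) := by positivity
  have t2 : 0 ≤ u^2 * (L * (x^3/3 + 5/4*x^2 + 35/12*x + 4)) := by positivity
  have t3 : u^2 * (L^2/8 * (x^4 + 2*x^3 + 9*x^2 + 32*x + 48)) ≤ (u*x^2)^2/8 := by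
    have hL2' : L^2 ≤ 0.5 := by nlinarith
    have hpoly : x^4 + 2*x^3 + 9*x^2 + 32*x + 48 ≤ 2 * x^4 := by
      have h1 : 2999 * x^3 ≤ x^4 := by
        have : 0 ≤ x^3 * (x - 2999) := mul_nonneg (by positivity) (by linarith)
        nlinarith
      have h2 : 2999 * x^2 ≤ x^3 := by
        have : 0 ≤ x^2 * (x - 2999) := mul_nonneg (by positivity) (by linarith)
        nlinarith
      have h3 : 2999 * x ≤ x^2 := by
        have : 0 ≤ x * (x - 2999) := mul_nonneg (by positivity) (by linarith)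
        nlinarith
      linarith
    have : L^2/8 * (x^4 + 2*x^3 + 9*x^2 + 32*x + 48) ≤ (0.5/8) * (2 * x^4) := by
      apply mul_le_mul _ hpoly (by positivity) (by norm_num)
      linarith
    calc u^2 * (L^2/8 * (x^4 + 2*x^3 + 9*x^2 + 32*x + 48)) ≤ u^2 * ((0.5/8) * (2 * x^4)) :=
          mul_le_mul_of_nonneg_left this (by positivity)
      _ = (u*x^2)^2/8 := by ring
  have t4 : 0 ≤ u^3 * (L * ((x^4+8*x^3+36*x^2+104*x+150)/2 + 4*(x+2))) := by positivity
  have t5 : 0 ≤ u^3 * ((12*x^5+90*x^4+520*x^3+2250*x^2+6492*x+9366)/35) := by positivity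
  have hs : 2998 ≤ u * x^2 := by linarith
  generalize u * x^2 = s at *
  have t6 : 1 + s^2/8 - s^3/35 ≤ 0 := by
    have : 0 ≤ s^2 * (s - 2998) := by apply mul_nonneg (by positivity); linarith
    nlinarith [sq_nonneg s]
  linarith

/-- the analytic part: large `m`. -/
lemma sum_gt_one {m n : ℕ} (hm : 2999 ≤ m) (h : (1/2 : ℝ) < (1 - 1/(m:ℝ))^n) :
    1 < ∑ k ∈ Finset.range m, (1 - ((k:ℝ)+1) * (1/((m:ℝ)+1)))^n := by
  set L : ℝ := Real.log 2 with hL
  have hL1 : 0.6931 ≤ L := by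
    have := Real.log_two_gt_d9
    rw [hL]; norm_num at this ⊢; linarith
  have hL2 : L ≤ 0.69315 := by
    have := Real.log_two_lt_d9
    rw [hL]; norm_num at this ⊢; linarith
  have hm' : (2999:ℝ) ≤ m := by exact_mod_cast hm
  set u : ℝ := 1/((m:ℝ)+1) with hu
  have hu0 : 0 < u := by positivity
  have hu1 : u ≤ 1/3000 := by
    rw [hu]
    apply one_div_le_one_div_of_le (by norm_num)
    linarith
  have hmu : (m:ℝ) * u = 1 - u := by
    rw [hu]; field_simp; ring
  -- n * lambda ≤ L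
  have hlam : (n:ℝ) * (Real.log (1 - u) - Real.log (1 - 2*u)) ≤ L := by
    have hpos1 : 0 < 1 - u := by linarith
    have e1 : (1 - 1/(m:ℝ)) = (1 - 2*u)/(1-u) := by
      rw [eq_div_iff hpos1.ne']
      have hm0 : (m:ℝ) ≠ 0 := by linarith
      have h1u : (1 - u) = m * u := hmu.symm
      have h2 : (1 - 1/(m:ℝ)) * ((m:ℝ)*u) = m*u - u := by field_simp
      rw [h1u, h2]
      linarith
    have hpos2 : 0 < 1 - 2*u := by linarith
    have h2 : Real.log (1/2) < Real.log ((1 - 1/(m:ℝ))^n) := Real.log_lt_log (by norm_num) h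
    rw [Real.log_pow, e1, Real.log_div hpos2.ne' hpos1.ne'] at h2
    have : Real.log (1/2) = -L := by rw [hL, one_div, Real.log_inv]
    rw [this] at h2
    linarith
  have hterm : ∀ k ∈ Finset.range m, (1/2:ℝ)^(k+1) * pp L ((k:ℝ)+1) u ≤ (1 - ((k:ℝ)+1) * u)^n := by
    intro k hk
    rw [Finset.mem_range] at hk
    have hkm : ((k:ℝ)+1) ≤ m := by exact_mod_cast hk
    have hnn : 0 < 1 - ((k:ℝ)+1) * u := by
      have : ((k:ℝ)+1) * u ≤ m * u := mul_le_mul_of_nonneg_right hkm hu0.le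
      linarith
    rcases le_or_gt (((k:ℝ)+1) * u) (1/2) with hc | hc
    · have hk1 : 1 ≤ k+1 := by omega
      have hc' : ((k+1 : ℕ):ℝ) * u ≤ 1/2 := by push_cast; exact hc
      have hD := k_add_DD_nonneg hk1 hu0 hu1
      have hmu := key_mu (k := ((k+1:ℕ):ℝ)) (by exact_mod_cast hk1) hu0 hu1 hc' hD
      have hpp := exp_ge_pp hk1 hu0 hu1 hc' hL1 hL2
      push_cast at hD hmu hpp
      have hlog : -(((k:ℝ)+1) + DD ((k:ℝ)+1) u) * L ≤ (n:ℝ) * Real.log (1 - ((k:ℝ)+1)*u) := by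
        have h5 : (n:ℝ) * (-Real.log (1 - ((k:ℝ)+1)*u)) ≤ (n:ℝ) * ((((k:ℝ)+1) + DD ((k:ℝ)+1) u) * (Real.log (1 - u) - Real.log (1 - 2*u))) :=
          mul_le_mul_of_nonneg_left hmu (by positivity)
        have h6 : (((k:ℝ)+1) + DD ((k:ℝ)+1) u) * ((n:ℝ) * (Real.log (1 - u) - Real.log (1 - 2*u))) ≤ (((k:ℝ)+1) + DD ((k:ℝ)+1) u) * L :=
          mul_le_mul_of_nonneg_left hlam hD
        linarith
      have e2 : (1 - ((k:ℝ)+1) * u)^n = Real.exp ((n:ℝ) * Real.log (1 - ((k:ℝ)+1)*u)) := by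
        rw [Real.exp_nat_mul, Real.exp_log hnn]
      rw [e2]
      have e3 : (1/2:ℝ)^(k+1) = Real.exp (-(((k:ℝ)+1)) * L) := by
        have : Real.exp (-(((k:ℝ)+1)) * L) = Real.exp (((k+1:ℕ):ℝ) * (-L)) := by push_cast; ring_nf
        rw [this, Real.exp_nat_mul, Real.exp_neg, hL, Real.exp_log (by norm_num)]
        norm_num
      calc (1/2:ℝ)^(k+1) * pp L ((k:ℝ)+1) u ≤ (1/2:ℝ)^(k+1) * Real.exp (-(L * DD ((k:ℝ)+1) u)) :=
            mul_le_mul_of_nonneg_left hpp (by positivity)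
        _ = Real.exp (-(((k:ℝ)+1) + DD ((k:ℝ)+1) u) * L) := by
            rw [e3, ← Real.exp_add]; ring_nf
        _ ≤ _ := Real.exp_le_exp.mpr hlog
    · have hc' : 1/2 < ((k+1 : ℕ):ℝ) * u := by push_cast; exact hc
      have hpp := pp_nonpos hu0 hu1 hc' hL1 hL2
      push_cast at hpp
      have : (1/2:ℝ)^(k+1) * pp L ((k:ℝ)+1) u ≤ 0 :=
        mul_nonpos_of_nonneg_of_nonpos (by positivity) hpp
      exact this.trans (by positivity)
  have hsum := Finset.sum_le_sum hterm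
  rw [sum_pp] at hsum
  have hfar := QQ_far hm hL1 hL2
  have hzero := QQ_zero_gt hL1 hL2 hu0 hu1
  have : (1/2:ℝ)^m * QQ L m u ≤ 0 := mul_nonpos_of_nonneg_of_nonpos (by positivity) hfar
  linarith

lemma big_case {m n : ℕ} (hm : 2999 ≤ m) (h : (1/2 : ℝ) < (1 - 1/(m:ℝ))^n) :
    (m + 1)^n < ∑ i ∈ Finset.Icc 1 m, i^n := by
  have h1 := sum_gt_one hm h
  have hmpos : (0:ℝ) < (m:ℝ) + 1 := by positivity
  have h2 : ((m:ℝ)+1)^n * ∑ k ∈ Finset.range m, (1 - ((k:ℝ)+1) * (1/((m:ℝ)+1)))^n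
      = ∑ k ∈ Finset.range m, ((m:ℝ) - k)^n := by
    rw [Finset.mul_sum]
    apply Finset.sum_congr rfl
    intro k _
    rw [← mul_pow]
    congr 1
    field_simp
    ring
  have h3 : ∑ k ∈ Finset.range m, ((m:ℝ) - k)^n = ((∑ i ∈ Finset.Icc 1 m, i^n : ℕ) : ℝ) := by
    push_cast
    rw [← Finset.sum_range_reflect]
    have : Finset.Icc 1 m = Finset.Ico 1 (m+1) := by
      ext x; simp [Finset.mem_Icc, Finset.mem_Ico]
    rw [this, Finset.sum_Ico_eq_sum_range]
    apply Finset.sum_congr rfl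
    intro k hk
    rw [Finset.mem_range] at hk
    congr 1
    have : m - 1 - k = m - (k+1) := by omega
    rw [this, Nat.cast_sub (by omega)]
    push_cast
    ring
  have h4 : ((m:ℝ)+1)^n < ((∑ i ∈ Finset.Icc 1 m, i^n : ℕ) : ℝ) := by
    rw [← h3, ← h2]
    have : 0 < ((m:ℝ)+1)^n := by positivity
    nlinarith
  have h5 : (((m+1)^n : ℕ) : ℝ) < ((∑ i ∈ Finset.Icc 1 m, i^n : ℕ) : ℝ) := by
    push_cast
    push_cast at h4
    exact h4
  exact_mod_cast h5

/-- sum of the top `J` terms `(m-j)^n`, `j < J`. -/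
def topSum (m n : ℕ) (J : ℕ) : ℕ :=
  Nat.rec 0 (fun j s => s + (m - j)^n) J

def nn (m : ℕ) : ℕ := (69314718056*(2*m-1))/(200000000000)

def check (m : ℕ) : Bool :=
  Nat.ble (2 * (m-1)^(nn m + 1)) (m^(nn m + 1)) &&
    Nat.ble ((m+1)^(nn m) + 1) (topSum m (nn m) (min m 32))

def checkUpTo (k : ℕ) : Bool := Nat.rec true (fun m ih => check (m+3) && ih) k

set_option maxRecDepth 100000 in
lemma checkUpTo_true : checkUpTo 2996 = true := by
  decide +kernel

lemma checkUpTo_spec {k : ℕ} (h : checkUpTo k = true) : ∀ m, 3 ≤ m → m < k + 3 → check m = true := by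
  induction k with
  | zero => intro m h1 h2; omega
  | succ k ih =>
    intro m h1 h2
    have h' : (check (k+3) && checkUpTo k) = true := h
    rw [Bool.and_eq_true] at h'
    rcases (by omega : m = k + 3 ∨ m < k + 3) with h3 | h3
    · rw [h3]; exact h'.1
    · exact ih h'.2 m h1 h3

lemma topSum_eq (m n J : ℕ) : topSum m n J = ∑ j ∈ Finset.range J, (m - j)^n := by
  induction J with
  | zero => rfl
  | succ J ih =>
    rw [Finset.sum_range_succ, ← ih]
    rfl

lemma topSum_le {m n J : ℕ} (hJ : J ≤ m) : topSum m n J ≤ ∑ i ∈ Finset.Icc 1 m, i^n := by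
  rw [topSum_eq]
  calc ∑ j ∈ Finset.range J, (m - j)^n = ∑ i ∈ (Finset.range J).image (fun j => m - j), i^n := by
        rw [Finset.sum_image]
        intro a ha b hb hab
        simp only [Finset.coe_range, Set.mem_Iio] at ha hb
        simp only at hab
        omega
    _ ≤ _ := by
        apply Finset.sum_le_sum_of_subset
        intro i hi
        rw [Finset.mem_image] at hi
        obtain ⟨j, hj, rfl⟩ := hi
        rw [Finset.mem_range] at hj
        rw [Finset.mem_Icc]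
        omega

lemma descend {m : ℕ} {n n' : ℕ} (hn : n' ≤ n) (h : (m+1)^n < ∑ i ∈ Finset.Icc 1 m, i^n) :
    (m+1)^n' < ∑ i ∈ Finset.Icc 1 m, i^n' := by
  obtain ⟨t, rfl⟩ := Nat.exists_eq_add_of_le hn
  have h1 : ∑ i ∈ Finset.Icc 1 m, i^(n'+t) ≤ (∑ i ∈ Finset.Icc 1 m, i^n') * (m+1)^t := by
    rw [Finset.sum_mul]
    apply Finset.sum_le_sum
    intro i hi
    rw [Finset.mem_Icc] at hi
    rw [pow_add]
    apply Nat.mul_le_mul_left
    apply Nat.pow_le_pow_left
    omega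
  have h2 : (m+1)^n' * (m+1)^t < (∑ i ∈ Finset.Icc 1 m, i^n') * (m+1)^t := by
    rw [← pow_add]
    exact lt_of_lt_of_le h h1
  exact lt_of_mul_lt_mul_right h2 (Nat.zero_le _)

lemma small_case {m n : ℕ} (hm : 3 ≤ m) (hm2 : m < 2999) (h : m^n < 2*(m-1)^n) :
    (m + 1)^n < ∑ i ∈ Finset.Icc 1 m, i^n := by
  have hc := checkUpTo_spec checkUpTo_true m hm (by omega)
  unfold check at hc
  rw [Bool.and_eq_true] at hc
  obtain ⟨h1, h2⟩ := hc
  have h1 := Nat.le_of_ble_eq_true h1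
  have h2 := Nat.le_of_ble_eq_true h2
  have hle : n ≤ nn m := by
    by_contra hcon
    push Not at hcon
    obtain ⟨t, rfl⟩ := Nat.exists_eq_add_of_le (Nat.succ_le_of_lt hcon)
    have h3 : 2 * (m-1)^(nn m + 1 + t) ≤ m^(nn m + 1 + t) := by
      rw [pow_add _ (nn m + 1) t, pow_add _ (nn m + 1) t, ← mul_assoc]
      apply Nat.mul_le_mul h1
      apply Nat.pow_le_pow_left
      omega
    have h4 : m^(nn m + 1 + t) < 2 * (m-1)^(nn m + 1 + t) := h
    omega
  apply descend hle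
  have := topSum_le (m := m) (n := nn m) (J := min m 32) (Nat.min_le_left _ _)
  omega

/-- The first inequality: elementary, by Bernoulli and a geometric series. -/
lemma first_ineq {M n : ℕ} (hM : 1 ≤ M) (h : 2 * (M-1)^n < M^n) :
    ∑ i ∈ Finset.Icc 1 (M - 1), i^n < M^n := by
  -- `2^(M-1-i) * i^n ≤ (M-1)^n`-type bound: prove by descending: `2 i^n < (i+1)^n` for `i < M`
  have step : ∀ i, 1 ≤ i → i < M → 2 * i^n < (i+1)^n := by
    intro i hi1 hiM
    -- i * M ≤ (i+1) * (M-1)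
    have h1 : i * M ≤ (i+1) * (M-1) := by
      obtain ⟨t, rfl⟩ := Nat.exists_eq_add_of_lt hiM
      have : i + t + 1 - 1 = i + t := by omega
      rw [this]
      nlinarith
    have h2 : i^n * M^n ≤ (i+1)^n * (M-1)^n := by
      rw [← mul_pow, ← mul_pow]
      exact Nat.pow_le_pow_left h1 n
    have hMn : 0 < M^n := Nat.pos_of_ne_zero (pow_ne_zero _ (by omega))
    have hi : 0 < (i+1)^n := Nat.pos_of_ne_zero (pow_ne_zero _ (by omega))
    have h3 : 2 * i^n * M^n < (i+1)^n * M^n := by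
      calc 2 * i^n * M^n = 2 * (i^n * M^n) := by ring
        _ ≤ 2 * ((i+1)^n * (M-1)^n) := Nat.mul_le_mul_left _ h2
        _ = (i+1)^n * (2 * (M-1)^n) := by ring
        _ < (i+1)^n * M^n := Nat.mul_lt_mul_of_pos_left h hi
    exact lt_of_mul_lt_mul_right h3 (Nat.zero_le _)
  have key : ∀ K, K + 1 ≤ M → ∑ i ∈ Finset.Icc 1 K, i^n < (K+1)^n := by
    intro K
    induction K with
    | zero => intro _; simp
    | succ K ih =>
      intro hK
      rw [Finset.sum_Icc_succ_top (by omega)]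
      have := ih (by omega)
      have h2 := step (K+1) (by omega) (by omega)
      omega
  have := key (M-1) (by omega)
  rwa [Nat.sub_add_cancel hM] at this

/-- For all n ≥ 1, m ≥ 2 with (1−1/m)^n > 1/2 and (1−1/(m−1))^n < 1/2: (m−1)^n exceeds 1^n+…+(m−2)^n and (m+1)^n is less than 1^n+…+m^n. -/
theorem result :
    ∀ m n : ℕ, 1 ≤ n → 2 ≤ m →
      (1 - 1 / (m : ℝ)) ^ n > 1 / 2 →
      (1 - 1 / ((m : ℝ) - 1)) ^ n < 1 / 2 →
      (m - 1) ^ n > ∑ i ∈ Finset.Icc 1 (m - 2), i ^ n ∧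
      (m + 1) ^ n < ∑ i ∈ Finset.Icc 1 m, i ^ n := by
  intro m n hn hm h1 h2
  have hm0 : (0:ℝ) < m := by
    have : 0 < m := by omega
    exact_mod_cast this
  -- natural number forms of the hypotheses
  have h1' : m^n < 2*(m-1)^n := by
    have e : (1 - 1/(m:ℝ)) = ((m-1 : ℕ):ℝ)/m := by
      rw [Nat.cast_sub (by omega)]; field_simp; simp
    rw [e, div_pow, gt_iff_lt, div_lt_div_iff₀ (by norm_num) (by positivity)] at h1
    have : ((m^n : ℕ):ℝ) < ((2*(m-1)^n : ℕ) : ℝ) := by push_cast at h1 ⊢; linarith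
    exact_mod_cast this
  have hm3 : 3 ≤ m := by
    by_contra hcon
    have : m = 2 := by omega
    subst this
    have h3 : 2^1 ≤ 2^n := Nat.pow_le_pow_right (by norm_num) hn
    simp at h1'
    omega
  constructor
  · have h2' : 2*(m-1-1)^n < (m-1)^n := by
      have hm1 : (0:ℝ) < ((m-1 : ℕ):ℝ) := by
        have : 0 < m - 1 := by omega
        exact_mod_cast this
      have e0 : (m:ℝ) - 1 = ((m-1 : ℕ):ℝ) := by
        rw [Nat.cast_sub (by omega)]; simp
      have e : (1 - 1/((m:ℝ)-1)) = ((m-1-1 : ℕ):ℝ)/((m-1 : ℕ):ℝ) := by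
        rw [e0, Nat.cast_sub (by omega : 1 ≤ m - 1)]; field_simp; simp
      rw [e, div_pow, div_lt_div_iff₀ (by positivity) (by norm_num)] at h2
      have : ((2*(m-1-1)^n : ℕ):ℝ) < (((m-1)^n : ℕ) : ℝ) := by push_cast at h2 ⊢; linarith
      exact_mod_cast this
    have := first_ineq (M := m-1) (by omega) h2'
    have e3 : m - 1 - 1 = m - 2 := by omega
    rw [e3] at this
    exact this
  · rcases lt_or_ge m 2999 with hc | hc
    · exact small_case hm3 hc h1'
    · exact big_case hc h1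

end Pool.Agent.S17771
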