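import Pool.Statements.S17941
import Pool.Agent.Lib.H20G.BT
import Pool.Agent.Lib.H20G.A6

set_option autoImplicit false
open MeasureTheory Filter
open Pool Pool.MP_9f8062_nt

namespace Pool.Agent.S17941

/-- For γ≠0 and ψ≥0 with ∑φ(q)ψ(q)/q divergent and ∑_{q≤Q}φ(q)ψ(q)/q ≥ c∑_{q≤Q}ψ(q) for infinitely many Q, almost every x in [0,1] has ∣qx−p−γ∣<ψ(q) with gcd(p,q)=1 for infinitely many q. -/
theorem result :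
    ∀ γ : ℝ, γ ≠ 0 → ∀ ψ : ℕ → ℝ, (∀ q : ℕ, 0 ≤ ψ q) →
      ¬ Summable (fun q : ℕ => (Nat.totient q : ℝ) * ψ q / (q : ℝ)) →
      (∃ c : ℝ, 0 < c ∧ ∃ᶠ Q : ℕ in atTop,
          c * (∑ q ∈ Finset.Icc 1 Q, ψ q) ≤
            ∑ q ∈ Finset.Icc 1 Q, (Nat.totient q : ℝ) * ψ q / (q : ℝ)) →
      volume {x : ℝ | x ∈ Set.Icc (0 : ℝ) 1 ∧
          ∃ᶠ q : ℕ in atTop, ∃ p : ℤ, Int.gcd p (q : ℤ) = 1 ∧
            |(q : ℝ) * x - (p : ℝ) - γ| < ψ q} = 1 :=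
  Pool.Agent.H20G.a6_final Pool.Agent.H20G.block_thm

end Pool.Agent.S17941
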