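import Pool.Statements.S18919
import Pool.Agent.Lib.Helper54.S18919.Final
import Pool.Agent.Lib.Helper54.S18919.Data.Valid

set_option autoImplicit false
open Pool Pool.MP_f10524_nt

namespace Pool.Agent.S18919

/-- Let φ be the real root of t³=t+1. For every norm on ℝ² and every θ with qθ∉ℤ² (q≠0), best-approximation denominators satisfy liminf M_ν^{1/ν} ≥ φ, and for each ε>0 some norm and θ give liminf < φ+ε. -/
theorem result :
    ∀ φ : ℝ, φ ^ 3 = φ + 1 →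
      (∀ N : (Fin 2 → ℝ) → ℝ,
        (∀ x, N x = 0 → x = 0) →
        (∀ x y, N (x + y) ≤ N x + N y) →
        (∀ (r : ℝ) (x : Fin 2 → ℝ), N (r • x) = |r| * N x) →
        ∀ θ : Fin 2 → ℝ,
          (∀ q : ℤ, q ≠ 0 → ¬ ∀ i : Fin 2, ∃ a : ℤ, (q : ℝ) * θ i = (a : ℝ)) →
          ∀ c : ℝ, 0 < c → c < φ →
            ∀ᶠ ν in Filter.atTop,
              c ^ ν < ((Nat.nth (fun k : ℕ => 0 < k ∧ ∀ j : ℕ, 0 < j → j < k →
                  (⨅ a : Fin 2 → ℤ, N (fun i => (k : ℝ) * θ i - ((a i : ℤ) : ℝ))) <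
                  (⨅ a : Fin 2 → ℤ, N (fun i => (j : ℝ) * θ i - ((a i : ℤ) : ℝ)))) ν : ℕ) : ℝ))
      ∧
      (∀ ε : ℝ, 0 < ε →
        ∃ N : (Fin 2 → ℝ) → ℝ,
          (∀ x, N x = 0 → x = 0) ∧
          (∀ x y, N (x + y) ≤ N x + N y) ∧
          (∀ (r : ℝ) (x : Fin 2 → ℝ), N (r • x) = |r| * N x) ∧
          ∃ θ : Fin 2 → ℝ,
            (∀ q : ℤ, q ≠ 0 → ¬ ∀ i : Fin 2, ∃ a : ℤ, (q : ℝ) * θ i = (a : ℝ)) ∧
            ∃ c : ℝ, 0 < c ∧ c < φ + ε ∧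
              ∃ᶠ ν in Filter.atTop,
                ((Nat.nth (fun k : ℕ => 0 < k ∧ ∀ j : ℕ, 0 < j → j < k →
                    (⨅ a : Fin 2 → ℤ, N (fun i => (k : ℝ) * θ i - ((a i : ℤ) : ℝ))) <
                    (⨅ a : Fin 2 → ℤ, N (fun i => (j : ℝ) * θ i - ((a i : ℤ) : ℝ)))) ν : ℕ) : ℝ) < c ^ ν) := by
  intro φ hφ
  constructor
  · intro N h0 htri hhom θ hθ c hc hcφ
    have hN : Pool.Agent.Helper54.IsNorm2 N := ⟨h0, htri, hhom⟩
    exact Pool.Agent.Helper54.Cert.nth_growth Pool.Agent.Helper54.Cert.valid_root hN hθ φ hφ c hc hcφ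
  · intro ε hε
    have hN := Pool.Agent.Helper54.eN_norm hφ
    refine ⟨Pool.Agent.Helper54.eN φ, hN.eq_zero, hN.tri, hN.hom, Pool.Agent.Helper54.eθ φ,
      Pool.Agent.Helper54.eθ_adm hφ, ?_⟩
    obtain ⟨c, h1, h2, h3⟩ := Pool.Agent.Helper54.sharp hφ ε hε
    exact ⟨c, h1, h2, h3.frequently⟩

end Pool.Agent.S18919
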