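import Pool.Statements.S19482
import Pool.Agent.Lib.H96.RdvMixed

set_option autoImplicit false
open MeasureTheory
open Pool Pool.MP_925b40_pr

namespace Pool.Agent.S19482

/-- The negation of the preceding statement: On the directed unit circle with uniform random rotation, no mixed speed-1 strategy used by both players gives a smaller expected meeting time than the coin-half-tour strategy (random direction per half-circle), so CO-HA-TO is optimal symmetric. -/
theorem result :
    ¬ (∀ μ : @Measure C(NNReal, UnitAddCircle) (borel C(NNReal, UnitAddCircle)),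
      IsProbabilityMeasure μ →
      (∀ᵐ (f : C(NNReal, UnitAddCircle)) ∂μ, LipschitzWith 1 (⇑f) ∧ f 0 = 0) →
      (∫⁻ ω₁ : ℕ → Bool,
          (∫⁻ ω₂ : ℕ → Bool,
              (∫⁻ a : UnitAddCircle,
                ⨅ (τ : NNReal)
                  (_ : a + (((∑ j ∈ Finset.range ⌊2 * (τ : ℝ)⌋₊,
                              (if ω₁ j then (1 / 2 : ℝ) else -1 / 2))
                            + (if ω₁ ⌊2 * (τ : ℝ)⌋₊ then (1 : ℝ) else -1)
                              * ((τ : ℝ) - (⌊2 * (τ : ℝ)⌋₊ : ℝ) / 2) : ℝ) : UnitAddCircle)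
                      = (((∑ j ∈ Finset.range ⌊2 * (τ : ℝ)⌋₊,
                              (if ω₂ j then (1 / 2 : ℝ) else -1 / 2))
                            + (if ω₂ ⌊2 * (τ : ℝ)⌋₊ then (1 : ℝ) else -1)
                              * ((τ : ℝ) - (⌊2 * (τ : ℝ)⌋₊ : ℝ) / 2) : ℝ) : UnitAddCircle)),
                  ((τ : ENNReal)))
            ∂(Measure.infinitePi (fun _ : ℕ => (PMF.uniformOfFintype Bool).toMeasure)))
        ∂(Measure.infinitePi (fun _ : ℕ => (PMF.uniformOfFintype Bool).toMeasure)))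
      ≤ ∫⁻ (f : C(NNReal, UnitAddCircle)), (∫⁻ (g : C(NNReal, UnitAddCircle)),
            (∫⁻ a : UnitAddCircle,
              ⨅ (τ : NNReal) (_ : a + f τ = g τ), ((τ : ENNReal))) ∂μ) ∂μ) := by
  intro h
  have h1 := h Pool.Agent.Lib.H96.Rdv.mixed Pool.Agent.Lib.H96.Rdv.isProbabilityMeasure_mixed
    Pool.Agent.Lib.H96.Rdv.ae_mixed
  have h2 := Pool.Agent.Lib.H96.Rdv.co_value_lower
  have h3 := Pool.Agent.Lib.H96.Rdv.mixed_value
  have h4 : (3 / 4 : ENNReal) ≤ ENNReal.ofReal (299 / 400) := h2.trans (h1.trans h3)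
  have h5 : (3 / 4 : ENNReal) = ENNReal.ofReal (3 / 4) := by
    rw [ENNReal.ofReal_div_of_pos (by norm_num)]; simp
  rw [h5, ENNReal.ofReal_le_ofReal_iff (by norm_num)] at h4
  norm_num at h4

end Pool.Agent.S19482
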