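import Pool.Statements.S19508
import Pool.Agent.Lib.H67C.Main

set_option autoImplicit false
open MeasureTheory ProbabilityTheory Filter
open Pool Pool.MP_997af3_pr

namespace Pool.Agent.S19508

/-- The negation of the preceding statement: For nonnegative profiles U_n with unit-norm rows and columns and max entry o(n^-ε), and an i.i.d. complex array with mean 0 and variance 1, the eigenvalue distribution of U_n ⊙ M_n converges weakly in probability to the uniform law on the unit disc. -/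
theorem result :
    ¬ (∀ (U : ∀ n : ℕ, Matrix (Fin n) (Fin n) ℝ),
      (∀ n i j, 0 ≤ U n i j) →
      (∀ n (j : Fin n), ∑ i, U n i j ^ 2 = 1) →
      (∀ n (j : Fin n), ∑ i, U n j i ^ 2 = 1) →
      (∃ ε : ℝ, 0 < ε ∧ ∀ δ : ℝ, 0 < δ →
          ∀ᶠ n in atTop, ∀ i j : Fin n, U n i j * (n : ℝ) ^ ε ≤ δ) →
      ∀ (Ω : Type) [MeasurableSpace Ω] (P : Measure Ω) [IsProbabilityMeasure P]
        (X : ℕ × ℕ → Ω → ℂ),
        (∀ p, Measurable (X p)) →
        iIndepFun X P →
        (∀ p, IdentDistrib (X p) (X (0, 0)) P P) →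
        MemLp (X (0, 0)) 2 P →
        ∫ ω, X (0, 0) ω ∂P = 0 →
        ∫ ω, ‖X (0, 0) ω‖ ^ 2 ∂P = 1 →
        ∀ f : BoundedContinuousFunction ℂ ℝ, ∀ δ : ℝ, 0 < δ →
          Tendsto
            (fun n : ℕ => P {ω | δ <
              |((Matrix.charpoly (Matrix.of (fun i j : Fin n =>
                    ((U n i j : ℝ) : ℂ) * X (i.val, j.val) ω))).roots.map
                    (fun z => f z)).sum / (n : ℝ)
                - (1 / Real.pi) * ∫ z in Metric.closedBall (0 : ℂ) 1, f z|})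
            atTop (nhds 0)) := by
  intro H
  choose U hU0 hUc hUr hUle hUev using Pool.Agent.Lib.H67C.exists_U
  have key := H U hU0 hUc hUr (Pool.Agent.Lib.H67C.eps_cond U hUle) (ℕ × ℕ → ℂ)
    Pool.Agent.Lib.H67C.PP (fun p ω => ω p) (fun p => (Pool.Agent.Lib.H67C.PP_mp p).measurable)
    Pool.Agent.Lib.H67C.PP_indep Pool.Agent.Lib.H67C.PP_ident Pool.Agent.Lib.H67C.PP_memLp
    Pool.Agent.Lib.H67C.PP_mean Pool.Agent.Lib.H67C.PP_var Pool.Agent.Lib.H67C.f (1 / 4)
    (by norm_num)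
  have h1 := key.eventually (gt_mem_nhds (show (0 : ENNReal) < 1 / 2 by norm_num))
  rw [Filter.eventually_atTop] at h1
  obtain ⟨N, hN⟩ := h1
  obtain ⟨n, hnN, hpos, hgood⟩ := Pool.Agent.Lib.H67C.exists_good N
  have h2 := hN n hnN
  have h3 := hUev n hgood (ℕ × ℕ → ℂ) Pool.Agent.Lib.H67C.PP
    (fun p ω => ω p) Pool.Agent.Lib.H67C.PP_indep Pool.Agent.Lib.H67C.PP_ne
  have h5 := Pool.Agent.Lib.H67C.Ev_subset n hpos (U n)
    (fun (p : ℕ × ℕ) (ω : ℕ × ℕ → ℂ) => ω p)
  have h4 := h3.trans (measure_mono h5)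
  exact absurd h2 (not_lt.2 h4)

end Pool.Agent.S19508
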