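import Pool.Statements.S19577
import Pool.Agent.Lib.H77M.Main

set_option autoImplicit false
open MeasureTheory
open scoped ENNReal
open Pool Pool.MP_b45e87_pr

namespace Pool.Agent.S19577

/-- There is a real ξ such that the expected squared 2-Wasserstein distance between the empirical measure of n i.i.d. uniform points in the unit square and the uniform measure equals (1/4π)·log n/n + ξ/n + o(1/n). -/
theorem result :
  ∃ ξ : ℝ, Asymptotics.IsLittleO Filter.atTop
    (fun n : ℕ =>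
      (∫⁻ X : Fin n → ℝ × ℝ,
          (⨅ (γ : Measure ((ℝ × ℝ) × (ℝ × ℝ)))
            (_ : γ.map Prod.fst = (n : ℝ≥0∞)⁻¹ • ∑ i, Measure.dirac (X i) ∧
                 γ.map Prod.snd = (volume : Measure (ℝ × ℝ)).restrict
                   (Set.Icc (0:ℝ) 1 ×ˢ Set.Icc (0:ℝ) 1)),
            ∫⁻ p, ENNReal.ofReal ((p.1.1 - p.2.1) ^ 2 + (p.1.2 - p.2.2) ^ 2) ∂γ)
        ∂(Measure.pi fun _ : Fin n =>
            (volume : Measure (ℝ × ℝ)).restrict (Set.Icc (0:ℝ) 1 ×ˢ Set.Icc (0:ℝ) 1))).toReal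
      - (1 / (4 * Real.pi)) * Real.log n / n - ξ / n)
    (fun n : ℕ => 1 / (n : ℝ)) := by
  obtain ⟨ξ, hξ⟩ := Pool.Agent.Lib.H77M.F_tendsto
  refine ⟨ξ, ?_⟩
  have h1 : Filter.Tendsto (fun n : ℕ => Pool.Agent.Lib.H77M.F n - Real.log n / (4 * Real.pi) - ξ)
      Filter.atTop (nhds 0) := by
    have h2 := hξ.sub_const ξ
    rwa [sub_self] at h2
  have h3 : Asymptotics.IsLittleO Filter.atTop
      (fun n : ℕ => (Pool.Agent.Lib.H77M.F n - Real.log n / (4 * Real.pi) - ξ) * (1 / (n : ℝ)))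
      (fun n : ℕ => (1 : ℝ) * (1 / (n : ℝ))) := by
    refine Asymptotics.IsLittleO.mul_isBigO ?_ (Asymptotics.isBigO_refl _ _)
    exact (Asymptotics.isLittleO_one_iff ℝ).2 h1
  simp only [one_mul] at h3
  refine h3.congr' ?_ Filter.EventuallyEq.rfl
  filter_upwards [Filter.eventually_ge_atTop 1] with n hn
  rw [Pool.Agent.Lib.H77M.bridge hn]
  have hn' : (n : ℝ) ≠ 0 := by positivity
  field_simp

end Pool.Agent.S19577
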