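import Pool.Statements.S19615
import Pool.Agent.Lib.Helper98.CompleteMix

set_option autoImplicit false
open MeasureTheory
open Pool Pool.MP_bf37ff_pr

namespace Pool.Agent.S19615

/-- For every probability law on the reals with a density and support in a bounded interval, there is N such that for every n ≥ N some joint law on n coordinates has all marginals equal to it and an a.s. constant coordinate sum. -/
theorem result :
    ∀ μ : Measure ℝ, IsProbabilityMeasure μ →
      μ ≪ volume →
      (∃ a b : ℝ, μ (Set.Icc a b)ᶜ = 0) →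
      ∃ N : ℕ, ∀ n : ℕ, N ≤ n →
        ∃ ν : Measure (Fin n → ℝ), IsProbabilityMeasure ν ∧
          (∀ i : Fin n, ν.map (fun x => x i) = μ) ∧
          ∃ c : ℝ, ∀ᵐ x ∂ν, ∑ i, x i = c := by
  intro μ hp hμ ⟨a, b, hab⟩
  obtain ⟨N, hN⟩ := Pool.Agent.CM98.main μ hμ a b hab
  refine ⟨N, fun n hn => ?_⟩
  obtain ⟨ν, hν, hmarg, hsum⟩ := hN n hn
  exact ⟨ν, hν, hmarg, _, hsum⟩

end Pool.Agent.S19615
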