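import Pool.Statements.S19701
-- import your own Pool.Agent.* helpers here
import Pool.Agent.Lib.BE.Final

set_option autoImplicit false
open Pool Pool.MP_e52bd2_pr

namespace Pool.Agent.S19701

/-- For any finite Rademacher sum with positive coefficients whose squares sum to 1 and whose largest coefficient is a_1, the gap between its CDF and the standard normal CDF at any x is at most P(0 < Z < a_1). -/
theorem result :
    ∀ (n : ℕ) (a : Fin (n + 1) → ℝ),
      (∀ i, 0 < a i) →
      (∀ i, a i ≤ a 0) →
      (∑ i, a i ^ 2 = 1) →
      ∀ x : ℝ,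
        |((Finset.univ.filter
              (fun ε : Fin (n + 1) → Bool =>
                ∑ i, (if ε i then a i else -a i) ≤ x)).card : ℝ) / 2 ^ (n + 1)
          - ((ProbabilityTheory.gaussianReal 0 1) (Set.Iic x)).toReal|
        ≤ ((ProbabilityTheory.gaussianReal 0 1) (Set.Ioo 0 (a 0))).toReal := by
  intro n a hpos hmax hsum x
  exact BE.final_of_bound n a (hpos 0) (fun y => BE.U_all a Finset.univ
    (fun i _ => ⟨(hpos i).le, hmax i⟩) (Finset.mem_univ 0) rfl hsum (hpos 0) y) x

end Pool.Agent.S19701
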