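import Pool.Statements.S19747
import Pool.Agent.Lib.QIP.ExitKey
import Pool.Agent.Lib.QIP.Assembly

set_option autoImplicit false
open MeasureTheory ProbabilityTheory Filter
open Pool Pool.MP_f50824_pr

namespace Pool.Agent.S19747

/-- For d≥3, s in (d+2,2d] and any admissible kernel with decay ∣x∣^(-s+o(1)), a.s. the rescaled interpolated simple random walk on long-range percolation converges on C([0,T]) to Brownian motion with a fixed nondegenerate covariance. -/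
theorem result :
  ∀ (d : ℕ), 3 ≤ d → ∀ (α : ℝ), (d : ℝ) + 2 < α → α ≤ 2 * (d : ℝ) →
  ∀ (p : (Fin d → ℤ) → ℝ),
    (∀ x, 0 ≤ p x ∧ p x ≤ 1) → (∀ x, p (-x) = p x) → p 0 = 0 →
    (∀ x : Fin d → ℤ, ∑ i, |x i| = 1 → p x = 1) →
    (∀ ε : ℝ, 0 < ε → ∃ R : ℝ, ∀ x : Fin d → ℤ, R ≤ ((∑ i, |x i| : ℤ) : ℝ) →
        ((∑ i, |x i| : ℤ) : ℝ) ^ (-α - ε) ≤ p x ∧ p x ≤ ((∑ i, |x i| : ℤ) : ℝ) ^ (-α + ε)) →
  ∀ (Ω : Type) (mΩ : MeasurableSpace Ω) (P : Measure Ω), IsProbabilityMeasure P →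
  ∀ (ξ : Sym2 (Fin d → ℤ) → Ω → Bool),
    (∀ e, Measurable (ξ e)) → iIndepFun ξ P →
    (∀ x y : Fin d → ℤ, x ≠ y → P {ω | ξ s(x, y) ω = true} = ENNReal.ofReal (p (y - x))) →
  ∃ (S : Matrix (Fin d) (Fin d) ℝ), S.PosDef ∧
  ∃ (Ω' : Type) (mΩ' : MeasurableSpace Ω') (P' : Measure Ω'), IsProbabilityMeasure P' ∧
  ∃ W : ℝ → Ω' → (Fin d → ℝ),
    (∀ t, Measurable (W t)) ∧ (∀ ω', Continuous (fun t => W t ω')) ∧
    (∀ (k : ℕ) (t : Fin k → ℝ) (u : Fin k → Fin d → ℝ), (∀ j, 0 ≤ t j) →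
      ∫ ω', Complex.exp (Complex.I * ((∑ j, ∑ a, u j a * W (t j) ω' a : ℝ) : ℂ)) ∂P' =
        Complex.exp (-((∑ j, ∑ l, min (t j) (t l) *
            (∑ a, ∑ b, u j a * S a b * u l b) : ℝ) : ℂ) / 2)) ∧
    ∀ᵐ ω ∂P, ∀ T : ℝ, 0 < T →
      ∀ F : UniformFun (Set.Icc (0:ℝ) T) (Fin d → ℝ) → ℝ, Continuous F → (∃ C : ℝ, ∀ f, |F f| ≤ C) →
      Tendsto (fun n : ℕ =>
        ∑' z : Fin (⌊T * n⌋₊ + 1 + 1) → (Fin d → ℤ),
          ((if z 0 = 0 then (1:ℝ) else 0) *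
            ∏ i : Fin (⌊T * n⌋₊ + 1),
              (if z i.castSucc ≠ z i.succ ∧ ξ s(z i.castSucc, z i.succ) ω = true
                then (1:ℝ) else 0) /
                (({y : Fin d → ℤ | y ≠ z i.castSucc ∧ ξ s(z i.castSucc, y) ω = true}.ncard : ℕ) : ℝ)) *
          F (UniformFun.ofFun (fun t : Set.Icc (0:ℝ) T =>
              (1 / Real.sqrt n) •
                ((fun i => (((if h : ⌊t.1 * n⌋₊ < ⌊T * n⌋₊ + 1 + 1
                      then z ⟨⌊t.1 * n⌋₊, h⟩ else 0) i : ℤ) : ℝ)) +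
                  (t.1 * n - (⌊t.1 * n⌋₊ : ℝ)) •
                    ((fun i => (((if h : ⌊t.1 * n⌋₊ + 1 < ⌊T * n⌋₊ + 1 + 1
                      then z ⟨⌊t.1 * n⌋₊ + 1, h⟩ else 0) i : ℤ) : ℝ)) -
                     (fun i => (((if h : ⌊t.1 * n⌋₊ < ⌊T * n⌋₊ + 1 + 1
                      then z ⟨⌊t.1 * n⌋₊, h⟩ else 0) i : ℤ) : ℝ)))))))
        atTop (nhds (∫ ω', F (UniformFun.ofFun (fun t : Set.Icc (0:ℝ) T => W t.1 ω')) ∂P')) := by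
  exact Pool.Agent.Lib.QIP.assembly Pool.Agent.Lib.QIP.key

end Pool.Agent.S19747
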